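import Pool.Agent.Hhelper49.Srr.Core

/-!
# Final: Serre's question and hyperelementary subgroups of finite quotients
-/

namespace Pool.Agent.Hhelper49.Srr

/-- common divisors: from `Z^a` and `Z^b` to `Z^gcd(a,b)` -/
theorem pow_gcd {R : Type} [Ring R] {M : Type} [AddCommGroup M] [Module R M] :
    ∀ (k a b : ℕ), a + b ≤ k → FF R (Fin a → M) → FF R (Fin b → M) →
      FF R (Fin (Nat.gcd a b) → M) := by
  intro k
  induction k with
  | zero =>
    intro a b h ha _
    have h1 : a = 0 := by omega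
    have h2 : b = 0 := by omega
    subst h1
    subst h2
    exact ha
  | succ k ih =>
    intro a b h ha hb
    rcases Nat.eq_zero_or_pos a with h1 | h1
    · subst h1
      rw [Nat.gcd_zero_left]
      exact hb
    rcases Nat.eq_zero_or_pos b with h2 | h2
    · subst h2
      rw [Nat.gcd_zero_right]
      exact ha
    rcases le_total a b with h3 | h3
    · obtain ⟨c, rfl⟩ := Nat.exists_eq_add_of_le h3
      have hc : FF R (Fin c → M) := by
        apply pow_sub (a := c) (b := a) _ ha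
        rwa [add_comm c a]
      have := ih a c (by omega) ha hc
      rwa [Nat.gcd_self_add_right]
    · obtain ⟨c, rfl⟩ := Nat.exists_eq_add_of_le h3
      have hc : FF R (Fin c → M) := by
        apply pow_sub (a := c) (b := b) _ hb
        rwa [add_comm c b]
      have := ih c b (by omega) hc hb
      rwa [Nat.gcd_self_add_left]

theorem final (G : Type) [Group G] (hG : TypeFP G) (hF : ¬ TypeFF G) :
    ∃ p : ℕ, p.Prime ∧ ∀ (Q : Type) [Group Q] [Finite Q] (π : G →* Q),
      ∃ H : Subgroup Q, IsHyp p H ∧ ∀ m : ℕ, m.Coprime p → ¬ FreeRes m (H.comap π) := by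
  classical
  by_contra hcon
  push Not at hcon
  have hFP := fp_of_typeFP G hG
  -- at every prime there is a good exponent
  have hloc : ∀ p : ℕ, p.Prime → ∃ m : ℕ, m.Coprime p ∧
      FF (MonoidAlgebra ℤ G) (Fin m → Triv G) := by
    intro p hp
    obtain ⟨Q, iQ, iF, π, h⟩ := hcon p hp
    refine core G hFP Q π p hp ?_
    intro H hH
    obtain ⟨m, hm, hm'⟩ := h H hH
    exact ⟨m, hm, (freeRes_iff m _).1 hm'⟩
  -- the smallest positive exponent
  have hex : ∃ d : ℕ, 0 < d ∧ FF (MonoidAlgebra ℤ G) (Fin d → Triv G) := by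
    obtain ⟨m, hm, hm'⟩ := hloc 2 Nat.prime_two
    refine ⟨m, Nat.pos_of_ne_zero ?_, hm'⟩
    rintro rfl
    rw [Nat.coprime_zero_left] at hm
    omega
  obtain ⟨hd0, hd⟩ := Nat.find_spec hex
  have hdiv : ∀ m : ℕ, FF (MonoidAlgebra ℤ G) (Fin m → Triv G) → Nat.find hex ∣ m := by
    intro m hm
    have h1 := pow_gcd _ (Nat.find hex) m le_rfl hd hm
    have h2 : 0 < Nat.gcd (Nat.find hex) m := Nat.gcd_pos_of_pos_left _ hd0
    have h3 := Nat.find_min' hex ⟨h2, h1⟩
    have h4 : Nat.gcd (Nat.find hex) m ∣ Nat.find hex := Nat.gcd_dvd_left _ _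
    have h5 := le_antisymm (Nat.le_of_dvd hd0 h4) h3
    rw [← h5]
    exact Nat.gcd_dvd_right _ _
  have hone : Nat.find hex = 1 := by
    by_contra h1
    obtain ⟨p, hp, hpd⟩ := Nat.exists_prime_and_dvd h1
    obtain ⟨m, hm, hm'⟩ := hloc p hp
    have h2 : p ∣ m := hpd.trans (hdiv m hm')
    have h3 : p ∣ 1 := by
      have h4 : Nat.gcd m p = 1 := hm
      rw [← h4]
      exact Nat.dvd_gcd h2 dvd_rfl
    exact hp.one_lt.ne' (Nat.dvd_one.1 h3)
  rw [hone] at hd
  apply hF
  apply typeFF_of_ff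
  exact ff_iso (LinearEquiv.funUnique (Fin 1) (MonoidAlgebra ℤ G) (Triv G)) hd

end Pool.Agent.Hhelper49.Srr
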