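import Pool.Agent.Hhelper49.Srr.Defs

/-!
# Module ClsP: two-out-of-three for FP

The same proofs as in module Cls, with finitely generated projective modules at the end of the
resolution.  In `fpl_succ` for `n = 0`: a finitely generated projective `M` is a quotient of some
`R^k` by `f`, which splits, so `ker f` is a direct summand of `R^k`, finitely generated projective.
`fp_of_ff`: free modules are projective.
-/

namespace Pool.Agent.Hhelper49.Srr

variable {R : Type} [Ring R]

theorem fp_of_ff {M : Type} [AddCommGroup M] [Module R M] (h : FF R M) : FP R M := by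
  obtain ⟨n, hn⟩ := h
  refine ⟨n, ?_⟩
  induction n generalizing M with
  | zero =>
    obtain ⟨h1, h2⟩ := hn
    exact ⟨h1, inferInstance⟩
  | succ n ih =>
    obtain ⟨k, f, hf, hk⟩ := hn
    exact ⟨k, f, hf, ih hk⟩

theorem fpl_iso {M N : Type} [AddCommGroup M] [Module R M] [AddCommGroup N] [Module R N]
    (e : M ≃ₗ[R] N) (n : ℕ) (h : FPl R n M) : FPl R n N := by
  induction n generalizing M N with
  | zero =>
    obtain ⟨h1, h2⟩ := h
    exact ⟨Module.Finite.equiv e, Module.Projective.of_equiv e⟩
  | succ n ih =>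
    obtain ⟨k, f, hf, hk⟩ := h
    have hker : LinearMap.ker f = LinearMap.ker (e.toLinearMap ∘ₗ f) := by
      ext x
      simp
    exact ⟨k, e.toLinearMap ∘ₗ f, e.surjective.comp hf, ih (LinearEquiv.ofEq _ _ hker) hk⟩

theorem fp_iso {M N : Type} [AddCommGroup M] [Module R M] [AddCommGroup N] [Module R N]
    (e : M ≃ₗ[R] N) (h : FP R M) : FP R N := by
  obtain ⟨n, hn⟩ := h
  exact ⟨n, fpl_iso e n hn⟩

theorem fpl_succ {M : Type} [AddCommGroup M] [Module R M] (n : ℕ) (h : FPl R n M) :
    FPl R (n + 1) M := by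
  induction n generalizing M with
  | zero =>
    obtain ⟨h1, h2⟩ := h
    obtain ⟨k, f, hf⟩ := Module.Finite.exists_fin' R M
    refine ⟨k, f, hf, ?_⟩
    obtain ⟨s, hs⟩ := Module.projective_lifting_property f LinearMap.id hf
    -- the projection onto the kernel
    have hp : ∀ x : Fin k → R, x - s (f x) ∈ LinearMap.ker f := by
      intro x
      have h3 : f (s (f x)) = f x := by
        have := congrArg (fun g : M →ₗ[R] M => g (f x)) hs
        simpa using this
      rw [LinearMap.mem_ker, map_sub, h3, sub_self]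
    let p : (Fin k → R) →ₗ[R] LinearMap.ker f :=
      LinearMap.codRestrict (LinearMap.ker f) (LinearMap.id - s ∘ₗ f) hp
    have hpi : p ∘ₗ (LinearMap.ker f).subtype = LinearMap.id := by
      ext x
      have hx : f x = 0 := x.2
      simp [p, hx]
    have hps : Function.Surjective p := fun x => ⟨x, by
      have := congrArg (fun g : LinearMap.ker f →ₗ[R] LinearMap.ker f => g x) hpi
      simpa using this⟩
    exact ⟨Module.Finite.of_surjective p hps, Module.Projective.of_split _ p hpi⟩
  | succ n ih =>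
    obtain ⟨k, f, hf, hk⟩ := h
    exact ⟨k, f, hf, ih hk⟩

theorem clsP_fpl_add {M : Type} [AddCommGroup M] [Module R M] (n m : ℕ) (h : FPl R n M) :
    FPl R (n + m) M := by
  induction m with
  | zero => exact h
  | succ m ih => exact fpl_succ _ ih

/-- a resolution may start with any module isomorphic to some `R^k` -/
theorem clsP_fpl_of_surj {F B : Type} [AddCommGroup F] [Module R F] [AddCommGroup B] [Module R B]
    {k n : ℕ} (E : (Fin k → R) ≃ₗ[R] F) (r : F →ₗ[R] B) (hr : Function.Surjective r)
    (h : FPl R n (LinearMap.ker r)) : FPl R (n + 1) B := by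
  refine ⟨k, r ∘ₗ E.toLinearMap, hr.comp E.surjective, ?_⟩
  exact fpl_iso ((LinearEquiv.ofEq _ _ (LinearMap.ker_comp E.toLinearMap r)).trans
    (E.ofSubmodule' (LinearMap.ker r))).symm n h

/-- `R^(a+c) = R^a × R^c` -/
noncomputable def clsP_prodFin (a c : ℕ) : (Fin (a + c) → R) ≃ₗ[R] (Fin a → R) × (Fin c → R) :=
  (LinearEquiv.funCongrLeft R R finSumFinEquiv).trans
    (LinearEquiv.sumArrowLequivProdArrow (Fin a) (Fin c) R R)

theorem clsP_fpl_ext (n : ℕ) : ∀ {A B C : Type} [AddCommGroup A] [Module R A] [AddCommGroup B]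
    [Module R B] [AddCommGroup C] [Module R C] (f : A →ₗ[R] B) (g : B →ₗ[R] C)
    (_ : Function.Injective f) (_ : Function.Surjective g)
    (_ : LinearMap.range f = LinearMap.ker g) (_ : FPl R n A) (_ : FPl R n C), FPl R n B := by
  induction n with
  | zero =>
    intro A B C _ _ _ _ _ _ f g hf hg hfg hA hC
    obtain ⟨hA1, hA2⟩ := hA
    obtain ⟨hC1, hC2⟩ := hC
    obtain ⟨s, hs⟩ := Module.projective_lifting_property g LinearMap.id hg
    have hex : Function.Exact f g := LinearMap.exact_iff.mpr hfg.symm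
    obtain ⟨e, -⟩ := hex.splitSurjectiveEquiv hf ⟨s, hs⟩
    exact ⟨Module.Finite.equiv e.symm, Module.Projective.of_equiv e.symm⟩
  | succ n ih =>
    intro A B C _ _ _ _ _ _ f g hf hg hfg hA hC
    obtain ⟨a, p, hp, hkp⟩ := hA
    obtain ⟨c, q, hq, hkq⟩ := hC
    obtain ⟨q', hq'⟩ := Module.projective_lifting_property g q hg
    have hgq : ∀ v, g (q' v) = q v := fun v => by rw [← hq']; rfl
    have hgf : ∀ x, g (f x) = 0 := fun x => by
      have : f x ∈ LinearMap.ker g := hfg ▸ LinearMap.mem_range_self f x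
      exact this
    let r : (Fin a → R) × (Fin c → R) →ₗ[R] B := (f ∘ₗ p).coprod q'
    have hr : ∀ x v, r (x, v) = f (p x) + q' v := fun x v => by simp [r]
    have hlift : ∀ b, g b = 0 → ∃ x, f (p x) = b := by
      intro b hb
      have : b ∈ LinearMap.range f := by rw [hfg]; exact hb
      obtain ⟨y, rfl⟩ := this
      obtain ⟨x, rfl⟩ := hp y
      exact ⟨x, rfl⟩
    have hrs : Function.Surjective r := by
      intro b
      obtain ⟨v, hv⟩ := hq (g b)
      obtain ⟨x, hx⟩ := hlift (b - q' v) (by rw [map_sub, hgq, hv, sub_self])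
      exact ⟨(x, v), by rw [hr, hx, sub_add_cancel]⟩
    apply clsP_fpl_of_surj (clsP_prodFin a c) r hrs
    let α : LinearMap.ker p →ₗ[R] LinearMap.ker r :=
      LinearMap.codRestrict (LinearMap.ker r) ((LinearMap.inl R _ _).comp (LinearMap.ker p).subtype)
        (by
          intro x
          have hx : p x = 0 := x.2
          rw [LinearMap.mem_ker]
          change r ((x : Fin a → R), 0) = 0
          rw [hr, hx, map_zero, map_zero, add_zero])
    let β : LinearMap.ker r →ₗ[R] LinearMap.ker q :=
      LinearMap.codRestrict (LinearMap.ker q) ((LinearMap.snd R _ _).comp (LinearMap.ker r).subtype)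
        (by
          rintro ⟨⟨x, v⟩, hx⟩
          rw [LinearMap.mem_ker, hr] at hx
          rw [LinearMap.mem_ker]
          change q v = 0
          have h1 : g (f (p x) + q' v) = 0 := by rw [hx, map_zero]
          rwa [map_add, hgf, zero_add, hgq] at h1)
    refine ih α β ?_ ?_ ?_ hkp hkq
    · intro x y hxy
      have h1 := congrArg (fun z : LinearMap.ker r => (z : (Fin a → R) × (Fin c → R)).1) hxy
      exact Subtype.ext h1
    · rintro ⟨v, hv⟩
      rw [LinearMap.mem_ker] at hv
      obtain ⟨x, hx⟩ := hlift (-q' v) (by rw [map_neg, hgq, hv, neg_zero])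
      exact ⟨⟨(x, v), by rw [LinearMap.mem_ker, hr, hx, neg_add_cancel]⟩, rfl⟩
    · ext ⟨⟨x, v⟩, hx⟩
      rw [LinearMap.mem_ker, hr] at hx
      constructor
      · rintro ⟨y, hy⟩
        have h1 := congrArg (fun z : LinearMap.ker r => (z : (Fin a → R) × (Fin c → R)).2) hy
        rw [LinearMap.mem_ker]
        apply Subtype.ext
        exact h1.symm
      · intro h
        rw [LinearMap.mem_ker] at h
        have h1 : v = 0 := congrArg (fun z : LinearMap.ker q => (z : Fin c → R)) h
        subst h1
        rw [map_zero, add_zero] at hx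
        have h2 : p x = 0 := hf (by rw [hx, map_zero])
        exact ⟨⟨x, h2⟩, rfl⟩

theorem fp_ext {A B C : Type} [AddCommGroup A] [Module R A] [AddCommGroup B] [Module R B]
    [AddCommGroup C] [Module R C] (f : A →ₗ[R] B) (g : B →ₗ[R] C) (hf : Function.Injective f)
    (hg : Function.Surjective g) (hfg : LinearMap.range f = LinearMap.ker g)
    (hA : FP R A) (hC : FP R C) : FP R B := by
  obtain ⟨n, hn⟩ := hA
  obtain ⟨m, hm⟩ := hC
  exact ⟨n + m, clsP_fpl_ext (n + m) f g hf hg hfg (clsP_fpl_add n m hn)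
    (by rw [add_comm]; exact clsP_fpl_add m n hm)⟩

theorem fp_coker {A B C : Type} [AddCommGroup A] [Module R A] [AddCommGroup B] [Module R B]
    [AddCommGroup C] [Module R C] (f : A →ₗ[R] B) (g : B →ₗ[R] C) (hf : Function.Injective f)
    (hg : Function.Surjective g) (hfg : LinearMap.range f = LinearMap.ker g)
    (hA : FP R A) (hB : FP R B) : FP R C := by
  obtain ⟨n, hn⟩ := hB
  obtain ⟨b, h, hh, hK⟩ := fpl_succ n hn
  have hgf : ∀ x, g (f x) = 0 := fun x => by
    have : f x ∈ LinearMap.ker g := hfg ▸ LinearMap.mem_range_self f x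
    exact this
  let e : A ≃ₗ[R] LinearMap.range f := LinearEquiv.ofInjective f hf
  have he : ∀ x, ((e x : LinearMap.range f) : B) = f x := fun x => rfl
  have hmem : ∀ x : LinearMap.ker (g ∘ₗ h), (h ∘ₗ (LinearMap.ker (g ∘ₗ h)).subtype) x ∈
      LinearMap.range f := by
    intro x
    rw [hfg]
    exact x.2
  let φ : LinearMap.ker (g ∘ₗ h) →ₗ[R] LinearMap.range f :=
    LinearMap.codRestrict (LinearMap.range f) (h ∘ₗ (LinearMap.ker (g ∘ₗ h)).subtype) hmem
  have hφ : ∀ x, ((φ x : LinearMap.range f) : B) = h x := fun x => rfl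
  have hle : LinearMap.ker h ≤ LinearMap.ker (g ∘ₗ h) := by
    intro x hx
    rw [LinearMap.mem_ker] at hx
    rw [LinearMap.mem_ker, LinearMap.comp_apply, hx, map_zero]
  have hFP : FP R (LinearMap.ker (g ∘ₗ h)) := by
    refine fp_ext (Submodule.inclusion hle) (e.symm.toLinearMap ∘ₗ φ)
      (Submodule.inclusion_injective hle) ?_ ?_ ⟨n, hK⟩ hA
    · apply e.symm.surjective.comp
      rintro ⟨_, y, rfl⟩
      obtain ⟨x, hx⟩ := hh (f y)
      refine ⟨⟨x, ?_⟩, Subtype.ext hx⟩
      rw [LinearMap.mem_ker, LinearMap.comp_apply, hx, hgf]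
    · ext x
      rw [LinearMap.mem_ker, LinearMap.comp_apply]
      constructor
      · rintro ⟨y, rfl⟩
        have h1 : φ (Submodule.inclusion hle y) = 0 := Subtype.ext y.2
        change e.symm (φ _) = 0
        rw [h1, map_zero]
      · intro hx
        have h1 : φ x = 0 := e.symm.injective (by rw [map_zero]; exact hx)
        have h2 : h x = 0 := congrArg (fun z : LinearMap.range f => (z : B)) h1
        exact ⟨⟨x, h2⟩, Subtype.ext rfl⟩
  obtain ⟨m, hm⟩ := hFP
  exact ⟨m + 1, b, g ∘ₗ h, hg.comp hh, hm⟩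

theorem clsP_fp_free (c : ℕ) : FP R (Fin c → R) := ⟨0, inferInstance, inferInstance⟩

theorem fp_ker {A B C : Type} [AddCommGroup A] [Module R A] [AddCommGroup B] [Module R B]
    [AddCommGroup C] [Module R C] (f : A →ₗ[R] B) (g : B →ₗ[R] C) (hf : Function.Injective f)
    (hg : Function.Surjective g) (hfg : LinearMap.range f = LinearMap.ker g)
    (hB : FP R B) (hC : FP R C) : FP R A := by
  obtain ⟨n, hn⟩ := hC
  obtain ⟨c, h, hh, hK⟩ := fpl_succ n hn
  have hgf : ∀ x, g (f x) = 0 := fun x => by
    have : f x ∈ LinearMap.ker g := hfg ▸ LinearMap.mem_range_self f x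
    exact this
  let d : B × (Fin c → R) →ₗ[R] C := g ∘ₗ LinearMap.fst R _ _ - h ∘ₗ LinearMap.snd R _ _
  have hd : ∀ b v, d (b, v) = g b - h v := fun b v => rfl
  have hE : FP R (LinearMap.ker d) := by
    let α : LinearMap.ker h →ₗ[R] LinearMap.ker d :=
      LinearMap.codRestrict (LinearMap.ker d) ((LinearMap.inr R _ _).comp (LinearMap.ker h).subtype)
        (by
          intro x
          have hx : h x = 0 := x.2
          rw [LinearMap.mem_ker]
          change d (0, (x : Fin c → R)) = 0
          rw [hd, hx, map_zero, sub_zero])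
    refine fp_ext α (LinearMap.fst R B (Fin c → R) ∘ₗ (LinearMap.ker d).subtype) ?_ ?_ ?_
      ⟨n, hK⟩ hB
    · intro x y hxy
      have h1 := congrArg (fun z : LinearMap.ker d => (z : B × (Fin c → R)).2) hxy
      exact Subtype.ext h1
    · intro b
      obtain ⟨v, hv⟩ := hh (g b)
      exact ⟨⟨(b, v), by rw [LinearMap.mem_ker, hd, hv, sub_self]⟩, rfl⟩
    · ext ⟨⟨b, v⟩, hx⟩
      rw [LinearMap.mem_ker, hd] at hx
      constructor
      · rintro ⟨y, hy⟩
        have h1 := congrArg (fun z : LinearMap.ker d => (z : B × (Fin c → R)).1) hy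
        exact h1.symm
      · intro h1
        have h2 : b = 0 := h1
        subst h2
        rw [map_zero, zero_sub, neg_eq_zero] at hx
        exact ⟨⟨v, hx⟩, rfl⟩
  let α : A →ₗ[R] LinearMap.ker d :=
    LinearMap.codRestrict (LinearMap.ker d) ((LinearMap.inl R _ _).comp f)
      (by
        intro x
        rw [LinearMap.mem_ker]
        change d (f x, 0) = 0
        rw [hd, hgf, map_zero, sub_zero])
  let β : LinearMap.ker d →ₗ[R] (Fin c → R) :=
    LinearMap.snd R B (Fin c → R) ∘ₗ (LinearMap.ker d).subtype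
  have hα : Function.Injective α := by
    intro x y hxy
    have h1 := congrArg (fun z : LinearMap.ker d => (z : B × (Fin c → R)).1) hxy
    exact hf h1
  have hβ : Function.Surjective β := by
    intro v
    obtain ⟨b, hb⟩ := hg (h v)
    exact ⟨⟨(b, v), by rw [LinearMap.mem_ker, hd, hb, sub_self]⟩, rfl⟩
  have hαβ : LinearMap.ker β = LinearMap.range α := by
    ext ⟨⟨b, v⟩, hx⟩
    rw [LinearMap.mem_ker, hd] at hx
    constructor
    · intro h1
      have h2 : v = 0 := h1
      subst h2
      rw [map_zero, sub_zero] at hx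
      have h3 : b ∈ LinearMap.range f := by rw [hfg]; exact hx
      obtain ⟨y, rfl⟩ := h3
      exact ⟨y, rfl⟩
    · rintro ⟨y, hy⟩
      have h1 := congrArg (fun z : LinearMap.ker d => (z : B × (Fin c → R)).2) hy
      exact h1.symm
  obtain ⟨s, hs⟩ := Module.projective_lifting_property β LinearMap.id hβ
  obtain ⟨e, -⟩ := (LinearMap.exact_iff.mpr hαβ).splitSurjectiveEquiv hα ⟨s, hs⟩
  refine fp_coker (LinearMap.inr R A (Fin c → R)) (LinearMap.fst R A (Fin c → R))
    LinearMap.inr_injective LinearMap.fst_surjective ?_ (clsP_fp_free c) (fp_iso e hE)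
  rw [LinearMap.range_inr]

end Pool.Agent.Hhelper49.Srr
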