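import Pool.Agent.Hhelper49.Srr.Cls
import Pool.Agent.Hhelper49.Srr.ClsP

/-!
# Module Calc: the calculus of the relation `Sim`

All statements follow from two-out-of-three (`ff_ext`, `ff_coker`, `ff_ker`, same for FP) and explicit
exact sequences.

`ff_prod`: `0 → A → A × B → B → 0`.  `ff_left`: `A × B`, `B` FF `⇒ A` FF.

`exists_compl`: for FP `M` there is an FP module `C` with `M × C` FF.  By induction on the length.
Length `0`: complement of a finitely generated projective module.  Length `n + 1`:
`0 → K → R^k → M → 0`; by induction there is `D` with `K × D` FF.  `M` is the cokernel of `K × D → R^k × D`, and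
`M × K` is the cokernel of `K × D → R^k × (D × K)`, `(x, d) ↦ (x, (d, 0))`, and `R^k × (D × K)` is FF; so `M × K` is
FF, `C = K` will do.

`Sim_ext`: `0 → A → B → C → 0` with `A`, `C` FP: `B ~ A × C`.  Choose `A × D`, `C × E` FF; then
`0 → A × D → B × (D × E) → C × E → 0` is exact, so `B × (D × E)` is FF, `(A × C) × (D × E)` is FF as well.

`Sim_trans`: `M × C`, `N × C`, `N × D`, `K × D` FF: take `C × (N × D)`.  `Sim_ff`: `M × C`, `N × C`, `N` FF `⇒ C` FF
`⇒ M` FF.  `Sim_pi`: `M ~ N ⇒ M^m ~ N^m`.  `Sim_prod`: product of similar modules.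
-/

namespace Pool.Agent.Hhelper49.Srr

variable {R : Type} [Ring R]

/-- products over finite types, for classes closed under isomorphisms and binary products -/
theorem pi_closed (P : ∀ (M : Type) [AddCommGroup M] [Module R M], Prop)
    (iso : ∀ {M N : Type} [AddCommGroup M] [Module R M] [AddCommGroup N] [Module R N],
      (M ≃ₗ[R] N) → P M → P N)
    (zero : P PUnit)
    (prod : ∀ {M N : Type} [AddCommGroup M] [Module R M] [AddCommGroup N] [Module R N],
      P M → P N → P (M × N)) {ι : Type} [Finite ι] :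
    ∀ (X : ι → Type) [∀ i, AddCommGroup (X i)] [∀ i, Module R (X i)], (∀ i, P (X i)) →
      P (∀ i, X i) := by
  refine Finite.induction_empty_option (P := fun ι => ∀ (X : ι → Type) [∀ i, AddCommGroup (X i)]
    [∀ i, Module R (X i)], (∀ i, P (X i)) → P (∀ i, X i)) ?_ ?_ ?_ ι
  · intro α β e h X _ _ hX
    exact iso (LinearEquiv.piCongrLeft R X e) (h (fun a => X (e a)) fun a => hX (e a))
  · intro X _ _ _
    refine iso ?_ zero
    exact { toFun := fun _ => 0
            map_add' := fun _ _ => (add_zero _).symm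
            map_smul' := fun _ _ => (smul_zero _).symm
            invFun := fun _ => PUnit.unit
            left_inv := fun _ => rfl
            right_inv := fun _ => Subsingleton.elim _ _ }
  · intro α _ h X _ _ hX
    exact iso (LinearEquiv.piOptionEquivProd R).symm
      (prod (hX none) (h (fun a => X (some a)) fun a => hX (some a)))

section
variable {M N K A B C : Type} [AddCommGroup M] [Module R M] [AddCommGroup N] [Module R N]
  [AddCommGroup K] [Module R K] [AddCommGroup A] [Module R A] [AddCommGroup B] [Module R B]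
  [AddCommGroup C] [Module R C]

theorem ff_prod (hA : FF R A) (hB : FF R B) : FF R (A × B) :=
  ff_ext (LinearMap.inl R A B) (LinearMap.snd R A B) LinearMap.inl_injective
    LinearMap.snd_surjective (LinearMap.range_inl R A B) hA hB

theorem fp_prod (hA : FP R A) (hB : FP R B) : FP R (A × B) :=
  fp_ext (LinearMap.inl R A B) (LinearMap.snd R A B) LinearMap.inl_injective
    LinearMap.snd_surjective (LinearMap.range_inl R A B) hA hB

theorem ff_left (hAB : FF R (A × B)) (hB : FF R B) : FF R A :=
  ff_coker (LinearMap.inr R A B) (LinearMap.fst R A B) LinearMap.inr_injective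
    LinearMap.fst_surjective (LinearMap.range_inr R A B) hB hAB

theorem ff_right (hAB : FF R (A × B)) (hA : FF R A) : FF R B :=
  ff_coker (LinearMap.inl R A B) (LinearMap.snd R A B) LinearMap.inl_injective
    LinearMap.snd_surjective (LinearMap.range_inl R A B) hA hAB

theorem ff_pow (k : ℕ) : FF R (Fin k → R) :=
  ⟨0, Module.Finite.pi, Module.Free.function _ _ _⟩

/-- finitely many FF modules have an FF product -/
theorem ff_pi {ι : Type} [Finite ι] (X : ι → Type) [∀ i, AddCommGroup (X i)]
    [∀ i, Module R (X i)] (h : ∀ i, FF R (X i)) : FF R (∀ i, X i) :=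
  pi_closed (R := R) (fun M _ _ => FF R M) (fun e h => ff_iso e h)
    ⟨0, Module.Finite.of_finite, Module.Free.of_subsingleton R PUnit⟩
    (fun h1 h2 => ff_prod h1 h2) X h

theorem fp_pi {ι : Type} [Finite ι] (X : ι → Type) [∀ i, AddCommGroup (X i)]
    [∀ i, Module R (X i)] (h : ∀ i, FP R (X i)) : FP R (∀ i, X i) :=
  pi_closed (R := R) (fun M _ _ => FP R M) (fun e h => fp_iso e h)
    (fp_of_ff ⟨0, Module.Finite.of_finite, Module.Free.of_subsingleton R PUnit⟩)
    (fun h1 h2 => fp_prod h1 h2) X h

theorem exists_compl_aux (n : ℕ) : ∀ (M : Type) [AddCommGroup M] [Module R M], FPl R n M →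
    ∃ (C : Type) (_ : AddCommGroup C) (_ : Module R C), FP R C ∧ FF R (M × C) := by
  induction n with
  | zero =>
    intro M _ _ h
    obtain ⟨h1, h2⟩ := h
    obtain ⟨k, f, hf⟩ := Module.Finite.exists_fin' R M
    obtain ⟨s, hs⟩ := Module.projective_lifting_property f LinearMap.id hf
    have hs' : ∀ m, f (s m) = m := fun m => by
      have := LinearMap.congr_fun hs m
      simpa using this
    let e : (Fin k → R) ≃ₗ[R] (M × LinearMap.ker f) :=
      { toFun := fun v => (f v, ⟨v - s (f v), by
          rw [LinearMap.mem_ker, map_sub, hs', sub_self]⟩)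
        map_add' := fun v w => by
          refine Prod.ext (by simp) (Subtype.ext ?_)
          simp only [map_add, Prod.snd_add, Submodule.coe_add]
          abel
        map_smul' := fun c v => by
          refine Prod.ext (by simp) (Subtype.ext ?_)
          simp only [map_smul, RingHom.id_apply, Prod.smul_snd, Submodule.coe_smul, smul_sub]
        invFun := fun p => s p.1 + p.2
        left_inv := fun v => by simp
        right_inv := fun p => by
          obtain ⟨m, k, hk⟩ := p
          have hk' : f k = 0 := hk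
          refine Prod.ext (by simp [hs', hk']) (Subtype.ext ?_)
          simp [hs', hk'] }
    refine ⟨LinearMap.ker f, inferInstance, inferInstance, ⟨0, ?_, ?_⟩, ff_iso e (ff_pow k)⟩
    · exact Module.Finite.of_surjective ((LinearMap.snd R M (LinearMap.ker f)).comp e.toLinearMap)
        (fun x => ⟨e.symm (0, x), by simp⟩)
    · refine Module.Projective.of_split (e.symm.toLinearMap.comp (LinearMap.inr R M (LinearMap.ker f)))
        ((LinearMap.snd R M (LinearMap.ker f)).comp e.toLinearMap) ?_
      apply LinearMap.ext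
      intro x
      simp
  | succ n ih =>
    intro M _ _ h
    obtain ⟨k, f, hf, hK⟩ := h
    obtain ⟨D, _, _, hD, hKD⟩ := ih _ hK
    refine ⟨LinearMap.ker f, inferInstance, inferInstance, ⟨n, hK⟩, ?_⟩
    let f1 : (LinearMap.ker f × D) →ₗ[R] ((Fin k → R) × (D × LinearMap.ker f)) :=
      ((LinearMap.ker f).subtype.comp (LinearMap.fst R _ _)).prod
        ((LinearMap.inl R D (LinearMap.ker f)).comp (LinearMap.snd R _ _))
    let g1 : ((Fin k → R) × (D × LinearMap.ker f)) →ₗ[R] (M × LinearMap.ker f) :=
      (f.comp (LinearMap.fst R _ _)).prod ((LinearMap.snd R _ _).comp (LinearMap.snd R _ _))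
    refine ff_coker f1 g1 ?_ ?_ ?_ hKD
      (ff_prod (ff_pow k) (ff_iso (LinearEquiv.prodComm R (LinearMap.ker f) D) hKD))
    · rintro ⟨x, d⟩ ⟨x', d'⟩ h
      simp only [f1, LinearMap.prod_apply, Function.prod_apply, LinearMap.comp_apply,
        LinearMap.fst_apply, LinearMap.snd_apply, Submodule.subtype_apply, LinearMap.inl_apply,
        Prod.mk.injEq, and_true] at h
      exact Prod.ext (Subtype.ext h.1) h.2
    · rintro ⟨m, x⟩
      obtain ⟨v, rfl⟩ := hf m
      exact ⟨(v, (0, x)), rfl⟩
    · ext ⟨v, d, x⟩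
      simp only [LinearMap.mem_range, LinearMap.mem_ker]
      constructor
      · rintro ⟨⟨y, d'⟩, h⟩
        rw [← h]
        refine Prod.ext ?_ rfl
        exact y.2
      · intro h
        have h1 : f v = 0 := congrArg Prod.fst h
        have h2 : x = 0 := congrArg Prod.snd h
        refine ⟨(⟨v, h1⟩, d), ?_⟩
        rw [h2]
        rfl

theorem exists_compl (hM : FP R M) :
    ∃ (C : Type) (_ : AddCommGroup C) (_ : Module R C), FP R C ∧ FF R (M × C) := by
  obtain ⟨n, hn⟩ := hM
  exact exists_compl_aux n M hn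

theorem Sim_refl (hM : FP R M) : Sim R M M := by
  obtain ⟨C, i1, i2, h1, h2⟩ := exists_compl hM
  exact ⟨C, i1, i2, h1, h2, h2⟩

theorem Sim_symm (h : Sim R M N) : Sim R N M := by
  obtain ⟨C, i1, i2, h1, h2, h3⟩ := h
  exact ⟨C, i1, i2, h1, h3, h2⟩

theorem Sim_trans (hN : FP R N) (h : Sim R M N) (h' : Sim R N K) : Sim R M K := by
  obtain ⟨C, i1, i2, h1, h2, h3⟩ := h
  obtain ⟨D, i3, i4, h4, h5, h6⟩ := h'
  refine ⟨C × (N × D), inferInstance, inferInstance, fp_prod h1 (fp_prod hN h4), ?_, ?_⟩
  · exact ff_iso (LinearEquiv.prodAssoc R M C (N × D)) (ff_prod h2 h5)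
  · let e : ((N × C) × (K × D)) ≃ₗ[R] (K × (C × (N × D))) :=
      { toFun := fun p => (p.2.1, (p.1.2, (p.1.1, p.2.2)))
        map_add' := fun _ _ => rfl
        map_smul' := fun _ _ => rfl
        invFun := fun p => ((p.2.2.1, p.2.1), (p.1, p.2.2.2))
        left_inv := fun _ => rfl
        right_inv := fun _ => rfl }
    exact ff_iso e (ff_prod h3 h6)

theorem Sim_iso (hM : FP R M) (e : M ≃ₗ[R] N) : Sim R M N := by
  obtain ⟨C, i1, i2, h1, h2⟩ := exists_compl hM
  exact ⟨C, i1, i2, h1, h2, ff_iso (LinearEquiv.prodCongr e (LinearEquiv.refl R C)) h2⟩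

theorem Sim_prod (h : Sim R M N) (h' : Sim R A B) : Sim R (M × A) (N × B) := by
  obtain ⟨C, i1, i2, h1, h2, h3⟩ := h
  obtain ⟨D, i3, i4, h4, h5, h6⟩ := h'
  exact ⟨C × D, inferInstance, inferInstance, fp_prod h1 h4,
    ff_iso (LinearEquiv.prodProdProdComm R M C A D) (ff_prod h2 h5),
    ff_iso (LinearEquiv.prodProdProdComm R N C B D) (ff_prod h3 h6)⟩

theorem Sim_ext (f : A →ₗ[R] B) (g : B →ₗ[R] C) (hf : Function.Injective f)
    (hg : Function.Surjective g) (hfg : LinearMap.range f = LinearMap.ker g)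
    (hA : FP R A) (hC : FP R C) : Sim R B (A × C) := by
  obtain ⟨D, _, _, hD, hAD⟩ := exists_compl hA
  obtain ⟨E, _, _, hE, hCE⟩ := exists_compl hC
  refine ⟨D × E, inferInstance, inferInstance, fp_prod hD hE, ?_,
    ff_iso (LinearEquiv.prodProdProdComm R A D C E) (ff_prod hAD hCE)⟩
  let f1 : (A × D) →ₗ[R] (B × (D × E)) :=
    (f.comp (LinearMap.fst R _ _)).prod ((LinearMap.inl R D E).comp (LinearMap.snd R _ _))
  let g1 : (B × (D × E)) →ₗ[R] (C × E) :=
    (g.comp (LinearMap.fst R _ _)).prod ((LinearMap.snd R _ _).comp (LinearMap.snd R _ _))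
  refine ff_ext f1 g1 ?_ ?_ ?_ hAD hCE
  · rintro ⟨x, d⟩ ⟨x', d'⟩ h
    have h1 : f x = f x' := congrArg Prod.fst h
    have h2 : d = d' := congrArg (fun p => p.2.1) h
    exact Prod.ext (hf h1) h2
  · rintro ⟨c, x⟩
    obtain ⟨v, rfl⟩ := hg c
    exact ⟨(v, (0, x)), rfl⟩
  · ext ⟨v, d, x⟩
    simp only [LinearMap.mem_range, LinearMap.mem_ker]
    constructor
    · rintro ⟨⟨y, d'⟩, h⟩
      rw [← h]
      refine Prod.ext ?_ rfl
      have : f y ∈ LinearMap.ker g := hfg ▸ LinearMap.mem_range_self f y
      exact this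
    · intro h
      have h1 : v ∈ LinearMap.ker g := congrArg Prod.fst h
      have h2 : x = 0 := congrArg Prod.snd h
      rw [← hfg] at h1
      obtain ⟨y, rfl⟩ := h1
      refine ⟨(y, d), ?_⟩
      rw [h2]
      rfl

/-- `(Fin m → M) × (Fin m → C) ≃ (Fin m → M × C)` -/
def piProdEquiv (R : Type) [Ring R] (m : ℕ) (M C : Type) [AddCommGroup M] [Module R M]
    [AddCommGroup C] [Module R C] : (Fin m → M × C) ≃ₗ[R] ((Fin m → M) × (Fin m → C)) where
  toFun p := (fun i => (p i).1, fun i => (p i).2)
  map_add' _ _ := rfl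
  map_smul' _ _ := rfl
  invFun p := fun i => (p.1 i, p.2 i)
  left_inv _ := rfl
  right_inv _ := rfl

/-- the relation respects the class of modules `M` with `M^m` of type FF -/
theorem Sim_ff (m : ℕ) (h : Sim R M N) (hN : FF R (Fin m → N)) : FF R (Fin m → M) := by
  obtain ⟨C, i1, i2, h1, h2, h3⟩ := h
  have h4 : FF R ((Fin m → M) × (Fin m → C)) :=
    ff_iso (piProdEquiv R m M C) (ff_pi (fun _ => M × C) fun _ => h2)
  have h5 : FF R ((Fin m → N) × (Fin m → C)) :=
    ff_iso (piProdEquiv R m N C) (ff_pi (fun _ => N × C) fun _ => h3)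
  exact ff_left h4 (ff_right h5 hN)

end

/-! two-out-of-three for the class of modules `M` with `M^m` FF -/

section
variable {A B C : Type} [AddCommGroup A] [Module R A] [AddCommGroup B] [Module R B]
  [AddCommGroup C] [Module R C]

theorem compLeft_inj (m : ℕ) (f : A →ₗ[R] B) (hf : Function.Injective f) :
    Function.Injective (f.compLeft (Fin m)) := by
  intro x y h
  funext i
  exact hf (congrFun h i)

theorem compLeft_surj (m : ℕ) (g : B →ₗ[R] C) (hg : Function.Surjective g) :
    Function.Surjective (g.compLeft (Fin m)) := by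
  intro y
  choose x hx using fun i => hg (y i)
  exact ⟨x, funext hx⟩

theorem compLeft_exact (m : ℕ) (f : A →ₗ[R] B) (g : B →ₗ[R] C)
    (hfg : LinearMap.range f = LinearMap.ker g) :
    LinearMap.range (f.compLeft (Fin m)) = LinearMap.ker (g.compLeft (Fin m)) := by
  ext v
  simp only [LinearMap.mem_range, LinearMap.mem_ker]
  constructor
  · rintro ⟨w, rfl⟩
    funext i
    have : f (w i) ∈ LinearMap.ker g := hfg ▸ LinearMap.mem_range_self f (w i)
    exact this
  · intro h
    have h1 : ∀ i, ∃ y, f y = v i := fun i => by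
      have h2 : v i ∈ LinearMap.ker g := congrFun h i
      rw [← hfg] at h2
      exact h2
    choose w hw using h1
    exact ⟨w, funext hw⟩

theorem ffm_ext (m : ℕ) (f : A →ₗ[R] B) (g : B →ₗ[R] C) (hf : Function.Injective f)
    (hg : Function.Surjective g) (hfg : LinearMap.range f = LinearMap.ker g)
    (hA : FF R (Fin m → A)) (hC : FF R (Fin m → C)) : FF R (Fin m → B) :=
  ff_ext _ _ (compLeft_inj m f hf) (compLeft_surj m g hg) (compLeft_exact m f g hfg) hA hC

theorem ffm_coker (m : ℕ) (f : A →ₗ[R] B) (g : B →ₗ[R] C) (hf : Function.Injective f)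
    (hg : Function.Surjective g) (hfg : LinearMap.range f = LinearMap.ker g)
    (hA : FF R (Fin m → A)) (hB : FF R (Fin m → B)) : FF R (Fin m → C) :=
  ff_coker _ _ (compLeft_inj m f hf) (compLeft_surj m g hg) (compLeft_exact m f g hfg) hA hB

theorem ffm_ker (m : ℕ) (f : A →ₗ[R] B) (g : B →ₗ[R] C) (hf : Function.Injective f)
    (hg : Function.Surjective g) (hfg : LinearMap.range f = LinearMap.ker g)
    (hB : FF R (Fin m → B)) (hC : FF R (Fin m → C)) : FF R (Fin m → A) :=
  ff_ker _ _ (compLeft_inj m f hf) (compLeft_surj m g hg) (compLeft_exact m f g hfg) hB hC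

end

end Pool.Agent.Hhelper49.Srr
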