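import Pool.Agent.Hhelper49.Srr.Defs

/-!
# Module Cls: two-out-of-three for FF

Proofs (the same for FF and FP; do FF here, FP is module ClsP).

`ffl_iso`: induction on `n`; for `n + 1` compose `f` with the isomorphism, the kernel is the same
(`LinearMap.ker_comp` of an injective map).

`ffl_succ` (padding): `FFl n M → FFl (n+1) M`.  `n = 0`: `M ≃ R^k`, the kernel of the isomorphism is the
zero module, finite and free.  `n + 1`: the kernel is padded by induction.

`ff_ext` (`0 → A → B → C → 0`, `A`, `C` FF `⇒ B` FF): by padding both have length `n`; induction on `n`.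
`n = 0`: `C` is projective, the sequence splits, `B ≃ A × C` is finite free.  `n + 1`: `R^a → A`,
`R^c → C` surjective with kernels `K_A`, `K_C` of length `n`; lift `R^c → C` to `R^c → B` (free
module); `R^(a+c) ≃ R^a × R^c → B` is surjective and its kernel `K` sits in
`0 → K_A → K → K_C → 0` exact.

`ff_coker` (`A`, `B` FF `⇒ C` FF): let `R^b → B` be surjective with kernel `K_B` FF (pad `B` to length
`n + 1`).  `R^b → B → C` is surjective, its kernel `K` sits in `0 → K_B → K → A → 0`, so `K` is FF by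
`ff_ext`, hence `C` is FF.

`ff_ker` (`B`, `C` FF `⇒ A` FF): let `R^c → C` be surjective with kernel `K_C` FF, `E` the pullback
`{(b, v) : B × R^c | g b = h v}`.  `0 → K_C → E → B → 0` is exact, so `E` is FF by `ff_ext`; and
`0 → A → E → R^c → 0` is exact and splits, `E ≃ A × R^c`.  Now `0 → R^c → A × R^c → A → 0` and `ff_coker` show
that `A` is FF.
-/

namespace Pool.Agent.Hhelper49.Srr

variable {R : Type} [Ring R]

theorem ffl_iso {M N : Type} [AddCommGroup M] [Module R M] [AddCommGroup N] [Module R N]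
    (e : M ≃ₗ[R] N) (n : ℕ) (h : FFl R n M) : FFl R n N := by
  cases n with
  | zero =>
    obtain ⟨h1, h2⟩ := h
    exact ⟨Module.Finite.equiv e, Module.Free.of_equiv e⟩
  | succ n =>
    obtain ⟨k, f, hf, hk⟩ := h
    refine ⟨k, e.toLinearMap ∘ₗ f, e.surjective.comp hf, ?_⟩
    have : LinearMap.ker (e.toLinearMap ∘ₗ f) = LinearMap.ker f := by
      ext x
      simp
    rw [this]
    exact hk

theorem ff_iso {M N : Type} [AddCommGroup M] [Module R M] [AddCommGroup N] [Module R N]
    (e : M ≃ₗ[R] N) (h : FF R M) : FF R N := by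
  obtain ⟨n, hn⟩ := h
  exact ⟨n, ffl_iso e n hn⟩

theorem ffl_succ {M : Type} [AddCommGroup M] [Module R M] (n : ℕ) (h : FFl R n M) :
    FFl R (n + 1) M := by
  induction n generalizing M with
  | zero =>
    obtain ⟨h1, h2⟩ := h
    set b := (Module.Free.chooseBasis R M).reindex (Fintype.equivFin _) with hb
    refine ⟨_, (b.equivFun.symm).toLinearMap, b.equivFun.symm.surjective, ?_⟩
    have : LinearMap.ker (b.equivFun.symm).toLinearMap = ⊥ := LinearEquiv.ker _
    rw [this]
    exact ⟨inferInstance, inferInstance⟩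
  | succ n ih =>
    obtain ⟨k, f, hf, hk⟩ := h
    exact ⟨k, f, hf, ih hk⟩

theorem ffl_mono {M : Type} [AddCommGroup M] [Module R M] {n m : ℕ} (hnm : n ≤ m)
    (h : FFl R n M) : FFl R m M := by
  induction m, hnm using Nat.le_induction with
  | base => exact h
  | succ m _ ih => exact ffl_succ m ih

/-- a surjection from a module isomorphic to some `R^k` -/
theorem ffl_of_surj {F M : Type} [AddCommGroup F] [Module R F] [AddCommGroup M] [Module R M]
    {k : ℕ} (e : (Fin k → R) ≃ₗ[R] F) (φ : F →ₗ[R] M) (hφ : Function.Surjective φ) (n : ℕ)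
    (h : FFl R n (LinearMap.ker φ)) : FFl R (n + 1) M := by
  refine ⟨k, φ ∘ₗ e.toLinearMap, hφ.comp e.surjective, ?_⟩
  have : LinearMap.ker (φ ∘ₗ e.toLinearMap) = (LinearMap.ker φ).comap e.toLinearMap := by
    ext x
    simp
  rw [this]
  exact ffl_iso (e.ofSubmodule' (LinearMap.ker φ)).symm n h

/-- splitting -/
theorem ff_exists_split {A B C : Type} [AddCommGroup A] [Module R A] [AddCommGroup B] [Module R B]
    [AddCommGroup C] [Module R C] (f : A →ₗ[R] B) (g : B →ₗ[R] C) (hf : Function.Injective f)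
    (hg : Function.Surjective g) (hfg : LinearMap.range f = LinearMap.ker g)
    (hC : Module.Projective R C) : Nonempty (B ≃ₗ[R] A × C) := by
  obtain ⟨s, hs⟩ := Module.projective_lifting_property g LinearMap.id hg
  have hex : Function.Exact f g := LinearMap.exact_iff.2 hfg.symm
  exact ⟨(hex.splitSurjectiveEquiv hf ⟨s, hs⟩).1⟩

theorem ffl_ext (n : ℕ) : ∀ {A B C : Type} [AddCommGroup A] [Module R A] [AddCommGroup B]
    [Module R B] [AddCommGroup C] [Module R C] (f : A →ₗ[R] B) (g : B →ₗ[R] C)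
    (_ : Function.Injective f) (_ : Function.Surjective g)
    (_ : LinearMap.range f = LinearMap.ker g) (_ : FFl R n A) (_ : FFl R n C), FFl R n B := by
  induction n with
  | zero =>
    intro A B C _ _ _ _ _ _ f g hf hg hfg hA hC
    obtain ⟨a1, a2⟩ := hA
    obtain ⟨c1, c2⟩ := hC
    obtain ⟨e⟩ := ff_exists_split f g hf hg hfg inferInstance
    exact ⟨Module.Finite.equiv e.symm, Module.Free.of_equiv e.symm⟩
  | succ n ih =>
    intro A B C _ _ _ _ _ _ f g hf hg hfg hA hC
    obtain ⟨a, fa, hfa, hka⟩ := hA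
    obtain ⟨c, fc, hfc, hkc⟩ := hC
    obtain ⟨s, hs⟩ := Module.projective_lifting_property g fc hg
    have hs' : ∀ v, g (s v) = fc v := fun v => LinearMap.congr_fun hs v
    have hgf : ∀ x, g (f x) = 0 := fun x => by
      have : f x ∈ LinearMap.ker g := hfg ▸ LinearMap.mem_range_self f x
      exact this
    set φ : ((Fin a → R) × (Fin c → R)) →ₗ[R] B := LinearMap.coprod (f ∘ₗ fa) s with hφ
    have hφa : ∀ u v, φ (u, v) = f (fa u) + s v := fun u v => by simp [hφ]
    have hsurj : Function.Surjective φ := by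
      intro b
      obtain ⟨v, hv⟩ := hfc (g b)
      have h1 : b - s v ∈ LinearMap.range f := by
        rw [hfg, LinearMap.mem_ker, map_sub, hs', hv, sub_self]
      obtain ⟨x, hx⟩ := h1
      obtain ⟨u, hu⟩ := hfa x
      refine ⟨(u, v), ?_⟩
      rw [hφa, hu, hx, sub_add_cancel]
    -- the kernel
    let i : LinearMap.ker fa →ₗ[R] LinearMap.ker φ :=
      LinearMap.codRestrict (LinearMap.ker φ)
        (LinearMap.inl R (Fin a → R) (Fin c → R) ∘ₗ (LinearMap.ker fa).subtype) (by
          rintro ⟨u, hu⟩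
          rw [LinearMap.mem_ker] at hu ⊢
          show φ (u, 0) = 0
          rw [hφa, hu, map_zero, map_zero, add_zero])
    let j : LinearMap.ker φ →ₗ[R] LinearMap.ker fc :=
      LinearMap.codRestrict (LinearMap.ker fc)
        (LinearMap.snd R (Fin a → R) (Fin c → R) ∘ₗ (LinearMap.ker φ).subtype) (by
          rintro ⟨⟨u, v⟩, huv⟩
          rw [LinearMap.mem_ker] at huv ⊢
          show fc v = 0
          have h1 := congrArg g huv
          rw [hφa, map_add, hgf, hs', zero_add, map_zero] at h1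
          exact h1)
    have hi : Function.Injective i := by
      rintro ⟨u, hu⟩ ⟨u', hu'⟩ h
      have h1 : ((u, (0 : Fin c → R)) : (Fin a → R) × (Fin c → R)) = (u', 0) :=
        congrArg Subtype.val h
      exact Subtype.ext (Prod.ext_iff.1 h1).1
    have hj : Function.Surjective j := by
      rintro ⟨v, hv⟩
      rw [LinearMap.mem_ker] at hv
      have h1 : s v ∈ LinearMap.range f := by
        rw [hfg, LinearMap.mem_ker, hs', hv]
      obtain ⟨x, hx⟩ := h1
      obtain ⟨u, hu⟩ := hfa (-x)
      refine ⟨⟨(u, v), ?_⟩, Subtype.ext rfl⟩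
      rw [LinearMap.mem_ker, hφa, hu, map_neg, hx, neg_add_cancel]
    have hij : LinearMap.range i = LinearMap.ker j := by
      apply le_antisymm
      · rintro _ ⟨⟨u, hu⟩, rfl⟩
        exact Subtype.ext rfl
      · rintro ⟨⟨u, v⟩, huv⟩ h
        have hv : v = 0 := congrArg Subtype.val (LinearMap.mem_ker.1 h)
        subst hv
        rw [LinearMap.mem_ker, hφa, map_zero, add_zero] at huv
        have hu : fa u = 0 := hf (by rw [huv, map_zero])
        exact ⟨⟨u, hu⟩, Subtype.ext rfl⟩
    have hK := ih i j hi hj hij hka hkc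
    let e : (Fin (a + c) → R) ≃ₗ[R] ((Fin a → R) × (Fin c → R)) :=
      (LinearEquiv.funCongrLeft R R finSumFinEquiv).trans
        (LinearEquiv.sumArrowLequivProdArrow (Fin a) (Fin c) R R)
    exact ffl_of_surj e φ hsurj n hK

theorem ff_ext {A B C : Type} [AddCommGroup A] [Module R A] [AddCommGroup B] [Module R B]
    [AddCommGroup C] [Module R C] (f : A →ₗ[R] B) (g : B →ₗ[R] C) (hf : Function.Injective f)
    (hg : Function.Surjective g) (hfg : LinearMap.range f = LinearMap.ker g)
    (hA : FF R A) (hC : FF R C) : FF R B := by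
  obtain ⟨n, hn⟩ := hA
  obtain ⟨m, hm⟩ := hC
  exact ⟨max n m, ffl_ext _ f g hf hg hfg (ffl_mono (le_max_left _ _) hn)
    (ffl_mono (le_max_right _ _) hm)⟩

theorem ff_coker {A B C : Type} [AddCommGroup A] [Module R A] [AddCommGroup B] [Module R B]
    [AddCommGroup C] [Module R C] (f : A →ₗ[R] B) (g : B →ₗ[R] C) (hf : Function.Injective f)
    (hg : Function.Surjective g) (hfg : LinearMap.range f = LinearMap.ker g)
    (hA : FF R A) (hB : FF R B) : FF R C := by
  obtain ⟨n, hn⟩ := hA
  obtain ⟨m, hm⟩ := hB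
  have hA' := ffl_mono (le_max_left n m) hn
  obtain ⟨b, fb, hfb, hkb⟩ := ffl_succ _ (ffl_mono (le_max_right n m) hm)
  refine ⟨max n m + 1, b, g ∘ₗ fb, hg.comp hfb, ?_⟩
  set φ := g ∘ₗ fb with hφ
  let i : LinearMap.ker fb →ₗ[R] LinearMap.ker φ :=
    Submodule.inclusion (by
      intro x hx
      rw [LinearMap.mem_ker] at hx ⊢
      rw [hφ, LinearMap.comp_apply, hx, map_zero])
  let j₀ : LinearMap.ker φ →ₗ[R] LinearMap.range f :=
    LinearMap.codRestrict (LinearMap.range f) (fb ∘ₗ (LinearMap.ker φ).subtype) (by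
      rintro ⟨x, hx⟩
      rw [hfg, LinearMap.mem_ker]
      exact hx)
  let j : LinearMap.ker φ →ₗ[R] A := (LinearEquiv.ofInjective f hf).symm.toLinearMap ∘ₗ j₀
  have hjf : ∀ x, f (j x) = fb x := by
    intro x
    have : (LinearEquiv.ofInjective f hf) (j x) = j₀ x :=
      LinearEquiv.apply_symm_apply _ _
    exact congrArg Subtype.val this
  have hi : Function.Injective i := Submodule.inclusion_injective _
  have hj : Function.Surjective j := by
    intro a
    obtain ⟨x, hx⟩ := hfb (f a)
    have hxk : x ∈ LinearMap.ker φ := by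
      rw [LinearMap.mem_ker, hφ, LinearMap.comp_apply, hx]
      have : f a ∈ LinearMap.ker g := hfg ▸ LinearMap.mem_range_self f a
      exact this
    refine ⟨⟨x, hxk⟩, hf ?_⟩
    rw [hjf]
    exact hx
  have hij : LinearMap.range i = LinearMap.ker j := by
    apply le_antisymm
    · rintro _ ⟨⟨u, hu⟩, rfl⟩
      rw [LinearMap.mem_ker]
      apply hf
      rw [hjf, map_zero]
      exact hu
    · rintro ⟨x, hx⟩ h
      rw [LinearMap.mem_ker] at h
      have h1 := hjf ⟨x, hx⟩
      rw [h, map_zero] at h1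
      exact ⟨⟨x, h1.symm⟩, rfl⟩
  exact ffl_ext _ i j hi hj hij hkb hA'

theorem ff_ker {A B C : Type} [AddCommGroup A] [Module R A] [AddCommGroup B] [Module R B]
    [AddCommGroup C] [Module R C] (f : A →ₗ[R] B) (g : B →ₗ[R] C) (hf : Function.Injective f)
    (hg : Function.Surjective g) (hfg : LinearMap.range f = LinearMap.ker g)
    (hB : FF R B) (hC : FF R C) : FF R A := by
  obtain ⟨m, hm⟩ := hC
  obtain ⟨c, fc, hfc, hkc⟩ := ffl_succ _ hm
  have hgf : ∀ x, g (f x) = 0 := fun x => by
    have : f x ∈ LinearMap.ker g := hfg ▸ LinearMap.mem_range_self f x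
    exact this
  set E : Submodule R (B × (Fin c → R)) :=
    LinearMap.ker (g ∘ₗ LinearMap.fst R B (Fin c → R) - fc ∘ₗ LinearMap.snd R B (Fin c → R)) with hE
  have hEm : ∀ b v, ((b, v) : B × (Fin c → R)) ∈ E ↔ g b = fc v := by
    intro b v
    rw [hE, LinearMap.mem_ker]
    simp [sub_eq_zero]
  -- `0 → K_C → E → B → 0`
  let i : LinearMap.ker fc →ₗ[R] E :=
    LinearMap.codRestrict E (LinearMap.inr R B (Fin c → R) ∘ₗ (LinearMap.ker fc).subtype) (by
      rintro ⟨v, hv⟩
      rw [LinearMap.mem_ker] at hv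
      show ((0, v) : B × (Fin c → R)) ∈ E
      rw [hEm, map_zero, hv])
  let j : E →ₗ[R] B := LinearMap.fst R B (Fin c → R) ∘ₗ E.subtype
  have hi : Function.Injective i := by
    rintro ⟨u, hu⟩ ⟨u', hu'⟩ h
    have h1 : (((0 : B), u) : B × (Fin c → R)) = (0, u') := congrArg Subtype.val h
    exact Subtype.ext (Prod.ext_iff.1 h1).2
  have hj : Function.Surjective j := by
    intro b
    obtain ⟨v, hv⟩ := hfc (g b)
    exact ⟨⟨(b, v), (hEm b v).2 hv.symm⟩, rfl⟩
  have hij : LinearMap.range i = LinearMap.ker j := by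
    apply le_antisymm
    · rintro _ ⟨⟨u, hu⟩, rfl⟩
      rfl
    · rintro ⟨⟨b, v⟩, hbv⟩ h
      have hb : b = 0 := LinearMap.mem_ker.1 h
      subst hb
      rw [hEm, map_zero] at hbv
      exact ⟨⟨v, hbv.symm⟩, rfl⟩
  have hFE : FF R E := ff_ext i j hi hj hij ⟨_, hkc⟩ hB
  -- `0 → A → E → R^c → 0`
  let i' : A →ₗ[R] E :=
    LinearMap.codRestrict E (LinearMap.inl R B (Fin c → R) ∘ₗ f) (by
      intro a
      show ((f a, 0) : B × (Fin c → R)) ∈ E
      rw [hEm, map_zero, hgf])
  let j' : E →ₗ[R] (Fin c → R) := LinearMap.snd R B (Fin c → R) ∘ₗ E.subtype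
  have hi' : Function.Injective i' := by
    intro a a' h
    have h1 : ((f a, 0) : B × (Fin c → R)) = (f a', 0) := congrArg Subtype.val h
    exact hf (Prod.ext_iff.1 h1).1
  have hj' : Function.Surjective j' := by
    intro v
    obtain ⟨b, hb⟩ := hg (fc v)
    exact ⟨⟨(b, v), (hEm b v).2 hb⟩, rfl⟩
  have hij' : LinearMap.range i' = LinearMap.ker j' := by
    apply le_antisymm
    · rintro _ ⟨a, rfl⟩
      rfl
    · rintro ⟨⟨b, v⟩, hbv⟩ h
      have hv : v = 0 := LinearMap.mem_ker.1 h
      subst hv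
      rw [hEm, map_zero] at hbv
      have hb : b ∈ LinearMap.range f := by
        rw [hfg]
        exact hbv
      obtain ⟨a, rfl⟩ := hb
      exact ⟨a, rfl⟩
  obtain ⟨e⟩ := ff_exists_split i' j' hi' hj' hij' inferInstance
  have hFA : FF R (A × (Fin c → R)) := ff_iso e hFE
  refine ff_coker (LinearMap.inr R A (Fin c → R)) (LinearMap.fst R A (Fin c → R))
    LinearMap.inr_injective LinearMap.fst_surjective ?_ ⟨0, inferInstance, inferInstance⟩ hFA
  exact LinearMap.range_inr R A (Fin c → R)

end Pool.Agent.Hhelper49.Srr
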