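import Pool.Agent.Hhelper49.Srr.GMod

/-!
# Module Dsq: commensurable lattices and coefficients of prime order

Let `V` be a lattice, `U ≤ V` a submodule of finite index and `T` a finite module killed by the prime
`q`.  Then `CHom G V T` and `CHom G U T` have the same class.

Induction on the index `[V : U]` (`Nat.card (V ⧸ U)`, all `V`, `U` with `V` a lattice).  If it is `1` then
`U = V` (`U ≃ V`).  Otherwise let `l` be a prime divisor of the index and `V' = U + l V`; then
`U ≤ V' < V` (`l (V/U) ≠ V/U` as the `l`-part of the finite group `V / U` is not trivial), `l V ≤ V'`, and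
`[V' : U] < [V : U]`, `V'` is a lattice.  So it is enough to treat `l V ≤ V' ≤ V`.

Case `l ≠ q`: restriction `CHom G V T → CHom G V' T` is an isomorphism: `l` is invertible on `T`;
injective: `l f(v) = f(l v) = 0`; surjective: `f̃(v) = l⁻¹ f(l v)`.

Case `l = q`: every additive map into `T` kills `q`-multiples.  Two exact sequences of finite modules:
`0 → CHom G (V ⧸ V') T → CHom G V T → K → 0`, where `K = {f : V' → T additive | f(q V) = 0}` (submodule of
`CHom G V' T`; the second map is restriction to `V'`, surjective as an additive map on a subgroup of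
the `𝔽_q`-vector space `V / q V` with values in an `𝔽_q`-vector space extends), and
`0 → K → CHom G V' T → CHom G (V ⧸ V') T → 0`, where the second map is `f ↦ (v mod V' ↦ f(q v))` (well
defined since `f(q V') = 0`; surjective: an additive map `V / V' → T` gives a map on
`q V / q V' ≃ V / V'` (`V` torsion free), which is a subgroup of the `𝔽_q`-vector space `V' / q V'`, and extends).
With `Sim_ext` both `CHom G V T` and `CHom G V' T` are similar to `CHom G (V ⧸ V') T × K`.
All modules which occur are finite, hence FP by `hfin`.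
-/

namespace Pool.Agent.Hhelper49.Srr

theorem dsq_extend_aux {W T : Type} [AddCommGroup W] [AddCommGroup T] (q : ℕ) [Fact q.Prime]
    [Module (ZMod q) W] [Module (ZMod q) T] (S : AddSubgroup W) (f : S →+ T) :
    ∃ F : W →+ T, ∀ (w : W) (hw : w ∈ S), F w = f ⟨w, hw⟩ := by
  let P : Submodule (ZMod q) W := AddSubgroup.toZModSubmodule q S
  let f₂ : P →+ T :=
    { toFun := fun w => f ⟨w.1, w.2⟩
      map_zero' := f.map_zero
      map_add' := fun a b => f.map_add ⟨a.1, a.2⟩ ⟨b.1, b.2⟩ }
  obtain ⟨F, hF⟩ := LinearMap.exists_extend (K := ZMod q) (p := P) (f₂.toZModLinearMap q)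
  refine ⟨F.toAddMonoidHom, fun w hw => ?_⟩
  exact congrArg (fun k => k (⟨w, hw⟩ : P)) hF

/-- extension of an additive map with values in a group killed by `q` -/
theorem dsq_extend {A B T : Type} [AddCommGroup A] [AddCommGroup B] [AddCommGroup T] (q : ℕ)
    (hq : q.Prime) (hT : ∀ t : T, q • t = 0) (i : B →+ A) (f : B →+ T)
    (hf : ∀ (b : B) (a : A), i b = q • a → f b = 0) : ∃ F : A →+ T, ∀ b, F (i b) = f b := by
  haveI : Fact q.Prime := ⟨hq⟩
  let Q : AddSubgroup A := (nsmulAddMonoidHom (α := A) q).range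
  letI : Module (ZMod q) (A ⧸ Q) := QuotientAddGroup.zmodModule (fun x => ⟨x, rfl⟩)
  letI : Module (ZMod q) T := AddCommGroup.zmodModule hT
  let g : B →+ A ⧸ Q := (QuotientAddGroup.mk' Q).comp i
  have hk : g.ker ≤ f.ker := by
    intro b hb
    rw [AddMonoidHom.mem_ker] at hb ⊢
    have h1 : (QuotientAddGroup.mk' Q) (i b) = 0 := hb
    rw [QuotientAddGroup.mk'_apply, QuotientAddGroup.eq_zero_iff] at h1
    obtain ⟨a, ha⟩ := h1
    exact hf b a ha.symm
  let f₁ : g.range →+ T := (QuotientAddGroup.lift g.ker f hk).comp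
    (QuotientAddGroup.quotientKerEquivRange g).symm.toAddMonoidHom
  have hf₁ : ∀ b : B, f₁ ⟨g b, ⟨b, rfl⟩⟩ = f b := by
    intro b
    have h1 : (QuotientAddGroup.quotientKerEquivRange g).symm ⟨g b, ⟨b, rfl⟩⟩ =
        (QuotientAddGroup.mk b : B ⧸ g.ker) := by
      rw [AddEquiv.symm_apply_eq]
      rfl
    change QuotientAddGroup.lift g.ker f hk
      ((QuotientAddGroup.quotientKerEquivRange g).symm ⟨g b, ⟨b, rfl⟩⟩) = f b
    rw [h1]
    rfl
  obtain ⟨F, hF⟩ := dsq_extend_aux q g.range f₁
  refine ⟨F.comp (QuotientAddGroup.mk' Q), fun b => ?_⟩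
  have h2 := hF (g b) ⟨b, rfl⟩
  rw [hf₁] at h2
  exact h2

/-- an additive map vanishing on the kernel of a surjective map descends -/
theorem dsq_descend {A B T : Type} [AddCommGroup A] [AddCommGroup B] [AddCommGroup T]
    (π : A →+ B) (hπ : Function.Surjective π) (f : A →+ T) (hf : ∀ a, π a = 0 → f a = 0) :
    ∃ F : B →+ T, ∀ a, F (π a) = f a := by
  refine ⟨π.liftOfSurjective hπ ⟨f, fun a ha => hf a ha⟩, fun a => ?_⟩
  exact AddMonoidHom.liftOfRightInverse_comp_apply π _ _ _ a

theorem dsq_finite_hom (N T : Type) [AddCommGroup N] [Module.Finite ℤ N] [AddCommGroup T]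
    [Finite T] : Finite (N →+ T) := by
  obtain ⟨S, hS⟩ := Module.Finite.fg_top (R := ℤ) (M := N)
  have : Function.Injective (fun (f : N →+ T) (s : S) => f s) := by
    intro f f' h
    have h1 : f.toIntLinearMap = f'.toIntLinearMap := by
      apply LinearMap.ext_on_range (v := fun s : S => (s : N)) ?_ ?_
      · rw [Subtype.range_coe_subtype]
        simpa using hS
      · intro s
        exact congrFun h s
    ext n
    exact congrArg (fun k => k n) h1
  exact Finite.of_injective _ this

variable {G : Type} [Group G]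

theorem dsq_finite_chom (N T : Type) [AddCommGroup N] [Module.Finite ℤ N] [AddCommGroup T]
    [Finite T] : Finite (CHom G N T) := dsq_finite_hom N T

section
variable {A B : Type} [AddCommGroup A] [AddCommGroup B] [Module (MonoidAlgebra ℤ G) A]
  [Module (MonoidAlgebra ℤ G) B] (T : Type) [AddCommGroup T] [Module (MonoidAlgebra ℤ G) T]

/-- precomposition with a linear map -/
noncomputable def dsqPre (e : A →ₗ[MonoidAlgebra ℤ G] B) :
    CHom G B T →ₗ[MonoidAlgebra ℤ G] CHom G A T :=
  mkLin
    { toFun := fun f => CHom.mk G (f.hom.comp e.toAddMonoidHom)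
      map_zero' := CHom.ext fun _ => rfl
      map_add' := fun _ _ => CHom.ext fun _ => rfl }
    (fun g f => CHom.ext fun n => by
      change (act g f).hom (e n) = (act g (CHom.mk G (f.hom.comp e.toAddMonoidHom))).hom n
      rw [CHom.act_apply, CHom.act_apply]
      change act g (f.hom (act g⁻¹ (e n))) = act g (f.hom (e (act g⁻¹ n)))
      rw [lin_act])

theorem dsqPre_apply (e : A →ₗ[MonoidAlgebra ℤ G] B) (f : CHom G B T) (a : A) :
    (dsqPre T e f).hom a = f.hom (e a) := rfl

end

theorem dsq_lattice (V : Type) [AddCommGroup V] [Module (MonoidAlgebra ℤ G) V]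
    [Module.Finite ℤ V] [Module.Free ℤ V] (V' : Submodule (MonoidAlgebra ℤ G) V) :
    Module.Finite ℤ V' ∧ Module.Free ℤ V' := by
  have h1 : Module.Finite ℤ V' := by
    let f : V' →+ V := V'.subtype.toAddMonoidHom
    exact Module.Finite.of_injective f.toIntLinearMap (fun a b h => Subtype.ext h)
  have h2 : Module.IsTorsionFree ℤ V' := by
    let f : V' →+ V := V'.subtype.toAddMonoidHom
    exact Function.Injective.moduleIsTorsionFree f (fun a b h => Subtype.ext h)
      (fun r m => map_zsmul f r m)
  exact ⟨h1, Module.free_of_finite_type_torsion_free'⟩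

section step

variable (hfin : ∀ (T : Type) [AddCommGroup T] [Module (MonoidAlgebra ℤ G) T] [Finite T],
      FP (MonoidAlgebra ℤ G) T)
    (V : Type) [AddCommGroup V] [Module (MonoidAlgebra ℤ G) V] [Module.Finite ℤ V]
    [Module.Free ℤ V] (V' : Submodule (MonoidAlgebra ℤ G) V)
    (T : Type) [AddCommGroup T] [Module (MonoidAlgebra ℤ G) T] [Finite T]
    (q : ℕ) (hq : q.Prime) (hT : ∀ t : T, q • t = 0)

include hfin hq hT in
/-- the step for a prime `l ≠ q` -/
theorem dsq_step_ne (l : ℕ) (hl : l.Prime) (hlq : l ≠ q) (hV' : ∀ v : V, l • v ∈ V') :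
    Sim (MonoidAlgebra ℤ G) (CHom G V T) (CHom G V' T) := by
  have hF : Finite (CHom G V T) := dsq_finite_chom V T
  have hco : Nat.Coprime l q := (Nat.coprime_primes hl hq).2 hlq
  obtain ⟨a, b, hab⟩ : ∃ a b : ℤ, a * l + b * q = 1 := by
    have := Int.isCoprime_iff_gcd_eq_one.2 (by simpa using hco : Int.gcd (l : ℤ) (q : ℤ) = 1)
    obtain ⟨a, b, h⟩ := this
    exact ⟨a, b, h⟩
  have ht : ∀ t : T, a • (l • t) = t := by
    intro t
    have h1 : (a * l + b * q) • t = t := by rw [hab, one_smul]
    rw [add_smul, mul_smul, mul_smul] at h1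
    have h2 : ((q : ℤ)) • t = 0 := by
      rw [natCast_zsmul]; exact hT t
    rw [h2, smul_zero, add_zero, natCast_zsmul] at h1
    exact h1
  refine Sim_iso (hfin _) (LinearEquiv.ofBijective (dsqPre T V'.subtype) ⟨?_, ?_⟩)
  · intro f f' h
    apply CHom.ext
    intro v
    have h1 : f.hom (l • v) = f'.hom (l • v) := by
      have := congrArg (fun k => CHom.hom k ⟨l • v, hV' v⟩) h
      exact this
    rw [map_nsmul, map_nsmul] at h1
    rw [← ht (f.hom v), h1, ht]
  · intro f
    let F : V →+ T :=
      { toFun := fun v => a • f.hom ⟨l • v, hV' v⟩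
        map_zero' := by
          have : (⟨l • (0 : V), hV' 0⟩ : V') = 0 := Subtype.ext (smul_zero _)
          rw [this, map_zero, smul_zero]
        map_add' := fun v w => by
          have : (⟨l • (v + w), hV' (v + w)⟩ : V') = ⟨l • v, hV' v⟩ + ⟨l • w, hV' w⟩ :=
            Subtype.ext (smul_add _ _ _)
          rw [this, map_add, smul_add] }
    refine ⟨CHom.mk G F, CHom.ext fun v => ?_⟩
    change a • f.hom ⟨l • (v : V), hV' v⟩ = f.hom v
    have : (⟨l • (v : V), hV' v⟩ : V') = l • v := rfl
    rw [this, map_nsmul, ht]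

variable {V T q} in
theorem dsqD_exists (hV' : ∀ v : V, q • v ∈ V') (hT : ∀ t : T, q • t = 0) (f : CHom G V' T) :
    ∃ F : CHom G (V ⧸ V') T, ∀ v : V, F.hom (V'.mkQ v) = f.hom ⟨q • v, hV' v⟩ :=
  dsq_descend V'.mkQ.toAddMonoidHom V'.mkQ_surjective
    ({ toFun := fun v => f.hom ⟨q • v, hV' v⟩
       map_zero' := by
         have : (⟨q • (0 : V), hV' 0⟩ : V') = 0 := Subtype.ext (smul_zero _)
         rw [this, map_zero]
       map_add' := fun v w => by
         have : (⟨q • (v + w), hV' (v + w)⟩ : V') = ⟨q • v, hV' v⟩ + ⟨q • w, hV' w⟩ :=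
           Subtype.ext (smul_add _ _ _)
         rw [this, map_add] } : V →+ T)
    (fun v hv => by
      have h1 : v ∈ V' := by
        have : V'.mkQ v = 0 := hv
        rwa [Submodule.mkQ_apply, Submodule.Quotient.mk_eq_zero] at this
      change f.hom ⟨q • v, hV' v⟩ = 0
      have : (⟨q • v, hV' v⟩ : V') = q • (⟨v, h1⟩ : V') := rfl
      rw [this, map_nsmul, hT])

variable {V T q} in
/-- the second map of the second sequence -/
noncomputable def dsqD (hV' : ∀ v : V, q • v ∈ V') (hT : ∀ t : T, q • t = 0) :
    CHom G V' T →ₗ[MonoidAlgebra ℤ G] CHom G (V ⧸ V') T :=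
  mkLin
    { toFun := fun f => Classical.choose (dsqD_exists V' hV' hT f)
      map_zero' := CHom.ext fun x => by
        obtain ⟨v, rfl⟩ := V'.mkQ_surjective x
        rw [Classical.choose_spec (dsqD_exists V' hV' hT 0) v]
        rfl
      map_add' := fun f f' => CHom.ext fun x => by
        obtain ⟨v, rfl⟩ := V'.mkQ_surjective x
        rw [Classical.choose_spec (dsqD_exists V' hV' hT (f + f')) v, CHom.hom_add, CHom.hom_add,
          AddMonoidHom.add_apply, AddMonoidHom.add_apply,
          Classical.choose_spec (dsqD_exists V' hV' hT f) v,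
          Classical.choose_spec (dsqD_exists V' hV' hT f') v] }
    (fun g f => CHom.ext fun x => by
      obtain ⟨v, rfl⟩ := V'.mkQ_surjective x
      change (Classical.choose (dsqD_exists V' hV' hT (act g f))).hom (V'.mkQ v) =
        (act g (Classical.choose (dsqD_exists V' hV' hT f))).hom (V'.mkQ v)
      rw [Classical.choose_spec (dsqD_exists V' hV' hT (act g f)) v, CHom.act_apply,
        CHom.act_apply, ← lin_act, Classical.choose_spec (dsqD_exists V' hV' hT f) (act g⁻¹ v)]
      congr 2
      apply Subtype.ext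
      change act g⁻¹ (q • v) = q • act g⁻¹ v
      exact (map_nsmul (Module.toAddMonoidEnd (MonoidAlgebra ℤ G) V (MonoidAlgebra.of ℤ G g⁻¹)) q v))

variable {V T q} in
theorem dsqD_apply (hV' : ∀ v : V, q • v ∈ V') (hT : ∀ t : T, q • t = 0) (f : CHom G V' T)
    (v : V) : (dsqD V' hV' hT f).hom (V'.mkQ v) = f.hom ⟨q • v, hV' v⟩ :=
  Classical.choose_spec (dsqD_exists V' hV' hT f) v

include hfin hq hT in
/-- the step for the prime `q` -/
theorem dsq_step_eq (hV' : ∀ v : V, q • v ∈ V') :
    Sim (MonoidAlgebra ℤ G) (CHom G V T) (CHom G V' T) := by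
  have hlat := dsq_lattice V V'
  have _ := hlat.1
  have _ := hlat.2
  have hF₁ : Finite (CHom G V T) := dsq_finite_chom V T
  have hF₂ : Finite (CHom G V' T) := dsq_finite_chom V' T
  have hFQ : Module.Finite ℤ (V ⧸ V') :=
    Module.Finite.of_surjective V'.mkQ.toAddMonoidHom.toIntLinearMap V'.mkQ_surjective
  have hF₃ : Finite (CHom G (V ⧸ V') T) := dsq_finite_chom (V ⧸ V') T
  set K : Submodule (MonoidAlgebra ℤ G) (CHom G V' T) := LinearMap.ker (dsqD V' hV' hT) with hK
  have hF₄ : Finite K := inferInstance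
  have hKmem : ∀ f : CHom G V' T, f ∈ K ↔ ∀ v : V, f.hom ⟨q • v, hV' v⟩ = 0 := by
    intro f
    rw [hK, LinearMap.mem_ker]
    constructor
    · intro h v
      rw [← dsqD_apply V' hV' hT f v, h]
      rfl
    · intro h
      apply CHom.ext
      intro x
      obtain ⟨v, rfl⟩ := V'.mkQ_surjective x
      rw [dsqD_apply, h v]
      rfl
  -- second sequence
  have s2 : Sim (MonoidAlgebra ℤ G) (CHom G V' T) (K × CHom G (V ⧸ V') T) := by
    refine Sim_ext K.subtype (dsqD V' hV' hT) K.injective_subtype ?_ ?_ (hfin _) (hfin _)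
    · intro φ
      let m : V →+ V' :=
        { toFun := fun v => ⟨q • v, hV' v⟩
          map_zero' := Subtype.ext (smul_zero _)
          map_add' := fun v w => Subtype.ext (smul_add _ _ _) }
      let f₀ : V →+ T := φ.hom.comp V'.mkQ.toAddMonoidHom
      obtain ⟨F, hF⟩ := dsq_extend q hq hT m f₀ (by
        intro v a hva
        have h1 : q • v = q • (a : V) := congrArg Subtype.val hva
        have h2 : v = a := by
          have : Module.IsTorsionFree ℤ V := inferInstance
          have h3 : (q : ℤ) • v = (q : ℤ) • (a : V) := by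
            rw [natCast_zsmul, natCast_zsmul]; exact h1
          exact smul_right_injective V (by exact_mod_cast hq.ne_zero) h3
        change φ.hom (V'.mkQ v) = 0
        have h4 : V'.mkQ v = 0 := by
          rw [Submodule.mkQ_apply, Submodule.Quotient.mk_eq_zero, h2]
          exact a.2
        rw [h4, map_zero])
      refine ⟨CHom.mk G F, CHom.ext fun x => ?_⟩
      obtain ⟨v, rfl⟩ := V'.mkQ_surjective x
      rw [dsqD_apply]
      exact hF v
    · rw [Submodule.range_subtype]
  -- first sequence
  have s1 : Sim (MonoidAlgebra ℤ G) (CHom G V T) (CHom G (V ⧸ V') T × K) := by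
    refine Sim_ext (dsqPre T V'.mkQ) (LinearMap.codRestrict K (dsqPre T V'.subtype) ?_)
      ?_ ?_ ?_ (hfin _) (hfin _)
    · intro f
      rw [hKmem]
      intro v
      change f.hom (q • v) = 0
      rw [map_nsmul, hT]
    · intro f f' h
      apply CHom.ext
      intro x
      obtain ⟨v, rfl⟩ := V'.mkQ_surjective x
      exact congrArg (fun k => CHom.hom k v) h
    · rintro ⟨f, hf⟩
      rw [hKmem] at hf
      obtain ⟨F, hF⟩ := dsq_extend q hq hT V'.subtype.toAddMonoidHom f.hom (by
        intro b a hba
        have h1 : b = ⟨q • a, hV' a⟩ := Subtype.ext hba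
        rw [h1]
        exact hf a)
      refine ⟨CHom.mk G F, Subtype.ext (CHom.ext fun v => ?_)⟩
      exact hF v
    · ext f
      rw [LinearMap.mem_range, LinearMap.mem_ker]
      constructor
      · rintro ⟨φ, rfl⟩
        apply Subtype.ext
        apply CHom.ext
        intro v
        change φ.hom (V'.mkQ v) = 0
        have h4 : V'.mkQ (v : V) = 0 := by
          rw [Submodule.mkQ_apply, Submodule.Quotient.mk_eq_zero]
          exact v.2
        rw [h4, map_zero]
      · intro h
        obtain ⟨F, hF⟩ := dsq_descend V'.mkQ.toAddMonoidHom V'.mkQ_surjective f.hom (by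
          intro v hv
          have h1 : v ∈ V' := by
            have : V'.mkQ v = 0 := hv
            rwa [Submodule.mkQ_apply, Submodule.Quotient.mk_eq_zero] at this
          have h2 := congrArg (fun k : K => CHom.hom k.1 ⟨v, h1⟩) h
          exact h2)
        exact ⟨CHom.mk G F, CHom.ext fun v => hF v⟩
  have s3 : Sim (MonoidAlgebra ℤ G) (CHom G (V ⧸ V') T × K) (K × CHom G (V ⧸ V') T) :=
    Sim_iso (hfin _) (LinearEquiv.prodComm _ _ _)
  exact Sim_trans (hfin _) s1 (Sim_trans (hfin _) s3 (Sim_symm s2))

end step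

theorem dsq_aux
    (hfin : ∀ (T : Type) [AddCommGroup T] [Module (MonoidAlgebra ℤ G) T] [Finite T],
      FP (MonoidAlgebra ℤ G) T)
    (T : Type) [AddCommGroup T] [Module (MonoidAlgebra ℤ G) T] [Finite T]
    (q : ℕ) (hq : q.Prime) (hT : ∀ t : T, q • t = 0) (n : ℕ) :
    ∀ (V : Type) [AddCommGroup V] [Module (MonoidAlgebra ℤ G) V] [Module.Finite ℤ V]
    [Module.Free ℤ V] (U : Submodule (MonoidAlgebra ℤ G) V) (_ : Finite (V ⧸ U)),
    Nat.card (V ⧸ U) = n → Sim (MonoidAlgebra ℤ G) (CHom G V T) (CHom G U T) := by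
  induction n using Nat.strong_induction_on with
  | _ n ih =>
  intro V _ _ _ _ U hU hn
  have hF₁ : Finite (CHom G V T) := dsq_finite_chom V T
  by_cases h1 : n = 1
  · -- U = ⊤
    have hsub : Subsingleton (V ⧸ U) := by
      rw [h1] at hn
      exact (Nat.card_eq_one_iff_unique.1 hn).1
    have htop : U = ⊤ := by
      rw [eq_top_iff]
      intro v _
      have : U.mkQ v = 0 := Subsingleton.elim _ _
      rwa [Submodule.mkQ_apply, Submodule.Quotient.mk_eq_zero] at this
    refine Sim_iso (hfin _) (LinearEquiv.ofBijective (dsqPre T U.subtype) ⟨?_, ?_⟩)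
    · intro f f' h
      apply CHom.ext
      intro v
      exact congrArg (fun k => CHom.hom k ⟨v, by rw [htop]; trivial⟩) h
    · intro f
      let F : V →+ T :=
        { toFun := fun v => f.hom ⟨v, by rw [htop]; trivial⟩
          map_zero' := f.hom.map_zero
          map_add' := fun a b => f.hom.map_add ⟨a, by rw [htop]; trivial⟩ ⟨b, by rw [htop]; trivial⟩ }
      exact ⟨CHom.mk G F, CHom.ext fun v => rfl⟩
  · have hn0 : n ≠ 0 := by
      rw [← hn]
      exact Nat.card_pos.ne'
    obtain ⟨l, hl, hln⟩ := Nat.exists_prime_and_dvd h1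
    set V' : Submodule (MonoidAlgebra ℤ G) V :=
      U ⊔ LinearMap.range (l • (LinearMap.id : V →ₗ[MonoidAlgebra ℤ G] V)) with hV'
    have hUV' : U ≤ V' := le_sup_left
    have hlV : ∀ v : V, l • v ∈ V' := fun v => Submodule.mem_sup_right ⟨v, rfl⟩
    have hlat := dsq_lattice V V'
    have _ := hlat.1
    have _ := hlat.2
    -- V' is proper
    have hne : V' ≠ ⊤ := by
      intro htop
      have _ : Fact l.Prime := ⟨hl⟩
      obtain ⟨x, hx⟩ := exists_prime_addOrderOf_dvd_card' (G := V ⧸ U) l (by rw [hn]; exact hln)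
      have hsurj : Function.Surjective (fun y : V ⧸ U => l • y) := by
        intro y
        obtain ⟨v, rfl⟩ := U.mkQ_surjective y
        have hv : v ∈ V' := by rw [htop]; trivial
        rw [hV'] at hv
        obtain ⟨u, hu, w, ⟨z, hz⟩, huw⟩ := Submodule.mem_sup.1 hv
        refine ⟨U.mkQ z, ?_⟩
        have hz' : w = l • z := hz.symm
        rw [← huw, map_add, hz']
        have : U.mkQ u = 0 := by
          rw [Submodule.mkQ_apply, Submodule.Quotient.mk_eq_zero]; exact hu
        rw [this, zero_add, map_nsmul]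
      have hinj := Finite.injective_iff_surjective.2 hsurj
      have hx0 : l • x = 0 := by rw [← hx]; exact addOrderOf_nsmul_eq_zero x
      have : x = 0 := hinj (by simpa using hx0)
      rw [this, addOrderOf_zero] at hx
      exact hl.one_lt.ne hx
    -- the step
    have s1 : Sim (MonoidAlgebra ℤ G) (CHom G V T) (CHom G V' T) := by
      by_cases hlq : l = q
      · subst hlq
        exact dsq_step_eq hfin V V' T l hq hT hlV
      · exact dsq_step_ne hfin V V' T q hq hT l hl hlq hlV
    -- induction
    set U' : Submodule (MonoidAlgebra ℤ G) V' := U.submoduleOf V' with hU'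
    have hinj : Function.Injective (Submodule.mapQ U' U V'.subtype le_rfl) := by
      rw [← LinearMap.ker_eq_bot, LinearMap.ker_eq_bot']
      intro x hx
      obtain ⟨v, rfl⟩ := U'.mkQ_surjective x
      rw [Submodule.mkQ_apply, Submodule.mapQ_apply, Submodule.Quotient.mk_eq_zero] at hx
      rw [Submodule.mkQ_apply, Submodule.Quotient.mk_eq_zero]
      exact hx
    have hfinU' : Finite (V' ⧸ U') := Finite.of_injective _ hinj
    have hns : ¬ Function.Surjective (Submodule.mapQ U' U V'.subtype le_rfl) := by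
      intro hs
      apply hne
      rw [eq_top_iff]
      intro v _
      obtain ⟨x, hx⟩ := hs (U.mkQ v)
      obtain ⟨w, rfl⟩ := U'.mkQ_surjective x
      rw [Submodule.mkQ_apply, Submodule.mapQ_apply, Submodule.mkQ_apply,
        Submodule.Quotient.eq] at hx
      have h2 : v = (w : V) - ((w : V) - v) := by abel
      rw [h2]
      exact V'.sub_mem w.2 (hUV' hx)
    have hlt : Nat.card (V' ⧸ U') < n := by
      rw [← hn]
      have := Fintype.ofFinite (V' ⧸ U')
      have := Fintype.ofFinite (V ⧸ U)
      rw [Nat.card_eq_fintype_card, Nat.card_eq_fintype_card]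
      exact Fintype.card_lt_of_injective_not_surjective _ hinj hns
    have s2 := ih _ hlt V' U' hfinU' rfl
    have hF₂ : Finite (CHom G V' T) := dsq_finite_chom V' T
    have hlatU := dsq_lattice V' U'
    have _ := hlatU.1
    have hF₃ : Finite (CHom G U' T) := dsq_finite_chom U' T
    have s3 : Sim (MonoidAlgebra ℤ G) (CHom G U' T) (CHom G U T) := by
      refine Sim_iso (hfin _) (LinearEquiv.ofBijective
        (dsqPre T (Submodule.submoduleOfEquivOfLe hUV').symm.toLinearMap) ⟨?_, ?_⟩)
      · intro f f' h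
        apply CHom.ext
        intro v
        have := congrArg (fun k => CHom.hom k (Submodule.submoduleOfEquivOfLe hUV' v)) h
        simp only [dsqPre_apply] at this
        simpa using this
      · intro f
        refine ⟨CHom.mk G (f.hom.comp (Submodule.submoduleOfEquivOfLe hUV').toLinearMap.toAddMonoidHom),
          CHom.ext fun v => ?_⟩
        rw [dsqPre_apply]
        change f.hom (Submodule.submoduleOfEquivOfLe hUV'
          ((Submodule.submoduleOfEquivOfLe hUV').symm v)) = f.hom v
        rw [LinearEquiv.apply_symm_apply]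
    exact Sim_trans (hfin _) s1 (Sim_trans (hfin _) s2 s3)

theorem dsq
    (hfin : ∀ (T : Type) [AddCommGroup T] [Module (MonoidAlgebra ℤ G) T] [Finite T],
      FP (MonoidAlgebra ℤ G) T)
    (V : Type) [AddCommGroup V] [Module (MonoidAlgebra ℤ G) V] [Module.Finite ℤ V]
    [Module.Free ℤ V] (U : Submodule (MonoidAlgebra ℤ G) V) (hU : Finite (V ⧸ U))
    (T : Type) [AddCommGroup T] [Module (MonoidAlgebra ℤ G) T] [Finite T]
    (q : ℕ) (hq : q.Prime) (hT : ∀ t : T, q • t = 0) :
    Sim (MonoidAlgebra ℤ G) (CHom G V T) (CHom G U T) :=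
  dsq_aux hfin T q hq hT _ V U hU rfl

end Pool.Agent.Hhelper49.Srr
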