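import Pool.Agent.Hhelper49.Srr.GMod

/-!
# Module FinMod: finite modules

A finite `ℤ[G]`-module `T` is the quotient of the lattice `L = PMap G T (Triv G)` (`T` as a `G`-set with
`g • t = act g t`, functions `T → ℤ` with `(g f)(t) = f(g⁻¹ t)`) by the map `f ↦ ∑_t f(t) • t`, which is
surjective and equivariant.  The kernel is a sublattice (a submodule of a finitely generated free
abelian group).  So `T` is the cokernel of a map of lattices and `fp_coker`, `ffm_coker` apply.
-/

set_option linter.unusedSectionVars false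
set_option linter.style.haveILetI false

namespace Pool.Agent.Hhelper49.Srr

variable {G : Type} [Group G]

/-- a module over `ℤ[G]` as a `G`-set -/
@[reducible] noncomputable def finModAct (T : Type) [AddCommGroup T] [Module (MonoidAlgebra ℤ G) T] :
    MulAction G T where
  smul g t := act g t
  one_smul t := act_one t
  mul_smul g h t := act_mul g h t

/-- the value of a function to the trivial module as an integer -/
def finModVal {X : Type} (f : PMap G X (Triv G)) (x : X) : ℤ := f.fn x

theorem finModVal_add {X : Type} (f f' : PMap G X (Triv G)) (x : X) :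
    finModVal (f + f') x = finModVal f x + finModVal f' x := rfl

theorem finModVal_zero {X : Type} (x : X) : finModVal (0 : PMap G X (Triv G)) x = 0 := rfl

/-- the map `f ↦ ∑ f(t) t` -/
noncomputable def finModPi (T : Type) [AddCommGroup T] [Fintype T] : PMap G T (Triv G) →+ T where
  toFun f := ∑ t, finModVal f t • t
  map_zero' := by simp [finModVal_zero]
  map_add' := by
    intro f f'
    simp only [finModVal_add, add_smul, Finset.sum_add_distrib]

theorem finModPi_act (T : Type) [AddCommGroup T] [Module (MonoidAlgebra ℤ G) T] [Fintype T]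
    (g : G) (f : PMap G T (Triv G)) :
    letI := finModAct (G := G) T
    finModPi T (act g f) = act g (finModPi T f) := by
  letI := finModAct (G := G) T
  have h1 : ∀ t, finModVal (act g f) t = finModVal f (g⁻¹ • t) := by
    intro t
    have h := PMap.act_apply g f t
    have h2 := act_triv G g (f.fn (g⁻¹ • t))
    rw [h2] at h
    exact h
  change ∑ t, finModVal (act g f) t • t = MonoidAlgebra.of ℤ G g • (∑ t, finModVal f t • t)
  rw [Finset.smul_sum]
  simp only [h1]
  refine Fintype.sum_equiv (MulAction.toPerm (g⁻¹ : G)) _ _ fun t => ?_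
  rw [MulAction.toPerm_apply]
  have h3 : act g (g⁻¹ • t) = t := act_act_inv g t
  have h4 : MonoidAlgebra.of ℤ G g • (finModVal f (g⁻¹ • t) • (g⁻¹ • t)) =
      finModVal f (g⁻¹ • t) • (MonoidAlgebra.of ℤ G g • (g⁻¹ • t)) := smul_comm _ _ _
  rw [h4]
  exact congrArg _ h3.symm

theorem finModPi_surj (T : Type) [AddCommGroup T] [Fintype T] :
    Function.Surjective (finModPi (G := G) T) := by
  classical
  intro t
  refine ⟨PMap.mk G (fun s => if s = t then (1 : ℤ) else 0), ?_⟩
  change ∑ s, (if s = t then (1 : ℤ) else 0) • s = t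
  simp

theorem finMod_lattice (T : Type) [AddCommGroup T] [Module (MonoidAlgebra ℤ G) T] [Finite T] :
    ∃ (K L : Type) (_ : AddCommGroup K) (_ : AddCommGroup L) (_ : Module (MonoidAlgebra ℤ G) K)
      (_ : Module (MonoidAlgebra ℤ G) L) (f : K →ₗ[MonoidAlgebra ℤ G] L)
      (g : L →ₗ[MonoidAlgebra ℤ G] T),
      Module.Finite ℤ K ∧ Module.Free ℤ K ∧ Module.Finite ℤ L ∧ Module.Free ℤ L ∧
      Function.Injective f ∧ Function.Surjective g ∧ LinearMap.range f = LinearMap.ker g := by
  haveI := Fintype.ofFinite T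
  letI := finModAct (G := G) T
  obtain ⟨π, hπ⟩ : ∃ π : PMap G T (Triv G) →ₗ[MonoidAlgebra ℤ G] T,
      π = mkLin (finModPi T) (finModPi_act T) := ⟨_, rfl⟩
  have hfin : Module.Finite ℤ (PMap G T (Triv G)) := inferInstanceAs (Module.Finite ℤ (T → ℤ))
  have hfree : Module.Free ℤ (PMap G T (Triv G)) := inferInstanceAs (Module.Free ℤ (T → ℤ))
  have hinj : Function.Injective ((LinearMap.ker π).subtype.toAddMonoidHom.toIntLinearMap) :=
    Subtype.val_injective
  have hkfin : Module.Finite ℤ (LinearMap.ker π) :=
    Module.Finite.of_injective _ hinj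
  have hkfree : Module.Free ℤ (LinearMap.ker π) :=
    Module.Free.of_equiv (LinearEquiv.ofInjective _ hinj).symm
  refine ⟨LinearMap.ker π, PMap G T (Triv G), inferInstance, inferInstance, inferInstance,
    inferInstance, (LinearMap.ker π).subtype, π, hkfin, hkfree, hfin, hfree,
    Subtype.val_injective, ?_, Submodule.range_subtype _⟩
  rw [hπ]
  exact finModPi_surj T

theorem finite_fp
    (hL : ∀ (L : Type) [AddCommGroup L] [Module (MonoidAlgebra ℤ G) L] [Module.Finite ℤ L]
      [Module.Free ℤ L], FP (MonoidAlgebra ℤ G) L)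
    (T : Type) [AddCommGroup T] [Module (MonoidAlgebra ℤ G) T] [Finite T] :
    FP (MonoidAlgebra ℤ G) T := by
  obtain ⟨K, L, i1, i2, i3, i4, f, g, h1, h2, h3, h4, hf, hg, hfg⟩ := finMod_lattice (G := G) T
  exact fp_coker f g hf hg hfg (hL K) (hL L)

theorem finite_ff (m : ℕ)
    (hL : ∀ (L : Type) [AddCommGroup L] [Module (MonoidAlgebra ℤ G) L] [Module.Finite ℤ L]
      [Module.Free ℤ L], FF (MonoidAlgebra ℤ G) (Fin m → L))
    (T : Type) [AddCommGroup T] [Module (MonoidAlgebra ℤ G) T] [Finite T] :
    FF (MonoidAlgebra ℤ G) (Fin m → T) := by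
  obtain ⟨K, L, i1, i2, i3, i4, f, g, h1, h2, h3, h4, hf, hg, hfg⟩ := finMod_lattice (G := G) T
  exact ffm_coker m f g hf hg hfg (hL K) (hL L)

end Pool.Agent.Hhelper49.Srr
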