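import Pool.Agent.Hhelper49.Srr.GMod

/-!
# Module IndA: coinduction from a subgroup of finite index preserves FF

`H` of finite index in `G`.  (1) `N ↦ Coind H N` is an exact functor: a map `ψ : N → N'` induces
`f ↦ ψ ∘ f`; for surjective `ψ` and `f' : G → N'` in the coinduced module choose representatives `r` of the
right cosets `H r` (`G = ⋃ H r`), lift `f'(r)` to `n_r` and put `f (h r) = h n_r`.
(2) `Coind H ℤ[H]` is free of rank one over `ℤ[G]`: the function `δ : G → ℤ[H]`, `δ(g) = g` for
`g ∈ H` and `0` otherwise, is a basis (`(g' δ)(g) = δ(g g')` is supported on `H g'⁻¹`; evaluate on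
representatives of the finitely many right cosets).
(3) Coinduction is compatible with finite products, so finitely generated free modules go to
finitely generated free modules, and `coind_ff` follows by induction on the length.
-/

namespace Pool.Agent.Hhelper49.Srr

variable {G : Type} [Group G]

/-! ### functoriality -/

section
variable (H : Subgroup G)
variable {N N' : Type} [AddCommGroup N] [Module (MonoidAlgebra ℤ H) N] [AddCommGroup N']
  [Module (MonoidAlgebra ℤ H) N']

/-- postcomposition -/
noncomputable def coindMap (ψ : N →ₗ[MonoidAlgebra ℤ H] N') :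
    Coind H N →ₗ[MonoidAlgebra ℤ G] Coind H N' :=
  mkLin
    { toFun := fun f => Coind.mk (fun g => ψ (f.fn g)) (fun h g => by
        rw [Coind.fn_mul, lin_act])
      map_zero' := by
        apply Coind.ext
        intro g
        simp
      map_add' := by
        intro f f'
        apply Coind.ext
        intro g
        simp }
    (by
      intro g f
      apply Coind.ext
      intro x
      change ψ ((act g f).fn x) = (act g (Coind.mk (fun g => ψ (f.fn g)) _)).fn x
      rw [Coind.act_apply, Coind.act_apply]
      rfl)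

theorem coindMap_fn (ψ : N →ₗ[MonoidAlgebra ℤ H] N') (f : Coind H N) (g : G) :
    (coindMap H ψ f).fn g = ψ (f.fn g) := rfl

theorem coindMap_surj (ψ : N →ₗ[MonoidAlgebra ℤ H] N') (hψ : Function.Surjective ψ) :
    Function.Surjective (coindMap H ψ) := by
  classical
  intro f
  choose lft hlft using hψ
  let rp : G → G := fun g => (Quotient.mk (QuotientGroup.rightRel H) g).out
  have hrp : ∀ g, g * (rp g)⁻¹ ∈ H := by
    intro g
    have h1 : (QuotientGroup.rightRel H) (rp g) g :=
      Quotient.exact (Quotient.out_eq (Quotient.mk (QuotientGroup.rightRel H) g))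
    exact QuotientGroup.rightRel_apply.1 h1
  have hrpmul : ∀ (h : H) (g : G), rp ((h : G) * g) = rp g := by
    intro h g
    have h1 : Quotient.mk (QuotientGroup.rightRel H) ((h : G) * g) =
        Quotient.mk (QuotientGroup.rightRel H) g := by
      apply Quotient.sound
      change (QuotientGroup.rightRel H) ((h : G) * g) g
      rw [QuotientGroup.rightRel_apply]
      rw [mul_inv_rev, ← mul_assoc, mul_inv_cancel, one_mul]
      exact H.inv_mem h.2
    change (Quotient.mk (QuotientGroup.rightRel H) ((h : G) * g)).out = _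
    rw [h1]
  refine ⟨Coind.mk (fun g => act (⟨g * (rp g)⁻¹, hrp g⟩ : H) (lft (f.fn (rp g)))) ?_, ?_⟩
  · intro h g
    rw [← act_mul]
    have e1 : (⟨(h : G) * g * (rp ((h : G) * g))⁻¹, hrp ((h : G) * g)⟩ : H) =
        h * ⟨g * (rp g)⁻¹, hrp g⟩ := by
      apply Subtype.ext
      change (h : G) * g * (rp ((h : G) * g))⁻¹ = (h : G) * (g * (rp g)⁻¹)
      rw [hrpmul, mul_assoc]
    rw [e1, hrpmul]
  · apply Coind.ext
    intro g
    rw [coindMap_fn, Coind.fn_mk, lin_act, hlft, ← Coind.fn_mul]
    congr 1
    change g * (rp g)⁻¹ * rp g = g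
    rw [inv_mul_cancel_right]

/-- the kernel of postcomposition -/
noncomputable def coindKer (ψ : N →ₗ[MonoidAlgebra ℤ H] N') :
    Coind H (LinearMap.ker ψ) ≃ₗ[MonoidAlgebra ℤ G] LinearMap.ker (coindMap H ψ) :=
  mkEquiv
    { toFun := fun f => ⟨Coind.mk (fun g => ((f.fn g : LinearMap.ker ψ) : N)) (fun h g => by
        rw [Coind.fn_mul]
        rfl), by
          rw [LinearMap.mem_ker]
          apply Coind.ext
          intro g
          rw [coindMap_fn, Coind.fn_mk, Coind.fn_zero]
          exact (f.fn g).2⟩
      invFun := fun f => Coind.mk (fun g => ⟨f.1.fn g, by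
          have h1 := f.2
          rw [LinearMap.mem_ker] at h1
          rw [LinearMap.mem_ker, ← coindMap_fn, h1, Coind.fn_zero]⟩) (fun h g => by
          apply Subtype.ext
          change f.1.fn ((h : G) * g) = act h (f.1.fn g)
          rw [Coind.fn_mul])
      left_inv := by
        intro f
        rfl
      right_inv := by
        intro f
        rfl
      map_add' := by
        intro f f'
        rfl }
    (by
      intro g f
      apply Subtype.ext
      apply Coind.ext
      intro x
      change (((act g f).fn x : LinearMap.ker ψ) : N) =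
        (act g (Coind.mk (fun g => ((f.fn g : LinearMap.ker ψ) : N)) _)).fn x
      rw [Coind.act_apply, Coind.act_apply]
      rfl)

/-- compatibility with finite products -/
noncomputable def coindPi (k : ℕ) :
    Coind H (Fin k → N) ≃ₗ[MonoidAlgebra ℤ G] (Fin k → Coind H N) :=
  mkEquiv
    { toFun := fun f i => Coind.mk (fun g => f.fn g i) (fun h g => by
        rw [Coind.fn_mul]
        rfl)
      invFun := fun f => Coind.mk (fun g i => (f i).fn g) (fun h g => by
        funext i
        rw [Coind.fn_mul]
        rfl)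
      left_inv := by
        intro f
        rfl
      right_inv := by
        intro f
        rfl
      map_add' := by
        intro f f'
        rfl }
    (by
      intro g f
      funext i
      apply Coind.ext
      intro x
      change (act g f).fn x i = (act g (Coind.mk (fun g => f.fn g i) _)).fn x
      rw [Coind.act_apply, Coind.act_apply]
      rfl)

/-- coinduction of an isomorphism -/
theorem coind_iso (e : N ≃ₗ[MonoidAlgebra ℤ H] N') :
    Nonempty (Coind H N ≃ₗ[MonoidAlgebra ℤ G] Coind H N') := by
  refine ⟨LinearEquiv.ofBijective (coindMap H e.toLinearMap) ⟨?_, ?_⟩⟩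
  · intro f f' h
    apply Coind.ext
    intro g
    have h1 := congrArg (fun k => Coind.fn k g) h
    exact e.injective h1
  · exact coindMap_surj H e.toLinearMap e.surjective

end

/-! ### coinduction of the group ring -/

section
variable (H : Subgroup G)

theorem act_coeff {K : Type} [Group K] (g x : K) (r : MonoidAlgebra ℤ K) :
    (act g r).coeff x = r.coeff (g⁻¹ * x) := by
  have h := MonoidAlgebra.coeff_single_mul_apply r (1 : ℤ) g x
  rw [one_mul] at h
  exact h

theorem inj_aux (x : G) : Function.Injective (fun h : H => x⁻¹ * (h : G)) := by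
  intro a b hab
  exact Subtype.ext (mul_left_cancel hab)

/-- `r` evaluated at `x` -/
noncomputable def psiFun (r : MonoidAlgebra ℤ G) (x : G) : MonoidAlgebra ℤ H :=
  MonoidAlgebra.ofCoeff (r.coeff.comapDomain (fun h : H => x⁻¹ * (h : G)) (inj_aux H x).injOn)

theorem psiFun_coeff (r : MonoidAlgebra ℤ G) (x : G) (h : H) :
    (psiFun H r x).coeff h = r.coeff (x⁻¹ * (h : G)) := rfl

/-- the isomorphism of the group ring with the coinduced module of the group ring -/
noncomputable def psiLin : MonoidAlgebra ℤ G →ₗ[MonoidAlgebra ℤ G] Coind H (MonoidAlgebra ℤ H) :=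
  mkLin
    { toFun := fun r => Coind.mk (psiFun H r) (by
        intro h g
        apply MonoidAlgebra.coeff_injective
        ext k
        rw [act_coeff, psiFun_coeff, psiFun_coeff]
        congr 1
        change ((h : G) * g)⁻¹ * (k : G) = g⁻¹ * ((h : G)⁻¹ * (k : G))
        rw [mul_inv_rev, mul_assoc])
      map_zero' := by
        apply Coind.ext
        intro g
        apply MonoidAlgebra.coeff_injective
        ext k
        rfl
      map_add' := by
        intro r r'
        apply Coind.ext
        intro g
        apply MonoidAlgebra.coeff_injective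
        ext k
        rfl }
    (by
      intro g r
      apply Coind.ext
      intro x
      change psiFun H (act g r) x = (act g (Coind.mk (psiFun H r) _)).fn x
      rw [Coind.act_apply, Coind.fn_mk]
      apply MonoidAlgebra.coeff_injective
      ext k
      rw [psiFun_coeff, psiFun_coeff, act_coeff]
      congr 1
      rw [mul_inv_rev, mul_assoc])

theorem psiLin_fn (r : MonoidAlgebra ℤ G) (x : G) : (psiLin H r).fn x = psiFun H r x := rfl

theorem psiLin_inj : Function.Injective (psiLin H) := by
  intro r r' h
  apply MonoidAlgebra.coeff_injective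
  ext g
  have h1 := congrArg (fun k => (Coind.fn k g⁻¹).coeff 1) h
  change (psiFun H r g⁻¹).coeff 1 = (psiFun H r' g⁻¹).coeff 1 at h1
  rw [psiFun_coeff, psiFun_coeff, inv_inv] at h1
  have h2 : g * ((1 : H) : G) = g := mul_one g
  rwa [h2] at h1

theorem psiLin_surj [H.FiniteIndex] : Function.Surjective (psiLin H) := by
  classical
  intro F
  have hfinQ : Finite (Quotient (QuotientGroup.rightRel H)) :=
    Finite.of_equiv _ (QuotientGroup.quotientRightRelEquivQuotientLeftRel H).symm
  have hcoeff : ∀ (k : H) (x : G), (F.fn ((k : G) * x)).coeff 1 = (F.fn x).coeff k⁻¹ := by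
    intro k x
    rw [Coind.fn_mul, act_coeff, mul_one]
  have hfin : (Function.support (fun g : G => (F.fn g⁻¹).coeff 1)).Finite := by
    have hU : (⋃ q : Quotient (QuotientGroup.rightRel H),
        (fun k : H => (q.out)⁻¹ * (k : G)) '' ((F.fn q.out).coeff.support : Set H)).Finite :=
      Set.finite_iUnion fun q => (Finset.finite_toSet _).image _
    apply hU.subset
    intro g hg
    rw [Function.mem_support] at hg
    let q := Quotient.mk (QuotientGroup.rightRel H) g⁻¹
    have hmem : g⁻¹ * (q.out)⁻¹ ∈ H := by
      have h1 : (QuotientGroup.rightRel H) q.out g⁻¹ := Quotient.exact (Quotient.out_eq q)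
      exact QuotientGroup.rightRel_apply.1 h1
    rw [Set.mem_iUnion]
    refine ⟨q, (⟨g⁻¹ * (q.out)⁻¹, hmem⟩ : H)⁻¹, ?_, ?_⟩
    · rw [Finset.mem_coe, Finsupp.mem_support_iff, ← hcoeff]
      have e1 : (((⟨g⁻¹ * (q.out)⁻¹, hmem⟩ : H) : G)) * q.out = g⁻¹ := by
        change g⁻¹ * (q.out)⁻¹ * q.out = g⁻¹
        rw [inv_mul_cancel_right]
      rw [e1]
      exact hg
    · change (q.out)⁻¹ * (g⁻¹ * (q.out)⁻¹)⁻¹ = g
      rw [mul_inv_rev, inv_inv, inv_inv, inv_mul_cancel_left]
  refine ⟨MonoidAlgebra.ofCoeff (Finsupp.ofSupportFinite _ hfin), ?_⟩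
  apply Coind.ext
  intro x
  apply MonoidAlgebra.coeff_injective
  ext k
  rw [psiLin_fn, psiFun_coeff]
  change (F.fn (x⁻¹ * (k : G))⁻¹).coeff 1 = (F.fn x).coeff k
  have e1 : (x⁻¹ * (k : G))⁻¹ = ((k⁻¹ : H) : G) * x := by
    rw [mul_inv_rev, inv_inv]
    rfl
  rw [e1, hcoeff, inv_inv]

end

/-- finite free modules -/
theorem coind_free (H : Subgroup G) [H.FiniteIndex] (k : ℕ) :
    Nonempty ((Fin k → MonoidAlgebra ℤ G) ≃ₗ[MonoidAlgebra ℤ G]
      Coind H (Fin k → MonoidAlgebra ℤ H)) := by
  let e : MonoidAlgebra ℤ G ≃ₗ[MonoidAlgebra ℤ G] Coind H (MonoidAlgebra ℤ H) :=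
    LinearEquiv.ofBijective (psiLin H) ⟨psiLin_inj H, psiLin_surj H⟩
  exact ⟨(LinearEquiv.piCongrRight (fun _ : Fin k => e)).trans (coindPi H k).symm⟩

theorem coind_ffl (H : Subgroup G) [H.FiniteIndex] : ∀ (n : ℕ) (N : Type) [AddCommGroup N]
    [Module (MonoidAlgebra ℤ H) N], FFl (MonoidAlgebra ℤ H) n N →
    FFl (MonoidAlgebra ℤ G) n (Coind H N)
  | 0, N, _, _, h => by
    obtain ⟨hfin, hfree⟩ := h
    let b := Module.Free.chooseBasis (MonoidAlgebra ℤ H) N
    have hf : Fintype (Module.Free.ChooseBasisIndex (MonoidAlgebra ℤ H) N) :=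
      Module.Free.ChooseBasisIndex.fintype (MonoidAlgebra ℤ H) N
    let e : N ≃ₗ[MonoidAlgebra ℤ H] (Fin (Fintype.card
        (Module.Free.ChooseBasisIndex (MonoidAlgebra ℤ H) N)) → MonoidAlgebra ℤ H) :=
      (b.reindex (Fintype.equivFin _)).equivFun
    obtain ⟨e1⟩ := coind_iso H e
    obtain ⟨e2⟩ := coind_free H (Fintype.card
        (Module.Free.ChooseBasisIndex (MonoidAlgebra ℤ H) N))
    let e3 := e2.trans e1.symm
    exact ⟨Module.Finite.equiv e3, Module.Free.of_equiv e3⟩
  | n + 1, N, _, _, h => by
    obtain ⟨k, f, hf, hk⟩ := h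
    obtain ⟨e⟩ := coind_free H k
    refine ⟨k, (coindMap H f).comp e.toLinearMap, ?_, ?_⟩
    · intro y
      obtain ⟨x, hx⟩ := coindMap_surj H f hf y
      refine ⟨e.symm x, ?_⟩
      rw [LinearMap.comp_apply]
      change coindMap H f (e (e.symm x)) = y
      rw [LinearEquiv.apply_symm_apply, hx]
    · have h1 := coind_ffl H n (LinearMap.ker f) hk
      have e1 := coindKer H f
      have e2 : LinearMap.ker ((coindMap H f).comp e.toLinearMap) ≃ₗ[MonoidAlgebra ℤ G]
          LinearMap.ker (coindMap H f) :=
        (LinearEquiv.ofEq _ _ (LinearMap.ker_comp _ _)).trans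
          (e.ofSubmodule' (LinearMap.ker (coindMap H f)))
      exact ffl_iso (e1.trans e2.symm) n h1

theorem coind_ff (H : Subgroup G) [H.FiniteIndex] (N : Type) [AddCommGroup N]
    [Module (MonoidAlgebra ℤ H) N] (h : FF (MonoidAlgebra ℤ H) N) :
    FF (MonoidAlgebra ℤ G) (Coind H N) := by
  obtain ⟨n, hn⟩ := h
  exact ⟨n, coind_ffl H n N hn⟩

end Pool.Agent.Hhelper49.Srr
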