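import Pool.Agent.Hhelper49.Srr.GMod

/-!
# Module IndB: functions on a finite `G`-set

(1) `PMap G (G ⧸ H) T ≃ Coind H (Res H T)`: `f ↦ (g ↦ g f(g⁻¹ H))`, inverse `F ↦ (g H ↦ g F(g⁻¹))`.
(2) `Coind H (Fin m → N) ≃ (Fin m → Coind H N)`, `Res H (Fin m → T) ≃ (Fin m → Res H T)`.
(3) `pmap_coset`: from (1), (2) and `hco` (module IndA).
(4) `pmap_ff`: a finite `G`-set `X` is the disjoint union of its orbits `≃ G ⧸ stabilizer`
(`MulAction.selfEquivSigmaOrbitsQuotientStabilizer` or by hand), and `PMap G X T` is the product of the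
corresponding modules; `ff_pi` (module Calc) and `ff_iso`.  The stabilizers have finite index since
`X` is finite.
-/

namespace Pool.Agent.Hhelper49.Srr

variable {G : Type} [Group G]

/-- functions on the cosets and the coinduced module (additive version, with `m` copies) -/
noncomputable def cosetAdd (H : Subgroup G) (m : ℕ) (T : Type) [AddCommGroup T]
    [Module (MonoidAlgebra ℤ G) T] :
    (Fin m → PMap G (G ⧸ H) T) ≃+ Coind H (Fin m → Res H T) where
  toFun f := Coind.mk (fun g i => Res.mk H (act g ((f i).fn ((g⁻¹ : G) : G ⧸ H)))) (by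
    intro h g
    funext i
    have h1 : (((((h : G) * g)⁻¹ : G)) : G ⧸ H) = ((g⁻¹ : G) : G ⧸ H) := by
      rw [mul_inv_rev]
      exact QuotientGroup.mk_mul_of_mem _ (H.inv_mem h.2)
    rw [h1]
    change act ((h : G) * g) ((f i).fn ((g⁻¹ : G) : G ⧸ H))
      = (act h (Res.mk H (act g ((f i).fn ((g⁻¹ : G) : G ⧸ H))))).un
    rw [Res.act_apply, act_mul, Res.un_mk])
  invFun F i := PMap.mk G (fun q => Quotient.liftOn' q (fun g => act g ((F.fn g⁻¹ i).un)) (by
    intro a b hab
    have hab' : a⁻¹ * b ∈ H := QuotientGroup.leftRel_apply.1 hab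
    change act a ((F.fn a⁻¹ i).un) = act b ((F.fn b⁻¹ i).un)
    have h2 : a⁻¹ = ((⟨a⁻¹ * b, hab'⟩ : H) : G) * b⁻¹ := by simp
    have h3 : F.fn a⁻¹ i = act (⟨a⁻¹ * b, hab'⟩ : H) (F.fn b⁻¹ i) := by
      conv_lhs => rw [h2, F.fn_mul]
      rfl
    rw [h3, Res.act_apply, ← act_mul]
    congr 1
    simp))
  left_inv f := by
    funext i
    refine PMap.ext fun q => ?_
    induction q using QuotientGroup.induction_on with
    | H g =>
      change act g (act g⁻¹ ((f i).fn (((g⁻¹)⁻¹ : G) : G ⧸ H))) = (f i).fn (g : G ⧸ H)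
      rw [act_act_inv, inv_inv]
  right_inv F := by
    refine Coind.ext fun g => ?_
    funext i
    change act g (act g⁻¹ ((F.fn (g⁻¹)⁻¹ i).un)) = (F.fn g i).un
    rw [act_act_inv, inv_inv]
  map_add' f f' := by
    refine Coind.ext fun g => ?_
    funext i
    change act g ((f i).fn _ + (f' i).fn _) = act g ((f i).fn _) + act g ((f' i).fn _)
    rw [act, smul_add]

theorem cosetAdd_act (H : Subgroup G) (m : ℕ) (T : Type) [AddCommGroup T]
    [Module (MonoidAlgebra ℤ G) T] (g' : G) (f : Fin m → PMap G (G ⧸ H) T) :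
    cosetAdd H m T (act g' f) = act g' (cosetAdd H m T f) := by
  refine Coind.ext fun g => ?_
  rw [Coind.act_apply]
  funext i
  change act g ((act g' (f i)).fn ((g⁻¹ : G) : G ⧸ H))
    = act (g * g') ((f i).fn (((g * g')⁻¹ : G) : G ⧸ H))
  rw [PMap.act_apply, act_mul]
  have h1 : g'⁻¹ • ((g⁻¹ : G) : G ⧸ H) = (((g * g')⁻¹ : G) : G ⧸ H) := by
    rw [mul_inv_rev]; rfl
  rw [h1]

theorem pmap_coset (H : Subgroup G)
    (hco : ∀ (N : Type) [AddCommGroup N] [Module (MonoidAlgebra ℤ H) N],
      FF (MonoidAlgebra ℤ H) N → FF (MonoidAlgebra ℤ G) (Coind H N))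
    (m : ℕ) (T : Type) [AddCommGroup T] [Module (MonoidAlgebra ℤ G) T]
    (hT : FF (MonoidAlgebra ℤ H) (Fin m → Res H T)) :
    FF (MonoidAlgebra ℤ G) (Fin m → PMap G (G ⧸ H) T) :=
  ff_iso (mkEquiv (cosetAdd H m T) (cosetAdd_act H m T)).symm (hco _ hT)

/-- restriction of functions to the orbits -/
noncomputable def orbAdd (X : Type) [MulAction G X] (m : ℕ) (T : Type) [AddCommGroup T]
    [Module (MonoidAlgebra ℤ G) T] :
    (Fin m → PMap G X T) →+ (∀ ω : MulAction.orbitRel.Quotient G X,
      (Fin m → PMap G (G ⧸ MulAction.stabilizer G ω.out) T)) where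
  toFun f ω i := PMap.mk G fun q => (f i).fn (MulAction.ofQuotientStabilizer G ω.out q)
  map_zero' := rfl
  map_add' _ _ := rfl

theorem orbAdd_act (X : Type) [MulAction G X] (m : ℕ) (T : Type) [AddCommGroup T]
    [Module (MonoidAlgebra ℤ G) T] (g : G) (f : Fin m → PMap G X T) :
    orbAdd X m T (act g f) = act g (orbAdd X m T f) := by
  funext ω i
  refine PMap.ext fun q => ?_
  change (act g (f i)).fn (MulAction.ofQuotientStabilizer G ω.out q)
    = (act g (orbAdd X m T f ω i)).fn q
  rw [PMap.act_apply, PMap.act_apply, ← MulAction.ofQuotientStabilizer_smul]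
  rfl

theorem orb_exists (X : Type) [MulAction G X] (x : X) :
    ∃ (ω : MulAction.orbitRel.Quotient G X) (q : G ⧸ MulAction.stabilizer G ω.out),
      MulAction.ofQuotientStabilizer G ω.out q = x := by
  set ω : MulAction.orbitRel.Quotient G X := Quotient.mk'' x with hω
  have h1 : (MulAction.orbitRel G X) x ω.out := by
    have := Quotient.mk_out (s := MulAction.orbitRel G X) x
    exact Setoid.symm' _ this
  rw [MulAction.orbitRel_apply] at h1
  obtain ⟨g, hg⟩ := h1
  exact ⟨ω, (g : G ⧸ MulAction.stabilizer G ω.out), hg⟩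

theorem orb_unique (X : Type) [MulAction G X]
    (ω ω' : MulAction.orbitRel.Quotient G X) (q : G ⧸ MulAction.stabilizer G ω.out)
    (q' : G ⧸ MulAction.stabilizer G ω'.out)
    (h : MulAction.ofQuotientStabilizer G ω.out q = MulAction.ofQuotientStabilizer G ω'.out q') :
    (⟨ω, q⟩ : Σ ω : MulAction.orbitRel.Quotient G X, G ⧸ MulAction.stabilizer G ω.out)
      = ⟨ω', q'⟩ := by
  have h1 : ∀ (ω : MulAction.orbitRel.Quotient G X) (q : G ⧸ MulAction.stabilizer G ω.out),
      (Quotient.mk'' (MulAction.ofQuotientStabilizer G ω.out q) :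
        MulAction.orbitRel.Quotient G X) = ω := by
    intro ω q
    induction q using QuotientGroup.induction_on with
    | H g =>
      conv_rhs => rw [← Quotient.out_eq' ω]
      refine Quotient.sound' ?_
      rw [MulAction.orbitRel_apply]
      exact ⟨g, rfl⟩
  have h2 : ω = ω' := by rw [← h1 ω q, h, h1 ω' q']
  subst h2
  have h3 := MulAction.injective_ofQuotientStabilizer G ω.out h
  rw [h3]

theorem orbAdd_bij (X : Type) [MulAction G X] (m : ℕ) (T : Type) [AddCommGroup T]
    [Module (MonoidAlgebra ℤ G) T] : Function.Bijective (orbAdd (G := G) X m T) := by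
  constructor
  · intro f f' hff
    funext i
    refine PMap.ext fun x => ?_
    obtain ⟨ω, q, rfl⟩ := orb_exists (G := G) X x
    have := congrArg (fun F => (F ω i).fn q) hff
    exact this
  · intro F
    choose ω q hq using orb_exists (G := G) X
    refine ⟨fun i => PMap.mk G fun x => (F (ω x) i).fn (q x), ?_⟩
    funext ω' i
    refine PMap.ext fun q' => ?_
    change (F (ω (MulAction.ofQuotientStabilizer G ω'.out q')) i).fn
      (q (MulAction.ofQuotientStabilizer G ω'.out q')) = (F ω' i).fn q'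
    have h1 := orb_unique (G := G) X _ ω' _ q' (hq (MulAction.ofQuotientStabilizer G ω'.out q'))
    exact congrArg (fun s : (Σ ω : MulAction.orbitRel.Quotient G X,
      G ⧸ MulAction.stabilizer G ω.out) => (F s.1 i).fn s.2) h1

theorem pmap_ff (X : Type) [Finite X] [MulAction G X] (m : ℕ) (T : Type) [AddCommGroup T]
    [Module (MonoidAlgebra ℤ G) T]
    (hX : ∀ x : X, FF (MonoidAlgebra ℤ G) (Fin m → PMap G (G ⧸ MulAction.stabilizer G x) T)) :
    FF (MonoidAlgebra ℤ G) (Fin m → PMap G X T) := by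
  have hfin : Finite (MulAction.orbitRel.Quotient G X) := Quotient.finite _
  have h1 : FF (MonoidAlgebra ℤ G) (∀ ω : MulAction.orbitRel.Quotient G X,
      (Fin m → PMap G (G ⧸ MulAction.stabilizer G ω.out) T)) :=
    ff_pi _ fun ω => hX ω.out
  exact ff_iso (LinearEquiv.ofBijective (mkLin (orbAdd X m T) (orbAdd_act X m T))
    (orbAdd_bij X m T)).symm h1

end Pool.Agent.Hhelper49.Srr
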