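import Pool.Agent.Hhelper49.Srr.GMod

/-!
# Module Iso: isomorphisms between the constructions

* `pmap_lattice`: `PMap G X (Triv G)` is a lattice for finite `X`.
* `chom_pmap`: `CHom G (PMap G X (Triv G)) T ≃ PMap G X T` for finite `X`: `f ↦ (x ↦ f(δ_x))`.
* `chom_congr`: isomorphic `N` give isomorphic `CHom G N T` (precomposition).
* `pmap_sum`: `PMap G (X ⊕ Y) T ≃ PMap G X T × PMap G Y T`.
* `pmap_trivial`: if `G` acts trivially on `X = Fin n` then `PMap G X T ≃ (Fin n → T)`; here for the type
  synonym `TrivSet n` with the trivial action.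
-/

set_option linter.unusedSectionVars false

namespace Pool.Agent.Hhelper49.Srr

/-- a set with `n` elements and trivial action -/
def TrivSet (n : ℕ) : Type := Fin n

instance (n : ℕ) : Finite (TrivSet n) := inferInstanceAs (Finite (Fin n))

instance (n : ℕ) : Fintype (TrivSet n) := inferInstanceAs (Fintype (Fin n))

instance (n : ℕ) : DecidableEq (TrivSet n) := inferInstanceAs (DecidableEq (Fin n))

instance (G : Type) [Group G] (n : ℕ) : MulAction G (TrivSet n) where
  smul _ x := x
  one_smul _ := rfl
  mul_smul _ _ _ := rfl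

variable {G : Type} [Group G]

theorem pmap_lattice (X : Type) [Finite X] :
    Module.Finite ℤ (PMap G X (Triv G)) ∧ Module.Free ℤ (PMap G X (Triv G)) := by
  let e : PMap G X (Triv G) ≃+ (X → ℤ) := AddEquiv.refl (X → ℤ)
  let e' : PMap G X (Triv G) ≃ₗ[ℤ] (X → ℤ) := e.toIntLinearEquiv
  exact ⟨Module.Finite.equiv e'.symm, Module.Free.of_equiv e'.symm⟩

theorem pmap_finite (X T : Type) [Finite X] [Finite T] : Finite (PMap G X T) := by
  exact inferInstanceAs (Finite (X → T))

theorem chom_finite (N T : Type) [AddCommGroup N] [Module.Finite ℤ N] [AddCommGroup T] [Finite T] :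
    Finite (CHom G N T) := by
  obtain ⟨s, hs⟩ := Module.Finite.fg_top (R := ℤ) (M := N)
  have hinj : Function.Injective (fun (f : N →+ T) => fun (x : s) => f x.1) := by
    intro f f' h
    have h1 : f.toIntLinearMap = f'.toIntLinearMap := by
      refine LinearMap.ext_on (s := (s : Set N)) hs ?_
      intro x hx
      exact congrFun h ⟨x, hx⟩
    ext x
    exact DFunLike.congr_fun h1 x
  exact Finite.of_injective (α := N →+ T) _ hinj

/-- the indicator function of a point -/
noncomputable def dl {X : Type} (x : X) : X → ℤ := by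
  classical exact Pi.single x 1

theorem dl_smul {X : Type} [MulAction G X] (g : G) (x y : X) : dl x (g⁻¹ • y) = dl (g • x) y := by
  classical
  unfold dl
  by_cases h : g⁻¹ • y = x
  · have h2 : y = g • x := by rw [← h, smul_inv_smul]
    rw [h, Pi.single_eq_same, h2, Pi.single_eq_same]
  · have h2 : y ≠ g • x := by
      intro h3
      exact h (by rw [h3, inv_smul_smul])
    rw [Pi.single_eq_of_ne h, Pi.single_eq_of_ne h2]

theorem sum_dl {X : Type} [Fintype X] (u : X → ℤ) : u = ∑ x, u x • dl x := by
  classical
  funext y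
  rw [Finset.sum_apply]
  unfold dl
  simp [Pi.single_apply]

theorem chom_pmap (X : Type) [Finite X] [MulAction G X] (T : Type) [AddCommGroup T]
    [Module (MonoidAlgebra ℤ G) T] :
    Nonempty (CHom G (PMap G X (Triv G)) T ≃ₗ[MonoidAlgebra ℤ G] PMap G X T) := by
  classical
  cases nonempty_fintype X
  let fwd : ((X → ℤ) →+ T) → (X → T) := fun f x => f (dl x)
  let bwd : (X → T) → ((X → ℤ) →+ T) := fun t =>
    { toFun := fun u => ∑ x, u x • t x
      map_zero' := by simp
      map_add' := by
        intro u v
        rw [← Finset.sum_add_distrib]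
        exact Finset.sum_congr rfl (fun x _ => add_smul _ _ _) }
  let e : ((X → ℤ) →+ T) ≃+ (X → T) :=
    { toFun := fwd
      invFun := bwd
      left_inv := by
        intro f
        refine DFunLike.ext _ _ ?_
        intro u
        change ∑ x, u x • f (dl x) = f u
        conv_rhs => rw [sum_dl u]
        rw [map_sum]
        exact Finset.sum_congr rfl (fun x _ => (map_zsmul f _ _).symm)
      right_inv := by
        intro t
        funext y
        change ∑ x, (dl y x) • t x = t y
        unfold dl
        simp [Pi.single_apply]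
      map_add' := fun _ _ => rfl }
  refine ⟨mkEquiv (A := CHom G (PMap G X (Triv G)) T) (B := PMap G X T) e ?_⟩
  intro g f
  apply PMap.ext
  intro x
  rw [PMap.act_apply]
  change (act g f).hom (PMap.mk G (dl x)) = act g (f.hom (PMap.mk G (dl (g⁻¹ • x))))
  rw [CHom.act_apply]
  congr 2
  apply PMap.ext
  intro y
  rw [PMap.act_apply, act_triv]
  exact dl_smul g⁻¹ x y

theorem chom_congr (N N' T : Type) [AddCommGroup N] [AddCommGroup N'] [AddCommGroup T]
    [Module (MonoidAlgebra ℤ G) N] [Module (MonoidAlgebra ℤ G) N'] [Module (MonoidAlgebra ℤ G) T]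
    (e : N ≃ₗ[MonoidAlgebra ℤ G] N') :
    Nonempty (CHom G N T ≃ₗ[MonoidAlgebra ℤ G] CHom G N' T) := by
  let e1 : (N →+ T) ≃+ (N' →+ T) :=
    { toFun := fun f => f.comp e.symm.toAddEquiv.toAddMonoidHom
      invFun := fun f => f.comp e.toAddEquiv.toAddMonoidHom
      left_inv := by
        intro f
        refine DFunLike.ext _ _ ?_
        intro n
        exact congrArg f (e.symm_apply_apply n)
      right_inv := by
        intro f
        refine DFunLike.ext _ _ ?_
        intro n
        exact congrArg f (e.apply_symm_apply n)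
      map_add' := fun _ _ => rfl }
  refine ⟨mkEquiv (A := CHom G N T) (B := CHom G N' T) e1 ?_⟩
  intro g f
  apply CHom.ext
  intro n
  rw [CHom.act_apply]
  change (act g f).hom (e.symm n) = act g (f.hom (e.symm (act g⁻¹ n)))
  rw [CHom.act_apply]
  congr 2
  exact (map_smul e.symm _ _).symm

theorem pmap_sum (X Y : Type) [MulAction G X] [MulAction G Y] (T : Type) [AddCommGroup T]
    [Module (MonoidAlgebra ℤ G) T] :
    Nonempty (PMap G (X ⊕ Y) T ≃ₗ[MonoidAlgebra ℤ G] (PMap G X T × PMap G Y T)) := by
  let e : (X ⊕ Y → T) ≃+ ((X → T) × (Y → T)) :=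
    { toFun := fun f => (fun x => f (Sum.inl x), fun y => f (Sum.inr y))
      invFun := fun p => Sum.elim p.1 p.2
      left_inv := by
        intro f
        funext z
        cases z <;> rfl
      right_inv := fun _ => rfl
      map_add' := fun _ _ => rfl }
  refine ⟨mkEquiv (A := PMap G (X ⊕ Y) T) (B := PMap G X T × PMap G Y T) e ?_⟩
  intro g f
  have h1 : PMap.mk G (fun x => (act g f).fn (Sum.inl x)) = (act g (PMap.mk G (fun x => f.fn (Sum.inl x))) : PMap G X T) := by
    apply PMap.ext
    intro x
    rw [PMap.act_apply]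
    exact PMap.act_apply g f (Sum.inl x)
  have h2 : PMap.mk G (fun x => (act g f).fn (Sum.inr x)) = (act g (PMap.mk G (fun x => f.fn (Sum.inr x))) : PMap G Y T) := by
    apply PMap.ext
    intro x
    rw [PMap.act_apply]
    exact PMap.act_apply g f (Sum.inr x)
  exact Prod.ext h1 h2

theorem pmap_trivial (n : ℕ) (T : Type) [AddCommGroup T] [Module (MonoidAlgebra ℤ G) T] :
    Nonempty (PMap G (TrivSet n) T ≃ₗ[MonoidAlgebra ℤ G] (Fin n → T)) := by
  let e : (Fin n → T) ≃+ (Fin n → T) := AddEquiv.refl _
  refine ⟨mkEquiv (A := PMap G (TrivSet n) T) (B := Fin n → T) e ?_⟩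
  intro g f
  funext x
  exact PMap.act_apply g f (x : TrivSet n)

end Pool.Agent.Hhelper49.Srr
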