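import Pool.Agent.Hhelper49.Srr.GMod

/-!
# Module Lat: lattices

A lattice is a `ℤ[G]`-module `N` which is finitely generated and free as an abelian group.

(1) `N` lattice: `M ↦ CHom G N M` is an exact functor (postcomposition; surjectivity of
`CHom G N B → CHom G N C` for surjective `B → C`: lift the values on a `ℤ`-basis of `N`), compatible with
finite products.

(2) `CHom G N ℤ[G]` is free of rank `r = rank N`: let `b_i` be a `ℤ`-basis of `N` with coordinate
functions `b_i^*`; the elements `f_i : n ↦ b_i^*(n) • 1` are a `ℤ[G]`-basis: `(h f_i)(n) = b_i^*(h⁻¹ n) h`, and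
every additive `f : N → ℤ[G]` is `f(n) = ∑_h f_h(n) h` with `f_h : N → ℤ` additive, only finitely many `f_h ≠ 0`
(`N` is finitely generated), and `f_h = ∑_i c_{h,i} b_i^* ∘ h⁻¹` with unique integers `c_{h,i}`.

(3) hence `chom_ff`, `chom_fp` (induction on the length; finitely generated projective = direct
summand of a finitely generated free module).

(4) for a lattice `L` the evaluation `L → CHom G (CHom G L (Triv G)) (Triv G)` is an isomorphism and
`CHom G L (Triv G)` is a lattice.  So `lattice_fp`, `lattice_ff` follow from (3) with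
`N = CHom G L (Triv G)`, `M = Triv G` or `M = (Fin m → Triv G)`.
-/

namespace Pool.Agent.Hhelper49.Srr

open Module

variable {G : Type} [Group G]

/-! ### Postcomposition -/

section
variable (N : Type) [AddCommGroup N] [Module (MonoidAlgebra ℤ G) N]
  {A B : Type} [AddCommGroup A] [Module (MonoidAlgebra ℤ G) A]
  [AddCommGroup B] [Module (MonoidAlgebra ℤ G) B]

/-- postcomposition -/
private noncomputable def latMap (u : A →ₗ[MonoidAlgebra ℤ G] B) :
    CHom G N A →ₗ[MonoidAlgebra ℤ G] CHom G N B :=
  mkLin (AddMonoidHom.mk' (fun f => CHom.mk G (u.toAddMonoidHom.comp f.hom)) (by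
    intro f f'
    apply CHom.ext
    intro n
    change u (f.hom n + f'.hom n) = u (f.hom n) + u (f'.hom n)
    exact map_add _ _ _)) (by
    intro g f
    apply CHom.ext
    intro n
    rw [CHom.act_apply]
    change u ((act g f).hom n) = act g (u (f.hom (act g⁻¹ n)))
    rw [CHom.act_apply, lin_act])

private theorem latMap_hom (u : A →ₗ[MonoidAlgebra ℤ G] B) (f : CHom G N A) (n : N) :
    (latMap N u f).hom n = u (f.hom n) := rfl

private theorem latMap_surj [Module.Free ℤ N] {u : A →ₗ[MonoidAlgebra ℤ G] B}
    (hu : Function.Surjective u) : Function.Surjective (latMap N u) := by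
  intro f
  let b := Module.Free.chooseBasis ℤ N
  choose a ha using fun i => hu (f.hom (b i))
  let v : N →ₗ[ℤ] A := b.constr ℤ a
  refine ⟨CHom.mk G v.toAddMonoidHom, ?_⟩
  apply CHom.ext
  intro n
  rw [latMap_hom]
  have h : (u.toAddMonoidHom.comp v.toAddMonoidHom).toIntLinearMap = f.hom.toIntLinearMap := by
    apply b.ext
    intro i
    change u (v (b i)) = f.hom (b i)
    rw [Basis.constr_basis, ha]
  exact congrArg (fun k : N →ₗ[ℤ] B => k n) h

private theorem latMap_inj {u : A →ₗ[MonoidAlgebra ℤ G] B} (hu : Function.Injective u) :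
    Function.Injective (latMap N u) := by
  intro f f' h
  apply CHom.ext
  intro n
  apply hu
  rw [← latMap_hom, ← latMap_hom, h]

private theorem latMap_exact (u : A →ₗ[MonoidAlgebra ℤ G] B) :
    LinearMap.range (latMap N (LinearMap.ker u).subtype) = LinearMap.ker (latMap N u) := by
  apply le_antisymm
  · rintro _ ⟨f, rfl⟩
    rw [LinearMap.mem_ker]
    apply CHom.ext
    intro n
    rw [latMap_hom, latMap_hom]
    exact (f.hom n).2
  · intro f hf
    have h1 : ∀ n, u (f.hom n) = 0 := by
      intro n
      rw [LinearMap.mem_ker] at hf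
      rw [← latMap_hom, hf]
      rfl
    refine ⟨CHom.mk G (AddMonoidHom.mk' (fun n => (⟨f.hom n, h1 n⟩ : LinearMap.ker u)) ?_), ?_⟩
    · intro m n
      apply Subtype.ext
      exact map_add f.hom m n
    · apply CHom.ext
      intro n
      rfl

private noncomputable def latCongr (e : A ≃ₗ[MonoidAlgebra ℤ G] B) :
    CHom G N A ≃ₗ[MonoidAlgebra ℤ G] CHom G N B :=
  LinearEquiv.ofBijective (latMap N e.toLinearMap)
    ⟨latMap_inj N e.injective, by
      intro f
      refine ⟨latMap N e.symm.toLinearMap f, ?_⟩
      apply CHom.ext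
      intro n
      rw [latMap_hom, latMap_hom]
      exact e.apply_symm_apply _⟩

/-- products -/
private noncomputable def latPi (ι : Type) :
    CHom G N (ι → A) ≃ₗ[MonoidAlgebra ℤ G] (ι → CHom G N A) :=
  mkEquiv
    { toFun := fun f i => CHom.mk G ((Pi.evalAddMonoidHom (fun _ : ι => A) i).comp f.hom)
      invFun := fun f => CHom.mk G (AddMonoidHom.mk' (fun n i => (f i).hom n) (by
        intro m n
        funext i
        exact map_add (f i).hom m n))
      left_inv := fun f => rfl
      right_inv := fun f => rfl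
      map_add' := fun f f' => rfl } (by
    intro g f
    funext i
    apply CHom.ext
    intro n
    have h1 : (act g fun i => CHom.mk G ((Pi.evalAddMonoidHom (fun _ : ι => A) i).comp f.hom)) i =
      act g (CHom.mk G ((Pi.evalAddMonoidHom (fun _ : ι => A) i).comp f.hom)) := rfl
    change (act g f).hom n i = ((act g fun i => CHom.mk G ((Pi.evalAddMonoidHom
      (fun _ : ι => A) i).comp f.hom)) i).hom n
    rw [h1, CHom.act_apply, CHom.act_apply]
    rfl)

end

/-! ### The regular module -/

private theorem lat_act_single (g h : G) (z : ℤ) :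
    act g (MonoidAlgebra.single h z : MonoidAlgebra ℤ G) = MonoidAlgebra.single (g * h) z := by
  rw [act, smul_eq_mul, MonoidAlgebra.of_apply, MonoidAlgebra.single_mul_single, one_mul]

section
variable (N : Type) [AddCommGroup N] [Module (MonoidAlgebra ℤ G) N] {ι : Type}
  (b : Basis ι ℤ N)

/-- the elements `n ↦ b_i^*(n) • 1` -/
private noncomputable def latF (i : ι) : CHom G N (MonoidAlgebra ℤ G) :=
  CHom.mk G (AddMonoidHom.mk' (fun n => MonoidAlgebra.single 1 (b.repr n i)) (by
    intro m n
    rw [map_add, Finsupp.add_apply, MonoidAlgebra.single_add]))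

private theorem latF_smul (a : MonoidAlgebra ℤ G) (i : ι) (n : N) (h : G) :
    ((a • latF N b i).hom n).coeff h = a.coeff h * b.repr (act h⁻¹ n) i := by
  classical
  induction a using MonoidAlgebra.induction_linear with
  | zero =>
    rw [zero_smul]
    simp
  | add x y hx hy =>
    rw [add_smul]
    change ((x • latF N b i).hom n + (y • latF N b i).hom n : MonoidAlgebra ℤ G).coeff h = _
    rw [MonoidAlgebra.coeff_add, Finsupp.add_apply, hx, hy, MonoidAlgebra.coeff_add,
      Finsupp.add_apply, add_mul]
  | single g r =>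
    rw [single_smul]
    change (r • (act g (latF N b i)).hom n).coeff h = _
    rw [CHom.act_apply]
    change (r • act g (MonoidAlgebra.single 1 (b.repr (act g⁻¹ n) i))).coeff h = _
    rw [lat_act_single, mul_one, MonoidAlgebra.coeff_smul, Finsupp.smul_apply,
      MonoidAlgebra.coeff_single, MonoidAlgebra.coeff_single, Finsupp.single_apply,
      Finsupp.single_apply]
    by_cases hg : g = h
    · subst hg
      simp
    · simp [hg]

private theorem lat_sum_hom (s : Finset ι) (F : ι → CHom G N (MonoidAlgebra ℤ G)) (n : N) :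
    (∑ i ∈ s, F i).hom n = ∑ i ∈ s, (F i).hom n := by
  classical
  induction s using Finset.induction_on with
  | empty => rfl
  | insert a s ha ih =>
    rw [Finset.sum_insert ha, Finset.sum_insert ha, ← ih]
    rfl

/-- the linear map from the free module -/
private noncomputable def latPhi [Fintype ι] :
    (ι → MonoidAlgebra ℤ G) →ₗ[MonoidAlgebra ℤ G] CHom G N (MonoidAlgebra ℤ G) :=
  Fintype.linearCombination (MonoidAlgebra ℤ G) (latF N b)

private theorem latPhi_coeff [Fintype ι] (c : ι → MonoidAlgebra ℤ G) (n : N) (h : G) :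
    ((latPhi N b c).hom n).coeff h = ∑ i, (c i).coeff h * b.repr (act h⁻¹ n) i := by
  unfold latPhi
  rw [Fintype.linearCombination_apply, lat_sum_hom, MonoidAlgebra.coeff_sum, Finsupp.finsetSum_apply]
  exact Finset.sum_congr rfl fun i _ => latF_smul N b (c i) i n h

private theorem latPhi_bij [Fintype ι] : Function.Bijective (latPhi (G := G) N b) := by
  classical
  constructor
  · intro c c' hcc
    funext j
    apply MonoidAlgebra.ext
    ext h
    have h1 := latPhi_coeff N b c (act h (b j)) h
    have h2 := latPhi_coeff N b c' (act h (b j)) h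
    rw [hcc, h2, act_inv_act] at h1
    simpa [Finsupp.single_apply] using h1.symm
  · intro f
    -- the supports
    set S : Finset G := Finset.univ.biUnion fun i => (f.hom (b i)).coeff.support with hS
    have hsupp : ∀ (n : N) (h : G), h ∉ S → (f.hom n).coeff h = 0 := by
      intro n h hh
      have h1 : ∀ i, (f.hom (b i)).coeff h = 0 := by
        intro i
        by_contra hne
        exact hh (Finset.mem_biUnion.2 ⟨i, Finset.mem_univ _, Finsupp.mem_support_iff.2 hne⟩)
      have h2 : f.hom n = ∑ i, b.repr n i • f.hom (b i) := by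
        conv_lhs => rw [← b.sum_repr n]
        rw [map_sum]
        exact Finset.sum_congr rfl fun i _ => map_zsmul _ _ _
      rw [h2, MonoidAlgebra.coeff_sum, Finsupp.finsetSum_apply]
      apply Finset.sum_eq_zero
      intro i _
      rw [MonoidAlgebra.coeff_smul, Finsupp.smul_apply, h1, smul_zero]
    refine ⟨fun i => ∑ h ∈ S, MonoidAlgebra.single h ((f.hom (act h (b i))).coeff h), ?_⟩
    have hc : ∀ (i : ι) (h : G), (∑ h ∈ S, MonoidAlgebra.single h
        ((f.hom (act h (b i))).coeff h)).coeff h = (f.hom (act h (b i))).coeff h := by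
      intro i h
      rw [MonoidAlgebra.coeff_sum, Finsupp.finsetSum_apply]
      by_cases hh : h ∈ S
      · rw [Finset.sum_eq_single h]
        · simp
        · intro g _ hg
          simp [hg]
        · intro hne
          exact absurd hh hne
      · rw [hsupp _ _ hh]
        apply Finset.sum_eq_zero
        intro g hg
        have : g ≠ h := fun e => hh (e ▸ hg)
        simp [this]
    apply CHom.ext
    intro n
    apply MonoidAlgebra.ext
    ext h
    rw [latPhi_coeff]
    simp only [hc]
    have h3 : n = act h (∑ i, b.repr (act h⁻¹ n) i • b i) := by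
      rw [b.sum_repr, act_act_inv]
    have h4 : act h (∑ i, b.repr (act h⁻¹ n) i • b i) =
        ∑ i, b.repr (act h⁻¹ n) i • act h (b i) := by
      rw [act, Finset.smul_sum]
      exact Finset.sum_congr rfl fun i _ => smul_comm _ _ _
    conv_rhs => rw [h3, h4]
    rw [map_sum, MonoidAlgebra.coeff_sum, Finsupp.finsetSum_apply]
    apply Finset.sum_congr rfl
    intro i _
    rw [map_zsmul, MonoidAlgebra.coeff_smul, Finsupp.smul_apply, smul_eq_mul, mul_comm]

end

/-- `CHom G N R` is a finitely generated free module -/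
private theorem latReg (N : Type) [AddCommGroup N] [Module (MonoidAlgebra ℤ G) N]
    [Module.Finite ℤ N] [Module.Free ℤ N] :
    Module.Finite (MonoidAlgebra ℤ G) (CHom G N (MonoidAlgebra ℤ G)) ∧
      Module.Free (MonoidAlgebra ℤ G) (CHom G N (MonoidAlgebra ℤ G)) := by
  let b := Module.Free.chooseBasis ℤ N
  let e := LinearEquiv.ofBijective (latPhi (G := G) N b) (latPhi_bij N b)
  exact ⟨Module.Finite.equiv e, Module.Free.of_equiv e⟩

private theorem latRegPi (N : Type) [AddCommGroup N] [Module (MonoidAlgebra ℤ G) N]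
    [Module.Finite ℤ N] [Module.Free ℤ N] (ι : Type) [Finite ι] :
    Module.Finite (MonoidAlgebra ℤ G) (CHom G N (ι → MonoidAlgebra ℤ G)) ∧
      Module.Free (MonoidAlgebra ℤ G) (CHom G N (ι → MonoidAlgebra ℤ G)) := by
  obtain ⟨h1, h2⟩ := latReg (G := G) N
  let e := latPi (A := MonoidAlgebra ℤ G) (G := G) N ι
  exact ⟨Module.Finite.equiv e.symm, Module.Free.of_equiv e.symm⟩

private theorem lat_ffl (N : Type) [AddCommGroup N] [Module (MonoidAlgebra ℤ G) N]
    [Module.Finite ℤ N] [Module.Free ℤ N] (n : ℕ) :
    ∀ (M : Type) [AddCommGroup M] [Module (MonoidAlgebra ℤ G) M],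
      FFl (MonoidAlgebra ℤ G) n M → FF (MonoidAlgebra ℤ G) (CHom G N M) := by
  induction n with
  | zero =>
    intro M _ _ h
    obtain ⟨h1, h2⟩ := h
    let b := Module.Free.chooseBasis (MonoidAlgebra ℤ G) M
    obtain ⟨h3, h4⟩ := latRegPi (G := G) N (Module.Free.ChooseBasisIndex (MonoidAlgebra ℤ G) M)
    let e := latCongr (G := G) N b.equivFun.symm
    exact ⟨0, Module.Finite.equiv e, Module.Free.of_equiv e⟩
  | succ n ih =>
    intro M _ _ h
    obtain ⟨k, f, hf, hk⟩ := h
    refine ff_coker (latMap N (LinearMap.ker f).subtype) (latMap N f)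
      (latMap_inj N (Submodule.subtype_injective _)) (latMap_surj N hf) (latMap_exact N f)
      (ih _ hk) ⟨0, latRegPi (G := G) N (Fin k)⟩

private theorem lat_fpl (N : Type) [AddCommGroup N] [Module (MonoidAlgebra ℤ G) N]
    [Module.Finite ℤ N] [Module.Free ℤ N] (n : ℕ) :
    ∀ (M : Type) [AddCommGroup M] [Module (MonoidAlgebra ℤ G) M],
      FPl (MonoidAlgebra ℤ G) n M → FP (MonoidAlgebra ℤ G) (CHom G N M) := by
  induction n with
  | zero =>
    intro M _ _ h
    obtain ⟨h1, h2⟩ := h
    obtain ⟨k, p, hp⟩ := Module.Finite.exists_fin' (MonoidAlgebra ℤ G) M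
    obtain ⟨s, hs⟩ := Module.projective_lifting_property p LinearMap.id hp
    obtain ⟨h3, h4⟩ := latRegPi (G := G) N (Fin k)
    refine ⟨0, Module.Finite.of_surjective _ (latMap_surj N hp), ?_⟩
    apply Module.Projective.of_split (latMap N s) (latMap N p)
    ext f
    apply CHom.ext
    intro n
    exact congrArg (fun u : M →ₗ[MonoidAlgebra ℤ G] M => u (f.hom n)) hs
  | succ n ih =>
    intro M _ _ h
    obtain ⟨k, f, hf, hk⟩ := h
    refine fp_coker (latMap N (LinearMap.ker f).subtype) (latMap N f)
      (latMap_inj N (Submodule.subtype_injective _)) (latMap_surj N hf) (latMap_exact N f)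
      (ih _ hk) (fp_of_ff ⟨0, latRegPi (G := G) N (Fin k)⟩)

theorem chom_ff (N M : Type) [AddCommGroup N] [Module (MonoidAlgebra ℤ G) N] [AddCommGroup M]
    [Module (MonoidAlgebra ℤ G) M] [Module.Finite ℤ N] [Module.Free ℤ N]
    (h : FF (MonoidAlgebra ℤ G) M) : FF (MonoidAlgebra ℤ G) (CHom G N M) := by
  obtain ⟨n, hn⟩ := h
  exact lat_ffl N n M hn

theorem chom_fp (N M : Type) [AddCommGroup N] [Module (MonoidAlgebra ℤ G) N] [AddCommGroup M]
    [Module (MonoidAlgebra ℤ G) M] [Module.Finite ℤ N] [Module.Free ℤ N]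
    (h : FP (MonoidAlgebra ℤ G) M) : FP (MonoidAlgebra ℤ G) (CHom G N M) := by
  obtain ⟨n, hn⟩ := h
  exact lat_fpl N n M hn

/-! ### Duality -/

section
variable (L : Type) [AddCommGroup L] [Module (MonoidAlgebra ℤ G) L]

private def latTr : Triv G ≃+ ℤ where
  toFun x := x
  invFun x := x
  left_inv _ := rfl
  right_inv _ := rfl
  map_add' _ _ := rfl

/-- the dual as an abelian group -/
private noncomputable def latDual : CHom G L (Triv G) ≃ₗ[ℤ] Module.Dual ℤ L :=
  AddEquiv.toIntLinearEquiv
    { toFun := fun f => ((latTr (G := G)).toAddMonoidHom.comp f.hom).toIntLinearMap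
      invFun := fun f => CHom.mk G ((latTr (G := G)).symm.toAddMonoidHom.comp f.toAddMonoidHom)
      left_inv := fun f => rfl
      right_inv := fun f => rfl
      map_add' := fun f f' => rfl }

/-- evaluation -/
private noncomputable def latEv : L →ₗ[MonoidAlgebra ℤ G] CHom G (CHom G L (Triv G)) (Triv G) :=
  mkLin (AddMonoidHom.mk' (fun x => CHom.mk G (AddMonoidHom.mk' (fun f => f.hom x)
    (fun f f' => rfl))) (by
      intro x y
      apply CHom.ext
      intro f
      exact map_add f.hom x y)) (by
    intro g x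
    apply CHom.ext
    intro f
    rw [CHom.act_apply, act_triv]
    change f.hom (act g x) = (act g⁻¹ f).hom x
    rw [CHom.act_apply, act_triv, inv_inv])

private theorem latEv_apply (x : L) (f : CHom G L (Triv G)) : (latEv (G := G) L x).hom f = f.hom x :=
  rfl

private theorem latEv_bij [Module.Finite ℤ L] [Module.Free ℤ L] :
    Function.Bijective (latEv (G := G) L) := by
  let b := Module.Free.chooseBasis ℤ L
  let E := Module.evalEquiv ℤ L
  constructor
  · intro x y hxy
    apply E.injective
    ext φ
    rw [Module.evalEquiv_apply, Module.evalEquiv_apply]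
    have h := congrArg (fun k : CHom G (CHom G L (Triv G)) (Triv G) =>
      k.hom ((latDual (G := G) L).symm φ)) hxy
    exact h
  · intro F
    let F' : Module.Dual ℤ (Module.Dual ℤ L) :=
      ((latTr (G := G)).toAddMonoidHom.comp F.hom).toIntLinearMap ∘ₗ
        (latDual (G := G) L).symm.toLinearMap
    refine ⟨E.symm F', ?_⟩
    apply CHom.ext
    intro f
    rw [latEv_apply]
    have h1 : E (E.symm F') = F' := E.apply_symm_apply F'
    have h2 := congrArg (fun k : Module.Dual ℤ (Module.Dual ℤ L) => k (latDual (G := G) L f)) h1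
    simp only [E, Module.evalEquiv_apply] at h2
    have h3 : F' (latDual (G := G) L f) = F.hom f := by
      change F.hom ((latDual (G := G) L).symm (latDual (G := G) L f)) = F.hom f
      rw [LinearEquiv.symm_apply_apply]
    rw [h3] at h2
    exact h2

private theorem latDual_lattice [Module.Finite ℤ L] [Module.Free ℤ L] :
    Module.Finite ℤ (CHom G L (Triv G)) ∧ Module.Free ℤ (CHom G L (Triv G)) :=
  ⟨Module.Finite.equiv (latDual (G := G) L).symm, Module.Free.of_equiv (latDual (G := G) L).symm⟩

private noncomputable def latEquiv [Module.Finite ℤ L] [Module.Free ℤ L] :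
    CHom G (CHom G L (Triv G)) (Triv G) ≃ₗ[MonoidAlgebra ℤ G] L :=
  (LinearEquiv.ofBijective (latEv (G := G) L) (latEv_bij L)).symm

end

theorem lattice_fp (h : FP (MonoidAlgebra ℤ G) (Triv G)) (L : Type) [AddCommGroup L]
    [Module (MonoidAlgebra ℤ G) L] [Module.Finite ℤ L] [Module.Free ℤ L] :
    FP (MonoidAlgebra ℤ G) L := by
  obtain ⟨h1, h2⟩ := latDual_lattice (G := G) L
  exact fp_iso (latEquiv L) (chom_fp (CHom G L (Triv G)) (Triv G) h)

theorem lattice_ff (m : ℕ) (h : FF (MonoidAlgebra ℤ G) (Fin m → Triv G)) (L : Type)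
    [AddCommGroup L] [Module (MonoidAlgebra ℤ G) L] [Module.Finite ℤ L] [Module.Free ℤ L] :
    FF (MonoidAlgebra ℤ G) (Fin m → L) := by
  obtain ⟨h1, h2⟩ := latDual_lattice (G := G) L
  have h3 := chom_ff (CHom G L (Triv G)) (Fin m → Triv G) h
  exact ff_iso ((latPi (CHom G L (Triv G)) (Fin m)).trans
    (LinearEquiv.piCongrRight fun _ => latEquiv L)) h3

end Pool.Agent.Hhelper49.Srr
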