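import Pool.Agent.Hhelper49.Srr.GMod

/-!
# Module RatG: the map of permutation lattices

`G` acts on the finite sets `A`, `B` of the same cardinality, `M` an invariant integer matrix with
injective `v ↦ M v`.  `ι f (b) = ∑_a M b a • f(a)` is `ℤ[G]`-linear `PMap G A (Triv G) → PMap G B (Triv G)`
and injective, and its cokernel is finite: both lattices have the same rank (`Nat.card A = Nat.card B`), so
the cokernel is a finitely generated torsion group.
-/

namespace Pool.Agent.Hhelper49.Srr

namespace RatGAux

variable (G : Type) [Group G] {A B : Type} [Fintype A] [Fintype B] [MulAction G A] [MulAction G B]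

/-- the additive map -/
def addI (M : Matrix B A ℤ) : PMap G A (Triv G) →+ PMap G B (Triv G) :=
  ((M.mulVecLin).toAddMonoidHom : (A → ℤ) →+ (B → ℤ))

theorem addI_fn (M : Matrix B A ℤ) (f : PMap G A (Triv G)) (b : B) :
    (addI G M f).fn b = ∑ a, M b a * (show ℤ from f.fn a) := rfl

theorem addI_act (M : Matrix B A ℤ) (hM : ∀ (g : G) (b : B) (a : A), M (g • b) (g • a) = M b a)
    (g : G) (f : PMap G A (Triv G)) : addI G M (act g f) = act g (addI G M f) := by
  apply PMap.ext
  intro b
  rw [PMap.act_apply, act_triv, addI_fn, addI_fn]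
  apply Fintype.sum_equiv (MulAction.toPerm g⁻¹)
  intro a
  rw [MulAction.toPerm_apply, hM, PMap.act_apply, act_triv]

/-- over `ℤ`, an injective matrix with as many columns as rows has a torsion cokernel -/
theorem exists_mul_mem (M : Matrix B A ℤ) (hcard : Nat.card A = Nat.card B)
    (hinj : Function.Injective (fun v : A → ℤ => M.mulVec v)) :
    ∃ n : ℤ, n ≠ 0 ∧ ∀ y : B → ℤ, ∃ v : A → ℤ, M.mulVec v = n • y := by
  classical
  rw [Nat.card_eq_fintype_card, Nat.card_eq_fintype_card] at hcard
  let e : A ≃ B := Fintype.equivOfCardEq hcard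
  let N : Matrix B B ℤ := M.submatrix id e.symm
  have hN : ∀ v : B → ℤ, N.mulVec v = M.mulVec (v ∘ e) := by
    intro v
    funext b
    simp only [N, Matrix.mulVec, dotProduct, Matrix.submatrix_apply, id, Function.comp]
    apply Fintype.sum_equiv e.symm
    intro b'
    rw [Equiv.apply_symm_apply]
  have hdet : N.det ≠ 0 := by
    intro h
    obtain ⟨v, hv, hv0⟩ := Matrix.exists_mulVec_eq_zero_iff.2 h
    rw [hN] at hv0
    have h1 : v ∘ e = 0 := by
      apply hinj
      simp only
      rw [hv0, Matrix.mulVec_zero]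
    apply hv
    funext b
    have := congrFun h1 (e.symm b)
    simpa using this
  refine ⟨N.det, hdet, fun y => ⟨(N.adjugate.mulVec y) ∘ e, ?_⟩⟩
  rw [← hN, Matrix.mulVec_mulVec, Matrix.mul_adjugate, Matrix.smul_mulVec, Matrix.one_mulVec]

end RatGAux

open RatGAux in
theorem exists_iota (G : Type) [Group G] (A B : Type) [Fintype A] [Fintype B] [MulAction G A]
    [MulAction G B] (hcard : Nat.card A = Nat.card B) (M : Matrix B A ℤ)
    (hM : ∀ (g : G) (b : B) (a : A), M (g • b) (g • a) = M b a)
    (hinj : Function.Injective (fun v : A → ℤ => M.mulVec v)) :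
    ∃ ι : PMap G A (Triv G) →ₗ[MonoidAlgebra ℤ G] PMap G B (Triv G), Function.Injective ι ∧
      Finite (PMap G B (Triv G) ⧸ LinearMap.range ι) := by
  refine ⟨mkLin (addI G M) (addI_act G M hM), ?_, ?_⟩
  · intro f f' h
    exact hinj h
  · set ι := mkLin (addI G M) (addI_act G M hM) with hι
    obtain ⟨n, hn, hmem⟩ := exists_mul_mem M hcard hinj
    have hfin : Module.Finite ℤ (PMap G B (Triv G)) :=
      inferInstanceAs (Module.Finite ℤ (B → ℤ))
    have hfq : Module.Finite ℤ (PMap G B (Triv G) ⧸ LinearMap.range ι) :=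
      Module.Finite.of_surjective
        ((LinearMap.range ι).mkQ.toAddMonoidHom.toIntLinearMap)
        (Submodule.mkQ_surjective _)
    have htor : Module.IsTorsion ℤ (PMap G B (Triv G) ⧸ LinearMap.range ι) := by
      intro x
      obtain ⟨y, rfl⟩ := Submodule.mkQ_surjective _ x
      refine ⟨⟨n, mem_nonZeroDivisors_of_ne_zero hn⟩, ?_⟩
      change n • (LinearMap.range ι).mkQ y = 0
      rw [← map_zsmul, Submodule.mkQ_apply, Submodule.Quotient.mk_eq_zero]
      obtain ⟨v, hv⟩ := hmem y
      exact ⟨v, hv⟩
    exact Module.finite_of_fg_torsion _ htor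

end Pool.Agent.Hhelper49.Srr
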