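import Mathlib

/-!
# Module RatQ: equal permutation characters give a rational isomorphism

`Q` finite group, `A`, `B` finite `Q`-sets with `|A^g| = |B^g|` for all `g`.  Then there is an integer matrix
`M : B × A → ℤ` with `M (g b) (g a) = M b a` and injective `v ↦ M v`.

Proof.  Let `M` be an invariant rational matrix of maximal rank, `N₀` with `M N₀ M = M`, `N` the average of
`N₀`, so `N` is invariant and `M N M = M`; `e = 1 - N M`, `f = 1 - M N` are invariant idempotents with
`M e = 0`, `f M = 0`, and `tr (e ρ_A g) = tr (f ρ_B g)` because `tr (N M ρ_A g) = tr (N ρ_B g M)`.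
If `e ≠ 0`, the projection `X ↦ e av(X) e` has positive trace
`1/|Q| ∑ tr (e ρ_A g) tr (ρ_A g⁻¹ e)`, which is also the trace of `X ↦ f av(X) e`; hence some invariant
`f X e ≠ 0`, and `M + f X e` has larger rank, a contradiction.  So `N M = 1`.
Multiply by a common denominator.
-/

namespace Pool.Agent.Hhelper49.Srr

namespace RatQ

open Matrix

/-- trace of an endomorphism of a space of matrices -/
lemma trace_mat {A B : Type} [Fintype A] [Fintype B] [DecidableEq A] [DecidableEq B]
    (F : Matrix B A ℚ →ₗ[ℚ] Matrix B A ℚ) :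
    LinearMap.trace ℚ (Matrix B A ℚ) F = ∑ b, ∑ a, F (Matrix.single b a 1) b a := by
  rw [LinearMap.trace_eq_matrix_trace ℚ (Matrix.stdBasis ℚ B A) F, Matrix.trace,
    Fintype.sum_prod_type]
  apply Finset.sum_congr rfl
  intro b _
  apply Finset.sum_congr rfl
  intro a _
  rw [Matrix.diag_apply, LinearMap.toMatrix_apply, Matrix.stdBasis_eq_single]
  rfl

/-- `X ↦ P X Q` -/
def conjL {A B : Type} [Fintype A] [Fintype B] [DecidableEq A] [DecidableEq B]
    (P : Matrix B B ℚ) (R : Matrix A A ℚ) : Matrix B A ℚ →ₗ[ℚ] Matrix B A ℚ where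
  toFun X := P * X * R
  map_add' X Y := by rw [Matrix.mul_add, Matrix.add_mul]
  map_smul' c X := by simp

lemma trace_conjL {A B : Type} [Fintype A] [Fintype B] [DecidableEq A] [DecidableEq B]
    (P : Matrix B B ℚ) (R : Matrix A A ℚ) :
    LinearMap.trace ℚ (Matrix B A ℚ) (conjL P R) = P.trace * R.trace := by
  rw [trace_mat, Matrix.trace, Matrix.trace, Finset.sum_mul_sum]
  apply Finset.sum_congr rfl
  intro b _
  apply Finset.sum_congr rfl
  intro a _
  simp [conjL, Matrix.mul_apply, Matrix.single_apply, Finset.sum_ite_eq, ite_and]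

section

variable {Q : Type} [Group Q]

/-- permutation matrix -/
def pm (A : Type) [DecidableEq A] [MulAction Q A] (g : Q) : Matrix A A ℚ :=
  Matrix.of fun a a' => if a = g • a' then 1 else 0

variable {A B : Type} [Fintype A] [Fintype B] [DecidableEq A] [DecidableEq B] [MulAction Q A]
  [MulAction Q B]

lemma pm_mul (g : Q) (X : Matrix B A ℚ) (b : B) (a : A) :
    (pm B g * X) b a = X (g⁻¹ • b) a := by
  rw [Matrix.mul_apply, Finset.sum_eq_single (g⁻¹ • b)]
  · simp [pm]
  · intro b' _ hb'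
    have : b ≠ g • b' := by
      rintro rfl
      exact hb' (by simp)
    simp [pm, this]
  · simp

lemma mul_pm (g : Q) (X : Matrix B A ℚ) (b : B) (a : A) :
    (X * pm A g) b a = X b (g • a) := by
  rw [Matrix.mul_apply, Finset.sum_eq_single (g • a)]
  · simp [pm]
  · intro a' _ ha'
    simp [pm, ha']
  · simp

lemma trace_pm (g : Q) : (pm A g).trace = (Nat.card {a : A // g • a = a} : ℚ) := by
  rw [Matrix.trace]
  simp only [Matrix.diag_apply, pm, Matrix.of_apply]
  rw [Finset.sum_ite, Finset.sum_const_zero, add_zero, Finset.sum_const, nsmul_eq_mul, mul_one,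
    Nat.card_eq_fintype_card, Fintype.card_subtype]
  congr 2
  ext a
  simp only [Finset.mem_filter, Finset.mem_univ, true_and]
  exact eq_comm

/-- invariant matrices -/
def Inv (X : Matrix B A ℚ) : Prop := ∀ g : Q, pm B g * X = X * pm A g

lemma inv_iff (X : Matrix B A ℚ) :
    Inv (Q := Q) X ↔ ∀ (g : Q) (b : B) (a : A), X (g • b) (g • a) = X b a := by
  constructor
  · intro h g b a
    have h1 := congrFun (congrFun (h g) (g • b)) a
    rw [pm_mul, mul_pm, inv_smul_smul] at h1
    exact h1.symm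
  · intro h g
    ext b a
    rw [pm_mul, mul_pm]
    have h1 := h g (g⁻¹ • b) a
    rw [smul_inv_smul] at h1
    exact h1.symm

variable [Fintype Q]

/-- averaging -/
noncomputable def av : Matrix B A ℚ →ₗ[ℚ] Matrix B A ℚ :=
  (Fintype.card Q : ℚ)⁻¹ • ∑ g : Q, conjL (pm B g) (pm A g⁻¹)

lemma av_apply (X : Matrix B A ℚ) (b : B) (a : A) :
    av (Q := Q) X b a = (Fintype.card Q : ℚ)⁻¹ * ∑ g : Q, X (g⁻¹ • b) (g⁻¹ • a) := by
  have h1 : ∀ g : Q, (conjL (pm B g) (pm A g⁻¹) X) b a = X (g⁻¹ • b) (g⁻¹ • a) := by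
    intro g
    change (pm B g * X * pm A g⁻¹) b a = _
    rw [mul_pm, pm_mul]
  rw [av, LinearMap.smul_apply, LinearMap.sum_apply, Matrix.smul_apply, Matrix.sum_apply,
    smul_eq_mul]
  congr 1
  exact Finset.sum_congr rfl fun g _ => h1 g

lemma card_ne : (Fintype.card Q : ℚ) ≠ 0 := by
  exact_mod_cast Fintype.card_ne_zero

lemma inv_av (X : Matrix B A ℚ) : Inv (Q := Q) (av (Q := Q) X) := by
  rw [inv_iff]
  intro g b a
  rw [av_apply, av_apply]
  congr 1
  refine Fintype.sum_equiv (Equiv.mulLeft g⁻¹) _ _ fun k => ?_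
  simp [mul_smul]

lemma av_of_inv (X : Matrix B A ℚ) (h : Inv (Q := Q) X) : av (Q := Q) X = X := by
  rw [inv_iff] at h
  ext b a
  rw [av_apply]
  have h1 : ∀ g : Q, X (g⁻¹ • b) (g⁻¹ • a) = X b a := fun g => h g⁻¹ b a
  rw [Finset.sum_congr rfl (fun g _ => h1 g), Finset.sum_const, nsmul_eq_mul, ← mul_assoc,
    Finset.card_univ, inv_mul_cancel₀ card_ne, one_mul]

omit [Fintype Q] in
lemma inv_mul {C : Type} [Fintype C] [DecidableEq C] [MulAction Q C] {X : Matrix B A ℚ}
    {Y : Matrix A C ℚ} (hX : Inv (Q := Q) X) (hY : Inv (Q := Q) Y) : Inv (Q := Q) (X * Y) := by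
  intro g
  rw [← Matrix.mul_assoc, hX g, Matrix.mul_assoc, hY g, Matrix.mul_assoc]

omit [Fintype Q] [Fintype A] in
lemma inv_one : Inv (Q := Q) (1 : Matrix B B ℚ) := by
  intro g
  rw [Matrix.mul_one, Matrix.one_mul]

omit [Fintype Q] in
lemma inv_sub {X Y : Matrix B A ℚ} (hX : Inv (Q := Q) X) (hY : Inv (Q := Q) Y) :
    Inv (Q := Q) (X - Y) := by
  intro g
  rw [Matrix.mul_sub, Matrix.sub_mul, hX g, hY g]

omit [Fintype Q] in
lemma inv_add {X Y : Matrix B A ℚ} (hX : Inv (Q := Q) X) (hY : Inv (Q := Q) Y) :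
    Inv (Q := Q) (X + Y) := by
  intro g
  rw [Matrix.mul_add, Matrix.add_mul, hX g, hY g]

/-- averaging commutes with invariant matrices -/
lemma av_mul {C : Type} [Fintype C] [DecidableEq C] [MulAction Q C] {X : Matrix B A ℚ}
    {Y : Matrix A C ℚ} (hX : Inv (Q := Q) X) : av (Q := Q) (X * Y) = X * av (Q := Q) Y := by
  have h1 : ∀ g : Q, conjL (pm B g) (pm C g⁻¹) (X * Y) = X * conjL (pm A g) (pm C g⁻¹) Y := by
    intro g
    change pm B g * (X * Y) * pm C g⁻¹ = X * (pm A g * Y * pm C g⁻¹)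
    rw [← Matrix.mul_assoc, hX g]
    simp only [Matrix.mul_assoc]
  rw [av, av, LinearMap.smul_apply, LinearMap.sum_apply, LinearMap.smul_apply,
    LinearMap.sum_apply, Finset.sum_congr rfl (fun g _ => h1 g), Matrix.mul_smul, Matrix.mul_sum]

lemma mul_av {C : Type} [Fintype C] [DecidableEq C] [MulAction Q C] {X : Matrix B A ℚ}
    {Y : Matrix A C ℚ} (hY : Inv (Q := Q) Y) : av (Q := Q) (X * Y) = av (Q := Q) X * Y := by
  have h1 : ∀ g : Q, conjL (pm B g) (pm C g⁻¹) (X * Y) = conjL (pm B g) (pm A g⁻¹) X * Y := by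
    intro g
    change pm B g * (X * Y) * pm C g⁻¹ = (pm B g * X * pm A g⁻¹) * Y
    rw [Matrix.mul_assoc, Matrix.mul_assoc X, ← hY g⁻¹]
    simp only [Matrix.mul_assoc]
  rw [av, av, LinearMap.smul_apply, LinearMap.sum_apply, LinearMap.smul_apply,
    LinearMap.sum_apply, Finset.sum_congr rfl (fun g _ => h1 g), Matrix.smul_mul, Matrix.sum_mul]

/-- the trace of `X ↦ P av(X) R` -/
lemma trace_T (P : Matrix B B ℚ) (R : Matrix A A ℚ) :
    LinearMap.trace ℚ (Matrix B A ℚ) (conjL P R ∘ₗ av (Q := Q)) =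
      (Fintype.card Q : ℚ)⁻¹ * ∑ g : Q, (P * pm B g).trace * (pm A g⁻¹ * R).trace := by
  have h1 : conjL P R ∘ₗ av (Q := Q) = (Fintype.card Q : ℚ)⁻¹ •
      ∑ g : Q, conjL (P * pm B g) (pm A g⁻¹ * R) := by
    apply LinearMap.ext
    intro X
    rw [av]
    simp only [LinearMap.comp_apply, LinearMap.smul_apply, LinearMap.sum_apply, map_smul, map_sum]
    congr 1
    apply Finset.sum_congr rfl
    intro g _
    change P * (pm B g * X * pm A g⁻¹) * R = P * pm B g * X * (pm A g⁻¹ * R)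
    simp only [Matrix.mul_assoc]
  rw [h1, map_smul, map_sum, smul_eq_mul]
  congr 1
  exact Finset.sum_congr rfl fun g _ => trace_conjL _ _

/-- Every matrix over a field has a generalised inverse. -/
lemma exists_ginv (M : Matrix B A ℚ) : ∃ N : Matrix A B ℚ, M * N * M = M := by
  set f : (A → ℚ) →ₗ[ℚ] (B → ℚ) := Matrix.toLin' M with hf
  obtain ⟨h, hh⟩ := f.rangeRestrict.exists_rightInverse_of_surjective
    (LinearMap.range_eq_top.2 f.surjective_rangeRestrict)
  obtain ⟨N, hN⟩ := LinearMap.exists_extend h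
  refine ⟨LinearMap.toMatrix' N, ?_⟩
  apply Matrix.toLin'.injective
  rw [Matrix.toLin'_mul, Matrix.toLin'_mul, Matrix.toLin'_toMatrix', ← hf]
  apply LinearMap.ext
  intro v
  simp only [LinearMap.comp_apply]
  have h1 : N (f v) = h (f.rangeRestrict v) := by
    have := LinearMap.congr_fun hN (f.rangeRestrict v)
    simpa using this
  rw [h1]
  have h2 := LinearMap.congr_fun hh (f.rangeRestrict v)
  have h3 := congrArg Subtype.val h2
  simpa using h3

lemma exists_step (h : ∀ g : Q, Nat.card {a : A // g • a = a} = Nat.card {b : B // g • b = b})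
    (M : Matrix B A ℚ) (hM : Inv (Q := Q) M) :
    (∃ N : Matrix A B ℚ, N * M = 1) ∨
      ∃ M' : Matrix B A ℚ, Inv (Q := Q) M' ∧ M.rank < M'.rank := by
  classical
  obtain ⟨N₀, hN₀⟩ := exists_ginv M
  set N := av (Q := Q) N₀ with hN
  have hNi : Inv (Q := Q) N := inv_av N₀
  have hMNM : M * N * M = M := by
    have h1 := congrArg (av (Q := Q)) hN₀
    rw [mul_av hM, av_mul hM, av_of_inv M hM] at h1
    exact h1
  set e : Matrix A A ℚ := 1 - N * M with he
  set f : Matrix B B ℚ := 1 - M * N with hf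
  have hei : Inv (Q := Q) e := inv_sub inv_one (inv_mul hNi hM)
  have hMe : M * e = 0 := by
    rw [he, Matrix.mul_sub, Matrix.mul_one, ← Matrix.mul_assoc, hMNM, sub_self]
  have hfM : f * M = 0 := by
    rw [hf, Matrix.sub_mul, Matrix.one_mul, hMNM, sub_self]
  have hee : e * e = e := by
    nth_rewrite 1 [he]
    rw [Matrix.sub_mul, Matrix.one_mul, Matrix.mul_assoc, hMe, Matrix.mul_zero, sub_zero]
  have hff : f * f = f := by
    nth_rewrite 2 [hf]
    rw [Matrix.mul_sub, Matrix.mul_one, ← Matrix.mul_assoc, hfM, Matrix.zero_mul, sub_zero]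
  by_cases he0 : e = 0
  · left
    refine ⟨N, ?_⟩
    rw [he] at he0
    exact (sub_eq_zero.1 he0).symm
  right
  -- traces
  have htr : ∀ g : Q, (f * pm B g).trace = (e * pm A g).trace := by
    intro g
    rw [he, hf, Matrix.sub_mul, Matrix.sub_mul, Matrix.one_mul, Matrix.one_mul, Matrix.trace_sub,
      Matrix.trace_sub, trace_pm, trace_pm, h g]
    congr 1
    calc (M * N * pm B g).trace = (pm B g * (M * N)).trace := Matrix.trace_mul_comm _ _
      _ = ((pm B g * M) * N).trace := by rw [Matrix.mul_assoc]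
      _ = (N * (pm B g * M)).trace := Matrix.trace_mul_comm _ _
      _ = (N * M * pm A g).trace := by rw [hM g, Matrix.mul_assoc]
  have ht1 : LinearMap.trace ℚ (Matrix A A ℚ) (conjL e e ∘ₗ av (Q := Q)) ≠ 0 := by
    have hid : IsIdempotentElem (conjL e e ∘ₗ av (Q := Q) : Matrix A A ℚ →ₗ[ℚ] Matrix A A ℚ) := by
      apply LinearMap.ext
      intro X
      change e * av (Q := Q) (e * av (Q := Q) X * e) * e = e * av (Q := Q) X * e
      rw [mul_av hei, av_mul hei, av_of_inv _ (inv_av X)]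
      rw [← Matrix.mul_assoc, ← Matrix.mul_assoc, hee, Matrix.mul_assoc, hee]
    intro h0
    have h1 := LinearMap.IsIdempotentElem.eq_zero_of_trace_eq_zero hid h0
    have h2 := LinearMap.congr_fun h1 e
    have h3 : e * av (Q := Q) e * e = 0 := h2
    rw [av_of_inv e hei, hee, hee] at h3
    exact he0 h3
  have ht2 : LinearMap.trace ℚ (Matrix B A ℚ) (conjL f e ∘ₗ av (Q := Q)) ≠ 0 := by
    rw [trace_T] at ht1 ⊢
    rw [Finset.sum_congr rfl fun g _ => by rw [htr g]]
    exact ht1
  have hex : ∃ X : Matrix B A ℚ, f * av (Q := Q) X * e ≠ 0 := by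
    by_contra hcon
    push Not at hcon
    apply ht2
    have : conjL f e ∘ₗ av (Q := Q) = (0 : Matrix B A ℚ →ₗ[ℚ] Matrix B A ℚ) :=
      LinearMap.ext hcon
    rw [this, map_zero]
  obtain ⟨X, hX⟩ := hex
  set Y : Matrix B A ℚ := f * av (Q := Q) X * e with hY
  have hfi : Inv (Q := Q) f := inv_sub inv_one (inv_mul hM hNi)
  have hYi : Inv (Q := Q) Y := inv_mul (inv_mul hfi (inv_av X)) hei
  refine ⟨M + Y, inv_add hM hYi, ?_⟩
  have heN : e * (N * M) = 0 := by
    have h1 : N * M = 1 - e := by rw [he]; abel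
    rw [h1, Matrix.mul_sub, Matrix.mul_one, hee, sub_self]
  have hYN : Y * (N * M) = 0 := by
    rw [hY, Matrix.mul_assoc, heN, Matrix.mul_zero]
  have hM'NM : (M + Y) * (N * M) = M := by
    rw [Matrix.add_mul, hYN, add_zero, ← Matrix.mul_assoc, hMNM]
  have hM'e : (M + Y) * e = Y := by
    rw [Matrix.add_mul, hMe, zero_add, hY, Matrix.mul_assoc, hee]
  have hfY : f * Y = Y := by
    rw [hY, ← Matrix.mul_assoc, ← Matrix.mul_assoc, hff]
  unfold Matrix.rank
  apply Submodule.finrank_lt_finrank_of_lt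
  constructor
  · rintro _ ⟨v, rfl⟩
    refine ⟨(N * M).mulVec v, ?_⟩
    rw [Matrix.mulVecLin_apply, Matrix.mulVecLin_apply, Matrix.mulVec_mulVec, hM'NM]
  · intro hle
    apply hX
    apply Matrix.toLin'.injective
    rw [map_zero]
    apply LinearMap.ext
    intro v
    rw [Matrix.toLin'_apply, LinearMap.zero_apply]
    have h1 : Y.mulVec v ∈ LinearMap.range (M + Y).mulVecLin := by
      refine ⟨e.mulVec v, ?_⟩
      rw [Matrix.mulVecLin_apply, Matrix.mulVec_mulVec, hM'e]
    obtain ⟨u, hu⟩ := hle h1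
    rw [Matrix.mulVecLin_apply] at hu
    rw [← hfY, ← Matrix.mulVec_mulVec, ← hu, Matrix.mulVec_mulVec, hfM, Matrix.zero_mulVec]

lemma exists_rat (h : ∀ g : Q, Nat.card {a : A // g • a = a} = Nat.card {b : B // g • b = b}) :
    ∃ (M : Matrix B A ℚ) (N : Matrix A B ℚ), Inv (Q := Q) M ∧ N * M = 1 := by
  classical
  -- maximal rank
  have hbdd : ∀ M : Matrix B A ℚ, M.rank ≤ Fintype.card A := fun M => Matrix.rank_le_card_width M
  have hex : ∃ M : Matrix B A ℚ, Inv (Q := Q) M ∧
      ∀ M' : Matrix B A ℚ, Inv (Q := Q) M' → M'.rank ≤ M.rank := by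
    have h0 : ∃ k : ℕ, ∃ M : Matrix B A ℚ, Inv (Q := Q) M ∧ Fintype.card A - M.rank = k :=
      ⟨_, av (Q := Q) 0, inv_av 0, rfl⟩
    obtain ⟨M, hM, hMk⟩ := Nat.find_spec h0
    refine ⟨M, hM, fun M' hM' => ?_⟩
    have h1 := Nat.find_min' h0 ⟨M', hM', rfl⟩
    have h2 := hbdd M
    have h3 := hbdd M'
    omega
  obtain ⟨M, hM, hmax⟩ := hex
  rcases exists_step h M hM with ⟨N, hN⟩ | ⟨M', hM', hlt⟩
  · exact ⟨M, N, hM, hN⟩
  · exact absurd (hmax M' hM') (not_le.2 hlt)

end

end RatQ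

open RatQ in
theorem exists_matrix (Q : Type) [Group Q] [Finite Q] (A B : Type) [Fintype A] [Fintype B]
    [DecidableEq A] [DecidableEq B] [MulAction Q A] [MulAction Q B]
    (h : ∀ g : Q, Nat.card {a : A // g • a = a} = Nat.card {b : B // g • b = b}) :
    ∃ M : Matrix B A ℤ, (∀ (g : Q) (b : B) (a : A), M (g • b) (g • a) = M b a) ∧
      Function.Injective (fun v : A → ℤ => M.mulVec v) := by
  classical
  have : Fintype Q := Fintype.ofFinite Q
  obtain ⟨M, N, hM, hN⟩ := exists_rat (Q := Q) (A := A) (B := B) h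
  rw [inv_iff] at hM
  set D : ℕ := ∏ p : B × A, (M p.1 p.2).den with hD
  have hD0 : (D : ℚ) ≠ 0 := by
    have : D ≠ 0 := Finset.prod_ne_zero_iff.2 fun p _ => (M p.1 p.2).den_nz
    exact_mod_cast this
  have hint : ∀ b a, ((M b a * D).num : ℚ) = M b a * D := by
    intro b a
    have h1 : (M b a).den ∣ D := Finset.dvd_prod_of_mem (fun p : B × A => (M p.1 p.2).den)
      (Finset.mem_univ (b, a))
    obtain ⟨c, hc⟩ := h1
    have h2 : M b a * D = (((M b a).num * c : ℤ) : ℚ) := by
      rw [hc]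
      push_cast
      rw [← mul_assoc, Rat.mul_den_eq_num]
    rw [h2, Rat.num_intCast]
  refine ⟨Matrix.of fun b a => (M b a * D).num, fun g b a => ?_, ?_⟩
  · simp only [Matrix.of_apply]
    rw [hM]
  · intro v w hvw
    have h1 : ∀ u : A → ℤ, ∀ b, (((Matrix.of fun b a => (M b a * D).num).mulVec u b : ℤ) : ℚ) =
        D * M.mulVec (fun a => (u a : ℚ)) b := by
      intro u b
      simp only [Matrix.mulVec, dotProduct, Matrix.of_apply]
      push_cast
      rw [Finset.mul_sum]
      apply Finset.sum_congr rfl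
      intro a _
      rw [hint]
      ring
    have h2 : M.mulVec (fun a => (v a : ℚ)) = M.mulVec (fun a => (w a : ℚ)) := by
      funext b
      have h3 := congrFun hvw b
      simp only at h3
      have h4 := h1 v b
      rw [h3, h1 w b] at h4
      exact (mul_left_cancel₀ hD0 h4).symm
    have h5 := congrArg N.mulVec h2
    rw [Matrix.mulVec_mulVec, Matrix.mulVec_mulVec, hN, Matrix.one_mulVec, Matrix.one_mulVec] at h5
    funext a
    have := congrFun h5 a
    exact_mod_cast this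

end Pool.Agent.Hhelper49.Srr
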