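import Pool.Agent.Hhelper49.Srr.GDefs

/-!
# Module Sol: the `p`-local induction theorem of Solomon (permutation characters)

For a finite group `Q` and a prime `p` there are `n ≥ 1` prime to `p` and finite `Q`-sets `X`, `Y` with
`p`-hyperelementary stabilizers such that `n + |X^g| = |Y^g|` for all `g ∈ Q`.

Proof (Banaschewski).  Let `A` be the set of functions `Q → ℤ` of the form
`g ↦ |Y^g| - |X^g|`, `X`, `Y` finite `Q`-sets with `p`-hyperelementary stabilizers.  `A` is closed under sums,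
negation (disjoint unions) and products (`X × Y` has stabilizers `Q_x ∩ Q_y`; subgroups of
`p`-hyperelementary groups are `p`-hyperelementary: `C ∩ H'` is cyclic normal of order prime to `p` and
`H' / (C ∩ H')` embeds in `H / C`).

(1) For every `x ∈ Q` there is `f ∈ A` with `f(x)` prime to `p`: let `C` be the subgroup of elements of order
prime to `p` of `⟨x⟩`, `N` its normaliser, `H / C` a Sylow `p`-subgroup of `N / C` containing the image of `x`
(which has `p`-power order).  `H` is `p`-hyperelementary.  `f = ` permutation character of `Q / H`.  If `x g H = g H`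
then `g⁻¹ x g ∈ H`, so `g⁻¹ C g ≤ H`; as `C` is the set of all elements of `H` of order prime to `p`,
`g⁻¹ C g = C` and `g ∈ N`.  So the number of fixed points is the number of fixed points of `x` on
`N / H`, on which `C` acts trivially, so `x` acts as an element of `p`-power order, so this number is
congruent to `|N / H|` modulo `p`, which is prime to `p`.

(2) `u = 1 - ∏_x (1 - f_x^(p-1))` is in `A` (expand the product: no constant term; formally: the set of
functions `v` with `1 - v ∈ A` is closed under products) and `u(y) ≡ 1 mod p` for all `y`.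

(3) Let `v_1, .., v_k` be the values of `u`.  The polynomial `∏ (v_j - t)` vanishes at `t = u`; its
expansion `∏ v_j - t·(...)` shows that the constant function `n' = ∏ v_j` is in `A`, and `n'` is prime
to `p`.  Replace `n'` by `n' ^ 2` to have it positive.
-/

namespace Pool.Agent.Hhelper49.Srr

theorem card_mul_relIndex {Q : Type} [Group Q] {C H : Subgroup Q} (h : C ≤ H) :
    Nat.card C * C.relIndex H = Nat.card H := by
  rw [← Subgroup.relIndex_bot_left C, ← Subgroup.relIndex_bot_left H]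
  exact Subgroup.relIndex_mul_relIndex ⊥ C H bot_le h

/-- reformulation with the relative index -/
theorem isHyp_iff (p : ℕ) {Q : Type} [Group Q] [Finite Q] (H : Subgroup Q) :
    IsHyp p H ↔ ∃ C : Subgroup Q, C ≤ H ∧ (∀ h ∈ H, ∀ c ∈ C, h * c * h⁻¹ ∈ C) ∧ IsCyclic C ∧
      (Nat.card C).Coprime p ∧ ∃ k : ℕ, C.relIndex H = p ^ k := by
  constructor
  · rintro ⟨C, h1, h2, h3, h4, k, hk⟩
    refine ⟨C, h1, h2, h3, h4, k, ?_⟩
    have := card_mul_relIndex h1
    rw [hk] at this
    exact Nat.eq_of_mul_eq_mul_left Nat.card_pos this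
  · rintro ⟨C, h1, h2, h3, h4, k, hk⟩
    exact ⟨C, h1, h2, h3, h4, k, by rw [← card_mul_relIndex h1, hk]⟩

theorem IsHyp.mono {p : ℕ} (hp : p.Prime) {Q : Type} [Group Q] [Finite Q] {H H' : Subgroup Q}
    (hH : IsHyp p H) (hle : H' ≤ H) : IsHyp p H' := by
  rw [isHyp_iff] at hH ⊢
  obtain ⟨C, h1, h2, h3, h4, k, hk⟩ := hH
  refine ⟨C ⊓ H', inf_le_right, ?_, ?_, ?_, ?_⟩
  · intro h hh c hc
    exact ⟨h2 h (hle hh) c hc.1, H'.mul_mem (H'.mul_mem hh hc.2) (H'.inv_mem hh)⟩
  · exact isCyclic_of_injective (Subgroup.inclusion (inf_le_left : C ⊓ H' ≤ C))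
      (Subgroup.inclusion_injective _)
  · exact Nat.Coprime.coprime_dvd_left (Subgroup.card_dvd_of_le inf_le_left) h4
  · have hn : (C.subgroupOf H).Normal := by
      refine ⟨fun c hc h => ?_⟩
      rw [Subgroup.mem_subgroupOf] at hc ⊢
      exact h2 h h.2 c hc
    have h5 : C.relIndex H' ∣ C.relIndex H := by
      rw [← Subgroup.relIndex_subgroupOf hle]
      exact Subgroup.relIndex_dvd_index_of_normal _ _
    rw [hk, Nat.dvd_prime_pow hp] at h5
    obtain ⟨j, -, hj⟩ := h5
    exact ⟨j, by rw [Subgroup.inf_relIndex_right, hj]⟩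

theorem IsHyp.conj {p : ℕ} {Q : Type} [Group Q] [Finite Q] {H : Subgroup Q} (hH : IsHyp p H)
    (f : Q ≃* Q) : IsHyp p (H.map f.toMonoidHom) := by
  rw [isHyp_iff] at hH ⊢
  obtain ⟨C, h1, h2, h3, h4, k, hk⟩ := hH
  have hf : Function.Injective f.toMonoidHom := f.injective
  refine ⟨C.map f.toMonoidHom, Subgroup.map_mono h1, ?_, ?_, ?_, k, ?_⟩
  · rintro _ ⟨h, hh, rfl⟩ _ ⟨c, hc, rfl⟩
    exact ⟨h * c * h⁻¹, h2 h hh c hc, by simp⟩
  · exact isCyclic_of_surjective (C.equivMapOfInjective _ hf) (C.equivMapOfInjective _ hf).surjective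
  · rw [← Nat.card_congr (C.equivMapOfInjective _ hf).toEquiv]
    exact h4
  · rw [Subgroup.relIndex_map_map_of_injective _ _ hf, hk]

/-- the set of differences of permutation characters with hyperelementary stabilizers -/
def PC (p : ℕ) (Q : Type) [Group Q] (f : Q → ℕ) : Prop :=
  ∃ (X : Type) (_ : Finite X) (_ : MulAction Q X), (∀ x : X, IsHyp p (MulAction.stabilizer Q x)) ∧
    ∀ g : Q, f g = Nat.card {x : X // g • x = x}

theorem PC.zero (p : ℕ) (Q : Type) [Group Q] : PC p Q 0 :=
  ⟨Empty, inferInstance, { smul := fun _ x => x, one_smul := fun x => rfl, mul_smul := fun _ _ x => rfl },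
    fun x => x.elim, fun g => by simp⟩

theorem PC.add {p : ℕ} {Q : Type} [Group Q] {f f' : Q → ℕ} (hf : PC p Q f) (hf' : PC p Q f') :
    PC p Q (f + f') := by
  obtain ⟨X, hX, aX, h1, h2⟩ := hf
  obtain ⟨Y, hY, aY, h3, h4⟩ := hf'
  refine ⟨X ⊕ Y, inferInstance, inferInstance, ?_, ?_⟩
  · rintro (x | y)
    · have : MulAction.stabilizer Q (Sum.inl x : X ⊕ Y) = MulAction.stabilizer Q x := by
        ext g; simp [MulAction.mem_stabilizer_iff, Sum.smul_inl]
      rw [this]; exact h1 x
    · have : MulAction.stabilizer Q (Sum.inr y : X ⊕ Y) = MulAction.stabilizer Q y := by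
        ext g; simp [MulAction.mem_stabilizer_iff, Sum.smul_inr]
      rw [this]; exact h3 y
  · intro g
    rw [Pi.add_apply, h2, h4, ← Nat.card_sum]
    refine Nat.card_congr ?_
    refine { toFun := Sum.elim (fun x => ⟨Sum.inl x.1, by rw [Sum.smul_inl, x.2]⟩)
               (fun y => ⟨Sum.inr y.1, by rw [Sum.smul_inr, y.2]⟩),
             invFun := fun z => match z with
               | ⟨Sum.inl x, hx⟩ => Sum.inl ⟨x, by simpa [Sum.smul_inl] using hx⟩
               | ⟨Sum.inr y, hy⟩ => Sum.inr ⟨y, by simpa [Sum.smul_inr] using hy⟩,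
             left_inv := ?_, right_inv := ?_ }
    · rintro (x | y) <;> rfl
    · rintro ⟨x | y, h⟩ <;> rfl

theorem PC.mul {p : ℕ} (hp : p.Prime) {Q : Type} [Group Q] [Finite Q] {f f' : Q → ℕ}
    (hf : PC p Q f) (hf' : PC p Q f') : PC p Q (f * f') := by
  obtain ⟨X, hX, aX, h1, h2⟩ := hf
  obtain ⟨Y, hY, aY, h3, h4⟩ := hf'
  refine ⟨X × Y, inferInstance, inferInstance, ?_, ?_⟩
  · rintro ⟨x, y⟩
    refine (h1 x).mono hp ?_
    intro g hg
    rw [MulAction.mem_stabilizer_iff, Prod.smul_mk, Prod.mk.injEq] at hg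
    exact hg.1
  · intro g
    rw [Pi.mul_apply, h2, h4, ← Nat.card_prod]
    refine Nat.card_congr ?_
    refine { toFun := fun z => ⟨(z.1.1, z.2.1), by rw [Prod.smul_mk, z.1.2, z.2.2]⟩,
             invFun := fun z => (⟨z.1.1, congrArg Prod.fst z.2⟩, ⟨z.1.2, congrArg Prod.snd z.2⟩),
             left_inv := fun _ => rfl, right_inv := fun _ => rfl }

theorem PC.quot {p : ℕ} {Q : Type} [Group Q] [Finite Q] {H : Subgroup Q} (hH : IsHyp p H) :
    PC p Q (fun g => Nat.card {q : Q ⧸ H // g • q = q}) := by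
  refine ⟨Q ⧸ H, inferInstance, inferInstance, ?_, fun g => rfl⟩
  intro q
  obtain ⟨g, rfl⟩ := QuotientGroup.mk_surjective q
  have h1 : (QuotientGroup.mk g : Q ⧸ H) = g • (QuotientGroup.mk (1 : Q) : Q ⧸ H) := by
    rw [MulAction.Quotient.smul_mk, smul_eq_mul, mul_one]
  rw [h1, MulAction.stabilizer_smul_eq_stabilizer_map_conj]
  have h2 : MulAction.stabilizer Q (QuotientGroup.mk (1 : Q) : Q ⧸ H) = H :=
    MulAction.stabilizer_quotient H
  rw [h2]
  exact hH.conj (MulAut.conj g)

/-- the natural map `N / H' → Q / H` -/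
noncomputable def phi {Q : Type} [Group Q] (N : Subgroup Q) (H' : Subgroup N) :
    N ⧸ H' → Q ⧸ (H'.map N.subtype) :=
  Quotient.map' (fun n : N => (n : Q)) (fun a b h => by
    rw [QuotientGroup.leftRel_apply] at h ⊢
    exact ⟨a⁻¹ * b, h, by simp⟩)

theorem phi_mk {Q : Type} [Group Q] (N : Subgroup Q) (H' : Subgroup N) (n : N) :
    phi N H' (QuotientGroup.mk n) = QuotientGroup.mk (n : Q) := rfl

theorem phi_injective {Q : Type} [Group Q] (N : Subgroup Q) (H' : Subgroup N) :
    Function.Injective (phi N H') := by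
  intro a b
  obtain ⟨a, rfl⟩ := QuotientGroup.mk_surjective a
  obtain ⟨b, rfl⟩ := QuotientGroup.mk_surjective b
  intro h
  rw [phi_mk, phi_mk, QuotientGroup.eq] at h
  obtain ⟨c, hc, hc'⟩ := h
  rw [QuotientGroup.eq]
  have : c = a⁻¹ * b := Subtype.ext (by simpa using hc')
  rw [← this]; exact hc

theorem phi_smul {Q : Type} [Group Q] (N : Subgroup Q) (H' : Subgroup N) (x : N) (q : N ⧸ H') :
    phi N H' (x • q) = (x : Q) • phi N H' q := by
  obtain ⟨n, rfl⟩ := QuotientGroup.mk_surjective q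
  rfl

theorem exists_hyp_coprime {p : ℕ} (hp : p.Prime) {Q : Type} [Group Q] [Finite Q] (x : Q) :
    ∃ H : Subgroup Q, IsHyp p H ∧ (Nat.card {q : Q ⧸ H // x • q = q}).Coprime p := by
  classical
  have := Fact.mk hp
  obtain ⟨a, m, hm, hxo⟩ := Nat.exists_eq_pow_mul_and_not_dvd (orderOf_pos x).ne' p hp.ne_one
  set c : Q := x ^ p ^ a with hc
  have hco : orderOf c = m := by
    rw [hc, orderOf_pow_of_dvd (pow_ne_zero _ hp.ne_zero) (hxo ▸ dvd_mul_right _ _), hxo]
    exact Nat.mul_div_cancel_left _ (pow_pos hp.pos _)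
  have hcop : (orderOf c).Coprime p := by
    rw [hco]; exact ((Nat.Prime.coprime_iff_not_dvd hp).2 hm).symm
  set C : Subgroup Q := Subgroup.zpowers c with hC
  set N : Subgroup Q := Subgroup.normalizer (C : Set Q) with hN
  have hCN : C ≤ N := Subgroup.le_normalizer
  have hxN : x ∈ N := by
    rw [hN]
    refine Subgroup.mem_normalizer_iff.2 fun h => ?_
    have hcomm : ∀ z ∈ C, x * z * x⁻¹ = z := by
      intro z hz
      obtain ⟨k, rfl⟩ := Subgroup.mem_zpowers_iff.1 hz
      have : Commute x (c ^ k) := ((Commute.refl x).pow_right _).zpow_right k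
      rw [this.eq]; simp
    constructor
    · intro hh
      have : x * h * x⁻¹ ∈ C := by rw [hcomm h hh]; exact hh
      exact this
    · intro hh
      have h1 := hcomm _ hh
      have h2 : x * h * x⁻¹ = h := by
        have h3 : x * (x * h * x⁻¹) * x⁻¹ = x * h * x⁻¹ := h1
        have h4 : x * h * x⁻¹ = h := by
          have := congrArg (fun t => x⁻¹ * t * x) h3
          simpa [mul_assoc] using this
        exact h4
      rw [h2] at hh
      exact hh
  have hnorm : (C.subgroupOf N).Normal := Subgroup.normal_in_normalizer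
  set π := QuotientGroup.mk' (C.subgroupOf N) with hπ
  have hπs : Function.Surjective π := QuotientGroup.mk'_surjective _
  have hker : π.ker = C.subgroupOf N := QuotientGroup.ker_mk' _
  set x' : N := ⟨x, hxN⟩ with hx'
  have hx'pow : x' ^ p ^ a = ⟨c, hCN (Subgroup.mem_zpowers c)⟩ := Subtype.ext (by simp [hx', hc])
  have hxb : (π x') ^ p ^ a = 1 := by
    rw [← map_pow, hx'pow, ← MonoidHom.mem_ker, hker, Subgroup.mem_subgroupOf]
    exact Subgroup.mem_zpowers c
  have hpg : IsPGroup p (Subgroup.zpowers (π x')) := by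
    rintro ⟨g, hg⟩
    obtain ⟨k, rfl⟩ := Subgroup.mem_zpowers_iff.1 hg
    refine ⟨a, Subtype.ext ?_⟩
    simp only [SubmonoidClass.mk_pow, Subgroup.coe_one]
    rw [← zpow_natCast, ← zpow_mul, mul_comm, zpow_mul, zpow_natCast, hxb, one_zpow]
  obtain ⟨P, hP⟩ := hpg.exists_le_sylow
  set H' : Subgroup N := (P : Subgroup _).comap π with hH'
  have hCH' : C.subgroupOf N ≤ H' := by
    rw [← hker]; exact Subgroup.ker_le_comap _ _
  have hmapC : (C.subgroupOf N).map N.subtype = C := by
    rw [Subgroup.subgroupOf_map_subtype, inf_eq_left.2 hCN]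
  refine ⟨H'.map N.subtype, ?_, ?_⟩
  · rw [isHyp_iff]
    refine ⟨C, ?_, ?_, ?_, ?_, ?_⟩
    · rw [← hmapC]; exact Subgroup.map_mono hCH'
    · rintro _ ⟨h, -, rfl⟩ z hz
      exact (Subgroup.mem_normalizer_iff.1 h.2 z).1 hz
    · rw [hC]; infer_instance
    · rw [hC, Nat.card_zpowers]; exact hcop
    · obtain ⟨k, hk⟩ := IsPGroup.iff_card.1 P.isPGroup'
      refine ⟨k, ?_⟩
      conv_lhs => rw [← hmapC]
      rw [Subgroup.relIndex_map_map_of_injective _ _ N.subtype_injective, ← hker,
        Subgroup.relIndex_ker, hH', Subgroup.map_comap_eq_self_of_surjective hπs]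
      exact hk
  · -- elements of `H` of order prime to `p` are in `C`
    have hA : ∀ h ∈ H', (orderOf (h : Q)).Coprime p → (h : Q) ∈ C := by
      intro h hh ho
      have h1 : orderOf (π h) ∣ orderOf (h : Q) := by
        rw [Subgroup.orderOf_coe]; exact orderOf_map_dvd π h
      obtain ⟨k, hk⟩ := P.isPGroup' ⟨π h, hh⟩
      have h2 : orderOf (π h) ∣ p ^ k := by
        rw [orderOf_dvd_iff_pow_eq_one]
        exact congrArg Subtype.val hk
      have h3 : orderOf (π h) = 1 :=
        Nat.eq_one_of_dvd_coprimes (Nat.Coprime.pow_right k ho) h1 h2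
      rw [orderOf_eq_one_iff, ← MonoidHom.mem_ker, hker, Subgroup.mem_subgroupOf] at h3
      exact h3
    have hB : ∀ g : Q, g⁻¹ * x * g ∈ H'.map N.subtype → g ∈ N := by
      intro g hg
      obtain ⟨h, hh, hhg⟩ := hg
      have h1 : ((h ^ p ^ a : N) : Q) = g⁻¹ * c * g := by
        have h2 : (h : Q) = g⁻¹ * x * g := hhg
        rw [Subgroup.coe_pow, h2, hc]
        have h3 := conj_pow (i := p ^ a) (a := g⁻¹) (b := x)
        rw [inv_inv] at h3
        exact h3
      have h4 : (orderOf ((h ^ p ^ a : N) : Q)).Coprime p := by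
        rw [h1]
        have h5 : g⁻¹ * c * g = MulAut.conj g⁻¹ c := by simp
        rw [h5, MulEquiv.orderOf_eq]
        exact hcop
      have h6 := hA _ (H'.pow_mem hh _) h4
      rw [h1] at h6
      have h7 : g⁻¹ ∈ N := by
        rw [hN]
        refine Subgroup.mem_normalizer_fintype ?_
        intro z hz
        obtain ⟨k, rfl⟩ := Subgroup.mem_zpowers_iff.1 hz
        have h8 : g⁻¹ * c ^ k * g⁻¹⁻¹ = (g⁻¹ * c * g⁻¹⁻¹) ^ k := (conj_zpow).symm
        rw [h8, inv_inv]
        exact C.zpow_mem h6 k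
      have := N.inv_mem h7
      rwa [inv_inv] at this
    -- the fixed points of `x` on `Q / H` are those of `x'` on `N / H'`
    have hC1 : Nat.card {q : Q ⧸ (H'.map N.subtype) // x • q = q} =
        Nat.card {q : N ⧸ H' // x' • q = q} := by
      symm
      refine Nat.card_congr (Equiv.ofBijective
        (fun q => ⟨phi N H' q.1, by
          have := phi_smul N H' x' q.1
          rw [q.2] at this
          exact this.symm⟩) ⟨?_, ?_⟩)
      · intro q q' h
        exact Subtype.ext (phi_injective N H' (congrArg Subtype.val h))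
      · rintro ⟨q, hq⟩
        obtain ⟨g, rfl⟩ := QuotientGroup.mk_surjective q
        have hg : g⁻¹ * x * g ∈ H'.map N.subtype := by
          rw [MulAction.Quotient.smul_mk, smul_eq_mul] at hq
          have := QuotientGroup.eq.1 hq.symm
          rwa [← mul_assoc] at this
        have hgN := hB g hg
        refine ⟨⟨QuotientGroup.mk ⟨g, hgN⟩, ?_⟩, Subtype.ext rfl⟩
        apply phi_injective
        rw [phi_smul]
        exact hq
    rw [hC1]
    have : Fintype (N ⧸ H') := Fintype.ofFinite _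
    have hfp : (MulAction.toEndHom x' : Function.End (N ⧸ H')) ^ p ^ a = 1 := by
      rw [← map_pow, hx'pow]
      funext q
      obtain ⟨n, rfl⟩ := QuotientGroup.mk_surjective q
      change (⟨c, hCN (Subgroup.mem_zpowers c)⟩ : N) • (QuotientGroup.mk n : N ⧸ H') =
        QuotientGroup.mk n
      rw [MulAction.Quotient.smul_mk, smul_eq_mul, eq_comm, QuotientGroup.eq, ← mul_assoc]
      apply hCH'
      have h1 : (⟨c, hCN (Subgroup.mem_zpowers c)⟩ : N) ∈ C.subgroupOf N := by
        rw [Subgroup.mem_subgroupOf]; exact Subgroup.mem_zpowers c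
      have h2 := hnorm.conj_mem _ h1 n⁻¹
      rwa [inv_inv] at h2
    have hmod := Equiv.Perm.card_fixedPoints_modEq (p := p) (n := a) hfp
    rw [← @Nat.card_eq_fintype_card (N ⧸ H') (_),
      ← @Nat.card_eq_fintype_card (Function.fixedPoints _) (_)] at hmod
    have hcard : Nat.card {q : N ⧸ H' // x' • q = q} = Nat.card
        (Function.fixedPoints (MulAction.toEndHom x' : Function.End (N ⧸ H'))) := rfl
    have hidx : Nat.card (N ⧸ H') = (P : Subgroup (N ⧸ C.subgroupOf N)).index :=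
      Subgroup.index_comap_of_surjective _ hπs
    rw [hcard]
    have h9 : ¬ p ∣ (P : Subgroup (N ⧸ C.subgroupOf N)).index := P.not_dvd_index
    rw [Nat.coprime_comm, Nat.Prime.coprime_iff_not_dvd hp]
    rw [hidx] at hmod
    intro hdvd
    exact h9 ((Nat.modEq_zero_iff_dvd).1 (hmod.trans ((Nat.modEq_zero_iff_dvd).2 hdvd)))

/-- differences of permutation characters with hyperelementary stabilizers -/
def InA (p : ℕ) (Q : Type) [Group Q] (f : Q → ℤ) : Prop :=
  ∃ a b : Q → ℕ, PC p Q a ∧ PC p Q b ∧ ∀ g, f g = (b g : ℤ) - a g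

theorem InA.of {p : ℕ} {Q : Type} [Group Q] {b : Q → ℕ} (hb : PC p Q b) :
    InA p Q (fun g => (b g : ℤ)) :=
  ⟨0, b, PC.zero p Q, hb, fun g => by simp⟩

theorem InA.zero (p : ℕ) (Q : Type) [Group Q] : InA p Q 0 :=
  ⟨0, 0, PC.zero p Q, PC.zero p Q, fun g => by simp⟩

theorem InA.add {p : ℕ} {Q : Type} [Group Q] {f f' : Q → ℤ} (hf : InA p Q f) (hf' : InA p Q f') :
    InA p Q (f + f') := by
  obtain ⟨a, b, ha, hb, h⟩ := hf
  obtain ⟨a', b', ha', hb', h'⟩ := hf'
  refine ⟨a + a', b + b', ha.add ha', hb.add hb', fun g => ?_⟩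
  simp only [Pi.add_apply, h, h', Nat.cast_add]
  ring

theorem InA.neg {p : ℕ} {Q : Type} [Group Q] {f : Q → ℤ} (hf : InA p Q f) : InA p Q (-f) := by
  obtain ⟨a, b, ha, hb, h⟩ := hf
  refine ⟨b, a, hb, ha, fun g => ?_⟩
  simp only [Pi.neg_apply, h]
  ring

theorem InA.sub {p : ℕ} {Q : Type} [Group Q] {f f' : Q → ℤ} (hf : InA p Q f) (hf' : InA p Q f') :
    InA p Q (f - f') := by
  rw [sub_eq_add_neg]; exact hf.add hf'.neg

theorem InA.mul {p : ℕ} (hp : p.Prime) {Q : Type} [Group Q] [Finite Q] {f f' : Q → ℤ}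
    (hf : InA p Q f) (hf' : InA p Q f') : InA p Q (f * f') := by
  obtain ⟨a, b, ha, hb, h⟩ := hf
  obtain ⟨a', b', ha', hb', h'⟩ := hf'
  refine ⟨b * a' + a * b', b * b' + a * a', (hb.mul hp ha').add (ha.mul hp hb'),
    (hb.mul hp hb').add (ha.mul hp ha'), fun g => ?_⟩
  simp only [Pi.mul_apply, Pi.add_apply, h, h', Nat.cast_add, Nat.cast_mul]
  ring

theorem InA.nsmul {p : ℕ} {Q : Type} [Group Q] {f : Q → ℤ} (hf : InA p Q f) (n : ℕ) :
    InA p Q (n • f) := by
  induction n with
  | zero => rw [zero_nsmul]; exact InA.zero p Q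
  | succ n ih => rw [succ_nsmul]; exact ih.add hf

theorem InA.zsmul {p : ℕ} {Q : Type} [Group Q] {f : Q → ℤ} (hf : InA p Q f) (n : ℤ) :
    InA p Q (n • f) := by
  obtain ⟨k, rfl | rfl⟩ := n.eq_nat_or_neg
  · rw [natCast_zsmul]; exact hf.nsmul k
  · rw [neg_zsmul, natCast_zsmul]; exact (hf.nsmul k).neg

theorem InA.pow {p : ℕ} (hp : p.Prime) {Q : Type} [Group Q] [Finite Q] {f : Q → ℤ}
    (hf : InA p Q f) (n : ℕ) : InA p Q (f ^ (n + 1)) := by
  induction n with
  | zero => rw [zero_add, pow_one]; exact hf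
  | succ n ih => rw [pow_succ]; exact ih.mul hp hf

theorem solomon (Q : Type) [Group Q] [Finite Q] (p : ℕ) (hp : p.Prime) :
    ∃ (n : ℕ) (X Y : Type) (_ : Finite X) (_ : Finite Y) (_ : MulAction Q X) (_ : MulAction Q Y),
      n.Coprime p ∧ (∀ x : X, IsHyp p (MulAction.stabilizer Q x)) ∧
      (∀ y : Y, IsHyp p (MulAction.stabilizer Q y)) ∧
      ∀ g : Q, n + Nat.card {x : X // g • x = x} = Nat.card {y : Y // g • y = y} := by
  classical
  have := Fact.mk hp
  have : Fintype Q := Fintype.ofFinite Q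
  -- step (1)
  have h1 : ∀ x : Q, ∃ f : Q → ℤ, InA p Q f ∧ IsCoprime (f x) (p : ℤ) := by
    intro x
    obtain ⟨H, hH, hx⟩ := exists_hyp_coprime hp x
    exact ⟨_, InA.of (PC.quot hH), Nat.isCoprime_iff_coprime.2 hx⟩
  choose f hfA hfx using h1
  -- step (2)
  have h2 : ∀ s : Finset Q, InA p Q (1 - ∏ x ∈ s, (1 - f x ^ (p - 1))) := by
    intro s
    induction s using Finset.induction_on with
    | empty => simpa using InA.zero p Q
    | insert x s hxs ih =>
      rw [Finset.prod_insert hxs]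
      have hfp : InA p Q (f x ^ (p - 1)) := by
        obtain ⟨k, hk⟩ : ∃ k, p - 1 = k + 1 := ⟨p - 2, by have := hp.two_le; omega⟩
        rw [hk]; exact (hfA x).pow hp k
      have e : 1 - (1 - f x ^ (p - 1)) * ∏ x ∈ s, (1 - f x ^ (p - 1)) =
          f x ^ (p - 1) + (1 - ∏ x ∈ s, (1 - f x ^ (p - 1))) -
            f x ^ (p - 1) * (1 - ∏ x ∈ s, (1 - f x ^ (p - 1))) := by ring
      rw [e]
      exact (hfp.add ih).sub (hfp.mul hp ih)
  set u : Q → ℤ := 1 - ∏ x, (1 - f x ^ (p - 1)) with hu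
  have huA : InA p Q u := h2 Finset.univ
  have hu1 : ∀ y : Q, (u y : ZMod p) = 1 := by
    intro y
    have e : (u y : ZMod p) = 1 - ∏ x, (1 - ((f x y : ℤ) : ZMod p) ^ (p - 1)) := by
      rw [hu]
      simp only [Pi.sub_apply, Pi.one_apply, Finset.prod_apply, Pi.pow_apply]
      push_cast
      rfl
    have hz : (1 - ((f y y : ℤ) : ZMod p) ^ (p - 1)) = 0 := by
      have hne : ((f y y : ℤ) : ZMod p) ≠ 0 := by
        intro h0
        rw [ZMod.intCast_zmod_eq_zero_iff_dvd] at h0
        have h3 := (hfx y).isUnit_of_dvd' h0 dvd_rfl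
        rw [Int.isUnit_iff] at h3
        have h4 := hp.two_le
        omega
      rw [ZMod.pow_card_sub_one_eq_one hne, sub_self]
    rw [e, Finset.prod_eq_zero (Finset.mem_univ y) hz, sub_zero]
  -- step (3)
  have h3 : ∀ s : Finset Q, InA p Q ((fun _ => ∏ y ∈ s, u y) - ∏ y ∈ s, ((fun _ => u y) - u)) := by
    intro s
    induction s using Finset.induction_on with
    | empty =>
      have : ((fun _ => ∏ y ∈ (∅ : Finset Q), u y) - ∏ y ∈ (∅ : Finset Q), ((fun _ => u y) - u) :
          Q → ℤ) = 0 := by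
        funext g; simp
      rw [this]; exact InA.zero p Q
    | insert x s hxs ih =>
      set a : Q → ℤ := (fun _ => ∏ y ∈ s, u y) - ∏ y ∈ s, ((fun _ => u y) - u) with ha
      have e : ((fun _ => ∏ y ∈ insert x s, u y) - ∏ y ∈ insert x s, ((fun _ => u y) - u) :
          Q → ℤ) = (u x) • a + (∏ y ∈ s, u y) • u - u * a := by
        have e1 : ∏ y ∈ s, ((fun _ => u y) - u) = (fun _ => ∏ y ∈ s, u y) - a := by
          rw [ha]; ring
        rw [Finset.prod_insert hxs, Finset.prod_insert hxs, e1]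
        funext g
        simp only [Pi.sub_apply, Pi.mul_apply, Pi.add_apply, Pi.smul_apply, smul_eq_mul]
        ring
      rw [e]
      exact ((ih.zsmul _).add (huA.zsmul _)).sub (huA.mul hp ih)
  have h4 : InA p Q (fun _ => ∏ y, u y) := by
    have h5 := h3 Finset.univ
    have h6 : (∏ y, ((fun _ => u y) - u) : Q → ℤ) = 0 := by
      funext g
      rw [Finset.prod_apply, Pi.zero_apply]
      exact Finset.prod_eq_zero (Finset.mem_univ g) (by simp)
    rwa [h6, sub_zero] at h5
  set n' : ℤ := ∏ y, u y with hn'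
  have h5 : ((n' : ℤ) : ZMod p) = 1 := by
    rw [hn', Int.cast_prod]
    exact Finset.prod_eq_one fun y _ => hu1 y
  have h6 : InA p Q (fun _ => n' * n') := h4.mul hp h4
  obtain ⟨a, b, ⟨X, hX, aX, hX1, hX2⟩, ⟨Y, hY, aY, hY1, hY2⟩, hab⟩ := h6
  refine ⟨(n' * n').toNat, X, Y, hX, hY, aX, aY, ?_, hX1, hY1, fun g => ?_⟩
  · have h7 : (((n' * n').toNat : ℤ) : ZMod p) = 1 := by
      rw [Int.toNat_of_nonneg (mul_self_nonneg n'), Int.cast_mul, h5, one_mul]
    rw [Nat.coprime_comm, Nat.Prime.coprime_iff_not_dvd hp]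
    intro hd
    have h8 : (((n' * n').toNat : ℕ) : ZMod p) = 0 := (ZMod.natCast_eq_zero_iff _ _).2 hd
    rw [Int.cast_natCast, h8] at h7
    exact zero_ne_one h7
  · have h7 := hab g
    have h8 : (((n' * n').toNat : ℕ) : ℤ) = n' * n' := Int.toNat_of_nonneg (mul_self_nonneg n')
    rw [← hX2, ← hY2]
    have : (((n' * n').toNat + a g : ℕ) : ℤ) = (b g : ℤ) := by
      push_cast
      rw [h8]
      linarith
    exact_mod_cast this

end Pool.Agent.Hhelper49.Srr
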