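import Pool.Agent.Hhelper49.Srr.Cpx
import Pool.Agent.Hhelper49.Srr.Lat
import Pool.Agent.Hhelper49.Srr.FinMod
import Pool.Agent.Hhelper49.Srr.IndA
import Pool.Agent.Hhelper49.Srr.IndB
import Pool.Agent.Hhelper49.Srr.Sol
import Pool.Agent.Hhelper49.Srr.RatQ
import Pool.Agent.Hhelper49.Srr.RatG
import Pool.Agent.Hhelper49.Srr.Iso
import Pool.Agent.Hhelper49.Srr.Dsq

/-!
# Core: the induction theorem at one prime
-/

set_option linter.unusedSectionVars false

namespace Pool.Agent.Hhelper49.Srr

section general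
variable {R : Type} [Ring R] {M N : Type} [AddCommGroup M] [Module R M] [AddCommGroup N]
  [Module R N]

/-- reindexing of powers -/
theorem pow_iso {ι κ : Type} (e : ι ≃ κ) (h : FF R (ι → M)) : FF R (κ → M) :=
  ff_iso (LinearEquiv.funCongrLeft R M e.symm) h

theorem pow_mul_of {a b : ℕ} (h : FF R (Fin a → Fin b → M)) : FF R (Fin (a * b) → M) := by
  refine pow_iso finProdFinEquiv ?_
  exact ff_iso (LinearEquiv.curry R M (Fin a) (Fin b)).symm h

theorem of_pow_mul {a b : ℕ} (h : FF R (Fin (a * b) → M)) : FF R (Fin a → Fin b → M) := by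
  have h1 : FF R (Fin a × Fin b → M) := pow_iso finProdFinEquiv.symm h
  exact ff_iso (LinearEquiv.curry R M (Fin a) (Fin b)) h1

/-- multiples -/
theorem pow_mul {a : ℕ} (b : ℕ) (h : FF R (Fin a → M)) : FF R (Fin (b * a) → M) := by
  apply pow_mul_of
  exact ff_pi (fun _ : Fin b => (Fin a → M)) (fun _ => h)

theorem pow_mul' {a : ℕ} (b : ℕ) (h : FF R (Fin a → M)) : FF R (Fin (a * b) → M) := by
  rw [mul_comm]
  exact pow_mul b h

theorem pow_congr (m : ℕ) (e : M ≃ₗ[R] N) (h : FF R (Fin m → M)) : FF R (Fin m → N) :=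
  ff_iso (LinearEquiv.piCongrRight fun _ => e) h

/-- powers of a product -/
def powProd (m : ℕ) : (Fin m → M × N) ≃ₗ[R] (Fin m → M) × (Fin m → N) where
  toFun f := (fun i => (f i).1, fun i => (f i).2)
  invFun f := fun i => (f.1 i, f.2 i)
  map_add' _ _ := rfl
  map_smul' _ _ := rfl
  left_inv _ := rfl
  right_inv _ := rfl

theorem pow_left (m : ℕ) (h : FF R (Fin m → M × N)) (hN : FF R (Fin m → N)) :
    FF R (Fin m → M) :=
  ff_left (ff_iso (powProd m) h) hN

/-- subtraction of exponents -/
theorem pow_sub {a b : ℕ} (h : FF R (Fin (a + b) → M)) (hb : FF R (Fin b → M)) :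
    FF R (Fin a → M) := by
  have h1 : FF R (Fin a ⊕ Fin b → M) := pow_iso finSumFinEquiv.symm h
  have h2 : FF R ((Fin a → M) × (Fin b → M)) :=
    ff_iso (LinearEquiv.sumArrowLequivProdArrow (Fin a) (Fin b) R M) h1
  exact ff_left h2 hb

end general

section
variable {G : Type} [Group G]

instance (H : Subgroup G) : Module.Finite ℤ (Res H (Triv G)) :=
  inferInstanceAs (Module.Finite ℤ ℤ)

instance (H : Subgroup G) : Module.Free ℤ (Res H (Triv G)) :=
  inferInstanceAs (Module.Free ℤ ℤ)

instance (H : Subgroup G) (T : Type) [Finite T] : Finite (Res H T) :=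
  inferInstanceAs (Finite T)

/-- powers of functions on a finite `G`-set with good stabilizers -/
theorem pmap_triv_ff (X : Type) [Finite X] [MulAction G X] (m : ℕ)
    (hX : ∀ x : X, FF (MonoidAlgebra ℤ (MulAction.stabilizer G x))
      (Fin m → Triv (MulAction.stabilizer G x))) :
    FF (MonoidAlgebra ℤ G) (Fin m → PMap G X (Triv G)) := by
  apply pmap_ff X m (Triv G)
  intro x
  have hfi : (MulAction.stabilizer G x).FiniteIndex := by
    have : Finite (G ⧸ MulAction.stabilizer G x) :=
      Finite.of_equiv _ (MulAction.orbitEquivQuotientStabilizer G x)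
    exact Subgroup.finiteIndex_of_finite_quotient
  apply pmap_coset (MulAction.stabilizer G x) (fun N _ _ h => coind_ff _ N h) m (Triv G)
  exact lattice_ff m (hX x) (Res (MulAction.stabilizer G x) (Triv G))

theorem pmap_fin_ff (X : Type) [Finite X] [MulAction G X] (m : ℕ)
    (hX : ∀ x : X, FF (MonoidAlgebra ℤ (MulAction.stabilizer G x))
      (Fin m → Triv (MulAction.stabilizer G x))) (T : Type) [AddCommGroup T]
    [Module (MonoidAlgebra ℤ G) T] [Finite T] :
    FF (MonoidAlgebra ℤ G) (Fin m → PMap G X T) := by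
  apply pmap_ff X m T
  intro x
  have hfi : (MulAction.stabilizer G x).FiniteIndex := by
    have : Finite (G ⧸ MulAction.stabilizer G x) :=
      Finite.of_equiv _ (MulAction.orbitEquivQuotientStabilizer G x)
    exact Subgroup.finiteIndex_of_finite_quotient
  apply pmap_coset (MulAction.stabilizer G x) (fun N _ _ h => coind_ff _ N h) m T
  exact finite_ff m (fun L _ _ _ _ => lattice_ff m (hX x) L) (Res (MulAction.stabilizer G x) T)

/-- the induction theorem for sets with equal permutation characters -/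
theorem core_sets (hG : FP (MonoidAlgebra ℤ G) (Triv G)) (m n : ℕ) (X Y : Type) [Finite X]
    [Finite Y] [MulAction G X] [MulAction G Y]
    (hX : ∀ x : X, FF (MonoidAlgebra ℤ (MulAction.stabilizer G x))
      (Fin m → Triv (MulAction.stabilizer G x)))
    (hY : ∀ y : Y, FF (MonoidAlgebra ℤ (MulAction.stabilizer G y))
      (Fin m → Triv (MulAction.stabilizer G y)))
    (ι : PMap G (TrivSet n ⊕ X) (Triv G) →ₗ[MonoidAlgebra ℤ G] PMap G Y (Triv G))
    (hι : Function.Injective ι) (hfin : Finite (PMap G Y (Triv G) ⧸ LinearMap.range ι)) :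
    FF (MonoidAlgebra ℤ G) (Fin (m * n * n) → Triv G) := by
  classical
  have hfp : ∀ (T : Type) [AddCommGroup T] [Module (MonoidAlgebra ℤ G) T] [Finite T],
      FP (MonoidAlgebra ℤ G) T := by
    intro T _ _ _
    exact finite_fp (fun L _ _ _ _ => lattice_fp hG L) T
  obtain ⟨hl1, hl2⟩ := pmap_lattice (G := G) Y
  -- the isomorphisms
  obtain ⟨eA⟩ : Nonempty (PMap G (TrivSet n ⊕ X) (Triv G) ≃ₗ[MonoidAlgebra ℤ G]
      (LinearMap.range ι)) := ⟨LinearEquiv.ofInjective ι hι⟩
  have split : ∀ (T : Type) [AddCommGroup T] [Module (MonoidAlgebra ℤ G) T],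
      Nonempty (PMap G (TrivSet n ⊕ X) T ≃ₗ[MonoidAlgebra ℤ G] (Fin n → T) × PMap G X T) := by
    intro T _ _
    obtain ⟨e1⟩ := pmap_sum (G := G) (TrivSet n) X T
    obtain ⟨e2⟩ := pmap_trivial (G := G) n T
    exact ⟨e1.trans (e2.prodCongr (LinearEquiv.refl _ _))⟩
  -- coefficients of prime order
  have step1 : ∀ (T : Type) [AddCommGroup T] [Module (MonoidAlgebra ℤ G) T] [Finite T] (q : ℕ)
      (_ : q.Prime) (_ : ∀ t : T, q • t = 0), FF (MonoidAlgebra ℤ G) (Fin (m * n) → T) := by
    intro T _ _ _ q hq hT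
    have h1 := dsq hfp (PMap G Y (Triv G)) (LinearMap.range ι) hfin T q hq hT
    obtain ⟨e1⟩ := chom_pmap (G := G) Y T
    have h2 : FF (MonoidAlgebra ℤ G) (Fin m → CHom G (PMap G Y (Triv G)) T) :=
      pow_congr m e1.symm (pmap_fin_ff Y m hY T)
    have h3 := Sim_ff m (Sim_symm h1) h2
    obtain ⟨e2⟩ := chom_congr (G := G) _ _ T eA.symm
    obtain ⟨e3⟩ := chom_pmap (G := G) (TrivSet n ⊕ X) T
    obtain ⟨e4⟩ := split T
    have h4 := pow_congr m (e2.trans (e3.trans e4)) h3
    have h5 := pow_left m h4 (pmap_fin_ff X m hX T)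
    exact pow_mul_of h5
  -- finite coefficients
  have step2 : ∀ (k : ℕ) (T : Type) [AddCommGroup T] [Module (MonoidAlgebra ℤ G) T] [Finite T]
      (_ : Nat.card T ≤ k), FF (MonoidAlgebra ℤ G) (Fin (m * n) → T) := by
    intro k
    induction k with
    | zero =>
      intro T _ _ _ h
      have := Nat.card_pos (α := T)
      omega
    | succ k ih =>
      intro T _ _ _ hk
      by_cases hcard : Nat.card T = 1
      · have hsub : Subsingleton T := (Nat.card_eq_one_iff_unique.1 hcard).1
        refine step1 T 2 Nat.prime_two fun t => Subsingleton.elim _ _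
      · obtain ⟨q, hq, hqd⟩ := Nat.exists_prime_and_dvd hcard
        let f : T →ₗ[MonoidAlgebra ℤ G] T := q • LinearMap.id
        have hf : ∀ t, f t = q • t := fun t => rfl
        have hker : ∃ t : T, t ≠ 0 ∧ q • t = 0 := by
          haveI : Fact q.Prime := ⟨hq⟩
          obtain ⟨t, ht⟩ := exists_prime_addOrderOf_dvd_card' q hqd
          refine ⟨t, ?_, ?_⟩
          · rintro rfl
            rw [addOrderOf_zero] at ht
            exact hq.one_lt.ne ht
          · rw [← ht]
            exact addOrderOf_nsmul_eq_zero t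
        have hker2 : LinearMap.ker f ≠ ⊥ := by
          obtain ⟨t, ht0, ht⟩ := hker
          intro hbot
          have : t ∈ LinearMap.ker f := by
            rw [LinearMap.mem_ker, hf, ht]
          rw [hbot, Submodule.mem_bot] at this
          exact ht0 this
        have hmul : Nat.card (LinearMap.ker f) * Nat.card (LinearMap.range f) = Nat.card T := by
          have h1 := Submodule.card_eq_card_quotient_mul_card (LinearMap.ker f)
          rw [Nat.card_congr f.quotKerEquivRange.toEquiv] at h1
          exact h1.symm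
        have hker3 : 1 < Nat.card (LinearMap.ker f) := by
          by_contra hcon
          have : Nat.card (LinearMap.ker f) = 1 := by
            have := Nat.card_pos (α := LinearMap.ker f)
            omega
          have hsub : Subsingleton (LinearMap.ker f) := (Nat.card_eq_one_iff_unique.1 this).1
          exact hker2 (Submodule.eq_bot_of_subsingleton)
        have hpos := Nat.card_pos (α := LinearMap.range f)
        have hlt : Nat.card (LinearMap.range f) ≤ k := by nlinarith
        have h1 : FF (MonoidAlgebra ℤ G) (Fin (m * n) → LinearMap.ker f) := by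
          apply step1 (LinearMap.ker f) q hq
          rintro ⟨t, ht⟩
          apply Subtype.ext
          rw [LinearMap.mem_ker, hf] at ht
          exact ht
        have h2 := ih (LinearMap.range f) hlt
        exact ffm_ext (m * n) (LinearMap.ker f).subtype f.rangeRestrict
          (Submodule.injective_subtype _) f.surjective_rangeRestrict
          (by rw [Submodule.range_subtype, LinearMap.ker_rangeRestrict]) h1 h2
  -- the cokernel of iota
  have h1 := step2 (Nat.card (PMap G Y (Triv G) ⧸ LinearMap.range ι))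
    (PMap G Y (Triv G) ⧸ LinearMap.range ι) le_rfl
  have h2 : FF (MonoidAlgebra ℤ G) (Fin (m * n) → PMap G Y (Triv G)) :=
    pow_mul' n (pmap_triv_ff Y m hY)
  have h3 : FF (MonoidAlgebra ℤ G) (Fin (m * n) → LinearMap.range ι) :=
    ffm_ker (m * n) (LinearMap.range ι).subtype (LinearMap.range ι).mkQ
      (Submodule.injective_subtype _) (Submodule.mkQ_surjective _)
      (by rw [Submodule.range_subtype, Submodule.ker_mkQ]) h2 h1
  obtain ⟨e5⟩ := split (Triv G)
  have h4 := pow_congr (m * n) (eA.symm.trans e5) h3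
  have h5 := pow_left (m * n) h4 (pow_mul' n (pmap_triv_ff X m hX))
  exact pow_mul_of h5

end

/-- the induction theorem at one prime -/
theorem core (G : Type) [Group G] (hG : FP (MonoidAlgebra ℤ G) (Triv G)) (Q : Type) [Group Q]
    [Finite Q] (π : G →* Q) (p : ℕ) (hp : p.Prime)
    (h : ∀ H : Subgroup Q, IsHyp p H → ∃ m : ℕ, m.Coprime p ∧
      FF (MonoidAlgebra ℤ (H.comap π)) (Fin m → Triv (H.comap π))) :
    ∃ m : ℕ, m.Coprime p ∧ FF (MonoidAlgebra ℤ G) (Fin m → Triv G) := by
  classical
  obtain ⟨n, X, Y, _, _, iX, iY, hn, hX, hY, hchar⟩ := solomon Q p hp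
  -- one exponent for all hyperelementary subgroups
  have hm : ∃ m : ℕ, m.Coprime p ∧ ∀ H : Subgroup Q, IsHyp p H →
      FF (MonoidAlgebra ℤ (H.comap π)) (Fin m → Triv (H.comap π)) := by
    have : Fintype (Subgroup Q) := Fintype.ofFinite _
    let f : Subgroup Q → ℕ := fun H => if hH : IsHyp p H then (h H hH).choose else 1
    refine ⟨∏ H, f H, ?_, ?_⟩
    · apply Nat.Coprime.prod_left
      intro H _
      by_cases hH : IsHyp p H
      · simp only [f, hH, dif_pos]
        exact (h H hH).choose_spec.1
      · simp only [f, hH, dif_neg, not_false_eq_true]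
        exact Nat.coprime_one_left p
    · intro H hH
      rw [← Finset.mul_prod_erase Finset.univ f (Finset.mem_univ H)]
      apply pow_mul'
      have hfH : f H = (h H hH).choose := by simp only [f, hH, dif_pos]
      rw [hfH]
      exact (h H hH).choose_spec.2
  obtain ⟨m, hmp, hm⟩ := hm
  letI jX : MulAction G X := MulAction.compHom X π
  letI jY : MulAction G Y := MulAction.compHom Y π
  have hstab : ∀ (K : Subgroup G) (H : Subgroup Q), IsHyp p H → K = H.comap π →
      FF (MonoidAlgebra ℤ K) (Fin m → Triv K) := by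
    rintro K H hH rfl
    exact hm H hH
  have hX' : ∀ x : X, FF (MonoidAlgebra ℤ (MulAction.stabilizer G x))
      (Fin m → Triv (MulAction.stabilizer G x)) := by
    intro x
    exact hstab _ _ (hX x) (by ext g; rfl)
  have hY' : ∀ y : Y, FF (MonoidAlgebra ℤ (MulAction.stabilizer G y))
      (Fin m → Triv (MulAction.stabilizer G y)) := by
    intro y
    exact hstab _ _ (hY y) (by ext g; rfl)
  letI fX : Fintype X := Fintype.ofFinite X
  letI fY : Fintype Y := Fintype.ofFinite Y
  have hchar' : ∀ g : Q, Nat.card {a : TrivSet n ⊕ X // g • a = a} =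
      Nat.card {y : Y // g • y = y} := by
    intro g
    rw [← hchar g]
    have e : {a : TrivSet n ⊕ X // g • a = a} ≃ Fin n ⊕ {x : X // g • x = x} :=
      { toFun := fun a => match a with
          | ⟨Sum.inl i, _⟩ => Sum.inl i
          | ⟨Sum.inr x, hx⟩ => Sum.inr ⟨x, Sum.inr_injective hx⟩
        invFun := fun a => match a with
          | Sum.inl i => ⟨Sum.inl i, rfl⟩
          | Sum.inr x => ⟨Sum.inr x.1, congrArg Sum.inr x.2⟩
        left_inv := by rintro ⟨a | a, ha⟩ <;> rfl
        right_inv := by rintro (a | a) <;> rfl }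
    rw [Nat.card_congr e, Nat.card_sum, Nat.card_eq_fintype_card, Fintype.card_fin]
  obtain ⟨M, hM, hinj⟩ := exists_matrix Q (TrivSet n ⊕ X) Y hchar'
  have hcard : Nat.card (TrivSet n ⊕ X) = Nat.card Y := by
    have h1 := hchar' 1
    have e1 : {a : TrivSet n ⊕ X // (1 : Q) • a = a} ≃ (TrivSet n ⊕ X) :=
      Equiv.subtypeUnivEquiv fun a => one_smul _ _
    have e2 : {y : Y // (1 : Q) • y = y} ≃ Y := Equiv.subtypeUnivEquiv fun a => one_smul _ _
    rwa [Nat.card_congr e1, Nat.card_congr e2] at h1
  have hM' : ∀ (g : G) (b : Y) (a : TrivSet n ⊕ X), M (g • b) (g • a) = M b a := by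
    intro g b a
    have h1 := hM (π g) b a
    rcases a with a | a
    · exact h1
    · exact h1
  obtain ⟨ι, hι, hfin⟩ := exists_iota G (TrivSet n ⊕ X) Y hcard M hM' hinj
  refine ⟨m * n * n, ?_, core_sets hG m n X Y hX' hY' ι hι hfin⟩
  exact Nat.Coprime.mul_left (Nat.Coprime.mul_left hmp hn) hn

end Pool.Agent.Hhelper49.Srr
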