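import Pool.Agent.Hhelper49.Srr.Calc

/-!
# Modules over `ℤ[G]`: basic constructions

`act g m` is the action of a group element, `modOf φ` the `ℤ[G]`-module structure given by an action
`φ` of `G` by additive endomorphisms, `mkLin` makes a linear map from an additive equivariant one.

Constructions (type synonyms with their own `ℤ[G]`-module structure):
* `Triv G`: the trivial module `ℤ`;
* `CHom G N M`: additive maps `N → M` with the conjugation action `(g f)(n) = g f(g⁻¹ n)`;
* `PMap G X T`: functions `X → T`, `X` a `G`-set, with `(g f)(x) = g f(g⁻¹ x)`;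
* `Res H T`: restriction to a subgroup;
* `Coind H N`: functions `f : G → N` with `f (h g) = h f(g)`, `(g' f)(g) = f(g g')`.
-/

set_option linter.unusedSectionVars false
set_option linter.unusedSimpArgs false

namespace Pool.Agent.Hhelper49.Srr

section
variable {G : Type} [Group G]

/-- the action of a group element on a `ℤ[G]`-module -/
noncomputable abbrev act {M : Type} [AddCommGroup M] [Module (MonoidAlgebra ℤ G) M] (g : G) (m : M) : M :=
  MonoidAlgebra.of ℤ G g • m

/-- the `ℤ[G]`-module structure given by an action by additive endomorphisms -/
@[reducible] noncomputable def modOf {A : Type} [AddCommGroup A] (φ : G →* Module.End ℤ A) :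
    Module (MonoidAlgebra ℤ G) A :=
  Module.compHom A (MonoidAlgebra.lift ℤ (Module.End ℤ A) G φ).toRingHom

theorem modOf_act {A : Type} [AddCommGroup A] (φ : G →* Module.End ℤ A) (g : G) (a : A) :
    (modOf φ).smul (MonoidAlgebra.of ℤ G g) a = φ g a := by
  change (MonoidAlgebra.lift ℤ (Module.End ℤ A) G φ) (MonoidAlgebra.of ℤ G g) a = φ g a
  rw [MonoidAlgebra.lift_of]

section
variable {A B : Type} [AddCommGroup A] [Module (MonoidAlgebra ℤ G) A] [AddCommGroup B]
  [Module (MonoidAlgebra ℤ G) B]

theorem act_one (a : A) : act (1 : G) a = a := by
  rw [act, map_one, one_smul]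

theorem act_mul (g h : G) (a : A) : act (g * h) a = act g (act h a) := by
  rw [act, map_mul, mul_smul]

theorem act_inv_act (g : G) (a : A) : act g⁻¹ (act g a) = a := by
  rw [← act_mul, inv_mul_cancel, act_one]

theorem act_act_inv (g : G) (a : A) : act g (act g⁻¹ a) = a := by
  rw [← act_mul, mul_inv_cancel, act_one]

theorem single_smul (g : G) (r : ℤ) (a : A) : (MonoidAlgebra.single g r) • a = r • act g a := by
  have h : MonoidAlgebra.single g r = r • MonoidAlgebra.of ℤ G g := by
    simp
  rw [h, act]
  exact smul_assoc r _ a

/-- additive equivariant maps are linear -/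
noncomputable def mkLin (f : A →+ B) (h : ∀ (g : G) (a : A), f (act g a) = act g (f a)) :
    A →ₗ[MonoidAlgebra ℤ G] B where
  toFun := f
  map_add' := map_add f
  map_smul' r a := by
    simp only [RingHom.id_apply]
    induction r using MonoidAlgebra.induction_linear with
    | zero => simp
    | add x y hx hy => rw [add_smul, map_add, hx, hy, add_smul]
    | single g r => rw [single_smul, single_smul, map_zsmul, h]

@[simp] theorem mkLin_apply (f : A →+ B) (h : ∀ (g : G) (a : A), f (act g a) = act g (f a)) (a : A) :
    mkLin f h a = f a := rfl

/-- additive equivariant bijections are linear equivalences -/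
noncomputable def mkEquiv (f : A ≃+ B) (h : ∀ (g : G) (a : A), f (act g a) = act g (f a)) :
    A ≃ₗ[MonoidAlgebra ℤ G] B :=
  LinearEquiv.ofBijective (mkLin f.toAddMonoidHom h) f.bijective

theorem lin_act (f : A →ₗ[MonoidAlgebra ℤ G] B) (g : G) (a : A) : f (act g a) = act g (f a) :=
  map_smul f _ _

end

/-! ### the trivial module -/

variable (G)

/-- the trivial `ℤ[G]`-module `ℤ` -/
def Triv (_ : Type) : Type := ℤ

instance : AddCommGroup (Triv G) := inferInstanceAs (AddCommGroup ℤ)

noncomputable instance : Module (MonoidAlgebra ℤ G) (Triv G) := modOf (A := ℤ) 1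

theorem act_triv (g : G) (a : Triv G) : act g a = a := by
  have h := modOf_act (A := ℤ) (1 : G →* Module.End ℤ ℤ) g a
  exact h

/-! ### additive maps with the conjugation action -/

/-- additive maps `N → M` with the conjugation action -/
def CHom (_ : Type) (N M : Type) [AddCommGroup N] [AddCommGroup M] : Type := N →+ M

section
variable (N M : Type) [AddCommGroup N] [AddCommGroup M]

instance : AddCommGroup (CHom G N M) := inferInstanceAs (AddCommGroup (N →+ M))

variable {G N M} in
/-- the underlying additive map -/
def CHom.hom (f : CHom G N M) : N →+ M := f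

variable {G N M} in
theorem CHom.ext {f f' : CHom G N M} (h : ∀ n, f.hom n = f'.hom n) : f = f' :=
  DFunLike.ext (F := N →+ M) f f' h

variable {N M} in
/-- an additive map as an element of `CHom` -/
def CHom.mk (f : N →+ M) : CHom G N M := f

@[simp] theorem CHom.hom_mk (f : N →+ M) : (CHom.mk G f).hom = f := rfl

@[simp] theorem CHom.hom_add (f f' : CHom G N M) : (f + f').hom = f.hom + f'.hom := rfl

@[simp] theorem CHom.hom_zero : (0 : CHom G N M).hom = 0 := rfl

variable [Module (MonoidAlgebra ℤ G) N] [Module (MonoidAlgebra ℤ G) M]

/-- the conjugation action -/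
noncomputable def conjHom : G →* Module.End ℤ (N →+ M) where
  toFun g :=
    { toFun := fun f =>
        { toFun := fun n => act g (f (act g⁻¹ n))
          map_zero' := by simp [act]
          map_add' := by intro x y; simp [act] }
      map_add' := by intro f f'; ext n; simp [act]
      map_smul' := by
        intro r f
        ext n
        simp only [act, AddMonoidHom.coe_mk, ZeroHom.coe_mk, AddMonoidHom.coe_smul, Pi.smul_apply,
          eq_intCast, Int.cast_eq, RingHom.id_apply]
        exact smul_comm _ _ _ }
  map_one' := by
    ext f n
    change act 1 (f (act (1 : G)⁻¹ n)) = f n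
    rw [inv_one, act_one, act_one]
  map_mul' g h := by
    ext f n
    change act (g * h) (f (act (g * h)⁻¹ n)) = act g (act h (f (act h⁻¹ (act g⁻¹ n))))
    rw [mul_inv_rev, act_mul, act_mul]

noncomputable instance : Module (MonoidAlgebra ℤ G) (CHom G N M) :=
  modOf (A := N →+ M) (conjHom G N M)

variable {G N M} in
theorem CHom.act_apply (g : G) (f : CHom G N M) (n : N) :
    (act g f).hom n = act g (f.hom (act g⁻¹ n)) := by
  have h := modOf_act (A := N →+ M) (conjHom G N M) g f
  exact congrArg (fun (k : N →+ M) => k n) h

end

/-! ### functions on a `G`-set -/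

/-- functions `X → T` on a `G`-set `X` with values in a `ℤ[G]`-module -/
def PMap (_ : Type) (X T : Type) : Type := X → T

section
variable (X T : Type) [AddCommGroup T]

instance : AddCommGroup (PMap G X T) := inferInstanceAs (AddCommGroup (X → T))

variable {G X T} in
/-- the underlying function -/
def PMap.fn (f : PMap G X T) : X → T := f

variable {X T} in
/-- a function as an element of `PMap` -/
def PMap.mk (f : X → T) : PMap G X T := f

@[simp] theorem PMap.fn_mk (f : X → T) : (PMap.mk G f).fn = f := rfl

@[simp] theorem PMap.fn_add (f f' : PMap G X T) (x : X) : (f + f').fn x = f.fn x + f'.fn x := rfl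

@[simp] theorem PMap.fn_zero (x : X) : (0 : PMap G X T).fn x = 0 := rfl

variable {G X T} in
theorem PMap.ext {f f' : PMap G X T} (h : ∀ x, f.fn x = f'.fn x) : f = f' := funext h

variable [MulAction G X] [Module (MonoidAlgebra ℤ G) T]

/-- the action on functions -/
noncomputable def pmapHom : G →* Module.End ℤ (X → T) where
  toFun g :=
    { toFun := fun f x => act g (f (g⁻¹ • x))
      map_add' := by intro f f'; ext x; simp [act]
      map_smul' := by
        intro r f
        ext x
        simp only [act, Pi.smul_apply, eq_intCast, Int.cast_eq, RingHom.id_apply]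
        exact smul_comm _ _ _ }
  map_one' := by
    ext f x
    change act 1 (f ((1 : G)⁻¹ • x)) = f x
    rw [inv_one, one_smul, act_one]
  map_mul' g h := by
    ext f x
    change act (g * h) (f ((g * h)⁻¹ • x)) = act g (act h (f (h⁻¹ • g⁻¹ • x)))
    rw [mul_inv_rev, mul_smul, act_mul]

noncomputable instance : Module (MonoidAlgebra ℤ G) (PMap G X T) :=
  modOf (A := X → T) (pmapHom G X T)

variable {G X T} in
theorem PMap.act_apply (g : G) (f : PMap G X T) (x : X) :
    (act g f).fn x = act g (f.fn (g⁻¹ • x)) := by
  have h := modOf_act (A := X → T) (pmapHom G X T) g f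
  exact congrFun h x

end

/-! ### restriction and coinduction -/

variable {G}

/-- restriction of a `ℤ[G]`-module to a subgroup -/
def Res (_ : Subgroup G) (T : Type) : Type := T

section
variable (H : Subgroup G) (T : Type) [AddCommGroup T]

instance : AddCommGroup (Res H T) := inferInstanceAs (AddCommGroup T)

variable {T} in
/-- an element of `T` as an element of the restriction -/
def Res.mk (t : T) : Res H T := t

variable {H T} in
/-- an element of the restriction as an element of `T` -/
def Res.un (t : Res H T) : T := t

@[simp] theorem Res.un_mk (t : T) : (Res.mk H t).un = t := rfl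

@[simp] theorem Res.mk_un (t : Res H T) : Res.mk H t.un = t := rfl

@[simp] theorem Res.un_add (s t : Res H T) : (s + t).un = s.un + t.un := rfl

@[simp] theorem Res.un_zero : (0 : Res H T).un = 0 := rfl

variable [Module (MonoidAlgebra ℤ G) T]

/-- the action of the subgroup -/
noncomputable def resHom : H →* Module.End ℤ T where
  toFun g :=
    { toFun := fun t => act (g : G) t
      map_add' := by intro t t'; simp [act]
      map_smul' := by
        intro r t
        simp only [act, eq_intCast, Int.cast_eq, RingHom.id_apply]
        exact smul_comm _ _ _ }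
  map_one' := by
    ext t
    exact act_one t
  map_mul' g h := by
    ext t
    exact act_mul _ _ t

noncomputable instance : Module (MonoidAlgebra ℤ H) (Res H T) := modOf (A := T) (resHom H T)

variable {H T} in
theorem Res.act_apply (h : H) (t : Res H T) : (act h t).un = act (h : G) t.un :=
  modOf_act (A := T) (resHom H T) h t

end

section
variable (H : Subgroup G) (N : Type) [AddCommGroup N] [Module (MonoidAlgebra ℤ H) N]

/-- the additive group of functions `f : G → N` with `f (h g) = h f(g)` -/
def coindGrp : AddSubgroup (G → N) where
  carrier := {f | ∀ (h : H) (g : G), f ((h : G) * g) = act h (f g)}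
  zero_mem' := by intro h g; simp [act]
  add_mem' := by
    intro a b ha hb h g
    rw [Pi.add_apply, Pi.add_apply, ha h g, hb h g, act, act, act, smul_add]
  neg_mem' := by
    intro a ha h g
    rw [Pi.neg_apply, Pi.neg_apply, ha h g, act, act, smul_neg]

/-- the coinduced module -/
def Coind : Type := coindGrp H N

instance : AddCommGroup (Coind H N) := inferInstanceAs (AddCommGroup (coindGrp H N))

variable {H N} in
/-- the underlying function -/
def Coind.fn (f : Coind H N) : G → N := f.1

variable {H N} in
theorem Coind.fn_mul (f : Coind H N) (h : H) (g : G) : f.fn ((h : G) * g) = act h (f.fn g) :=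
  f.2 h g

variable {H N} in
theorem Coind.ext {f f' : Coind H N} (h : ∀ g, f.fn g = f'.fn g) : f = f' :=
  Subtype.ext (funext h)

@[simp] theorem Coind.fn_add (f f' : Coind H N) (g : G) : (f + f').fn g = f.fn g + f'.fn g := rfl

@[simp] theorem Coind.fn_zero (g : G) : (0 : Coind H N).fn g = 0 := rfl

variable {H N} in
/-- an element of the coinduced module from a function -/
def Coind.mk (f : G → N) (h : ∀ (h : H) (g : G), f ((h : G) * g) = act h (f g)) : Coind H N := ⟨f, h⟩

@[simp] theorem Coind.fn_mk (f : G → N) (h : ∀ (h : H) (g : G), f ((h : G) * g) = act h (f g)) :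
    (Coind.mk f h).fn = f := rfl

/-- right translation -/
noncomputable def coindHom : G →* Module.End ℤ (coindGrp H N) where
  toFun g' :=
    { toFun := fun f => ⟨fun g => f.1 (g * g'), fun h g => by
        have := f.2 h (g * g')
        rwa [← mul_assoc] at this⟩
      map_add' := by intro f f'; rfl
      map_smul' := by intro r f; rfl }
  map_one' := by
    ext f g
    change f.1 (g * 1) = f.1 g
    rw [mul_one]
  map_mul' a b := by
    ext f g
    change f.1 (g * (a * b)) = f.1 (g * a * b)
    rw [mul_assoc]

noncomputable instance : Module (MonoidAlgebra ℤ G) (Coind H N) :=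
  modOf (A := coindGrp H N) (coindHom H N)

variable {H N} in
theorem Coind.act_apply (g' : G) (f : Coind H N) (g : G) : (act g' f).fn g = f.fn (g * g') := by
  have h := modOf_act (A := coindGrp H N) (coindHom H N) g' f
  exact congrArg (fun (k : coindGrp H N) => k.1 g) h

end

end

end Pool.Agent.Hhelper49.Srr
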