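import Pool.Agent.Hhelper49.Srr.GDefs
import Pool.Agent.Hhelper49.Srr.GMod

/-!
# Module Cpx: complexes versus iterated kernels

General facts for a module `M` over any ring `R` (proved by induction on the length):

(1) if `P 0 → M` is surjective, `P` exact, all `P i` finitely generated projective (free), `P i = 0` for
`i > n`, then `M` is FP (FF).  `n = 0`: `M ≃ P 0` (the kernel is the range of `d 0 : P 1 → P 0`, zero).
`n + 1`: the kernel `K` of `P 0 → M` has the resolution `P 1 ← P 2 ← ..` of length `n`, so is FP; `P 0` is FP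
(length 0); use `fp_coker` (`ff_coker`).

(2) if `M` is FF of length `n`, then there is such a complex of free modules: `n = 0`: `P 0 = M`,
`P i = PUnit` otherwise.  `n + 1`: `P 0 = (Fin k → R)` and `P (i+1)` = the complex of the kernel.

Then specialise to `M = Triv G` or `M = (Fin m → Triv G)`: an additive map `ε : P 0 → ℤ` with
`ε (g x) = ε x` is the same as a `ℤ[G]`-linear map `P 0 → Triv G` (`mkLin`, `act_triv`), and similarly for
`Fin m → ℤ`.
-/

namespace Pool.Agent.Hhelper49.Srr

section CpxAux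

variable {R : Type} [Ring R]

theorem fp_of_res (n : ℕ) : ∀ (M : Type) [AddCommGroup M] [Module R M] (P : ℕ → Type)
    [∀ i, AddCommGroup (P i)] [∀ i, Module R (P i)] (d : ∀ i, P (i + 1) →ₗ[R] P i)
    (f : P 0 →ₗ[R] M), (∀ i, Module.Finite R (P i)) → (∀ i, Module.Projective R (P i)) →
    (∀ i, n < i → Subsingleton (P i)) → Function.Surjective f →
    LinearMap.range (d 0) = LinearMap.ker f →
    (∀ i, LinearMap.range (d (i + 1)) = LinearMap.ker (d i)) → FP R M := by
  induction n with
  | zero =>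
    intro M _ _ P _ _ d f h1 h2 h3 h4 h5 h6
    have h7 : Subsingleton (P 1) := h3 1 (by norm_num)
    have h8 : Function.Injective f := by
      rw [← LinearMap.ker_eq_bot, ← h5, LinearMap.range_eq_bot]
      ext x
      rw [Subsingleton.elim x 0, map_zero, LinearMap.zero_apply]
    exact fp_iso (LinearEquiv.ofBijective f ⟨h8, h4⟩) ⟨0, h1 0, h2 0⟩
  | succ n ih =>
    intro M _ _ P _ _ d f h1 h2 h3 h4 h5 h6
    have hc : ∀ x : P 1, d 0 x ∈ LinearMap.ker f := by
      intro x
      rw [← h5]
      exact ⟨x, rfl⟩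
    have hK : FP R (LinearMap.ker f) := by
      refine ih (LinearMap.ker f) (fun i => P (i + 1)) (fun i => d (i + 1))
        ((d 0).codRestrict (LinearMap.ker f) hc) (fun i => h1 _) (fun i => h2 _)
        (fun i hi => h3 _ (by omega)) ?_ ?_ (fun i => h6 _)
      · rintro ⟨y, hy⟩
        rw [← h5] at hy
        obtain ⟨x, hx⟩ := hy
        exact ⟨x, Subtype.ext hx⟩
      · rw [LinearMap.ker_codRestrict]
        exact h6 0
    exact fp_coker (LinearMap.ker f).subtype f (Submodule.injective_subtype _) h4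
      (Submodule.range_subtype _) hK ⟨0, h1 0, h2 0⟩

theorem ff_of_res (n : ℕ) : ∀ (M : Type) [AddCommGroup M] [Module R M] (P : ℕ → Type)
    [∀ i, AddCommGroup (P i)] [∀ i, Module R (P i)] (d : ∀ i, P (i + 1) →ₗ[R] P i)
    (f : P 0 →ₗ[R] M), (∀ i, Module.Finite R (P i)) → (∀ i, Module.Free R (P i)) →
    (∀ i, n < i → Subsingleton (P i)) → Function.Surjective f →
    LinearMap.range (d 0) = LinearMap.ker f →
    (∀ i, LinearMap.range (d (i + 1)) = LinearMap.ker (d i)) → FF R M := by
  induction n with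
  | zero =>
    intro M _ _ P _ _ d f h1 h2 h3 h4 h5 h6
    have h7 : Subsingleton (P 1) := h3 1 (by norm_num)
    have h8 : Function.Injective f := by
      rw [← LinearMap.ker_eq_bot, ← h5, LinearMap.range_eq_bot]
      ext x
      rw [Subsingleton.elim x 0, map_zero, LinearMap.zero_apply]
    exact ff_iso (LinearEquiv.ofBijective f ⟨h8, h4⟩) ⟨0, h1 0, h2 0⟩
  | succ n ih =>
    intro M _ _ P _ _ d f h1 h2 h3 h4 h5 h6
    have hc : ∀ x : P 1, d 0 x ∈ LinearMap.ker f := by
      intro x
      rw [← h5]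
      exact ⟨x, rfl⟩
    have hK : FF R (LinearMap.ker f) := by
      refine ih (LinearMap.ker f) (fun i => P (i + 1)) (fun i => d (i + 1))
        ((d 0).codRestrict (LinearMap.ker f) hc) (fun i => h1 _) (fun i => h2 _)
        (fun i hi => h3 _ (by omega)) ?_ ?_ (fun i => h6 _)
      · rintro ⟨y, hy⟩
        rw [← h5] at hy
        obtain ⟨x, hx⟩ := hy
        exact ⟨x, Subtype.ext hx⟩
      · rw [LinearMap.ker_codRestrict]
        exact h6 0
    exact ff_coker (LinearMap.ker f).subtype f (Submodule.injective_subtype _) h4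
      (Submodule.range_subtype _) hK ⟨0, h1 0, h2 0⟩

/-- prepend a module to a sequence of modules -/
def consT (A : Type) (P : ℕ → Type) : ℕ → Type
  | 0 => A
  | i + 1 => P i

/-- additive structure of `consT` -/
@[reducible] def consA (A : Type) [hA : AddCommGroup A] (P : ℕ → Type) [hP : ∀ i, AddCommGroup (P i)] :
    ∀ i, AddCommGroup (consT A P i)
  | 0 => hA
  | i + 1 => hP i

/-- module structure of `consT` -/
@[reducible] def consM (R : Type) [Ring R] (A : Type) [hA : AddCommGroup A] [mA : Module R A] (P : ℕ → Type)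
    [hP : ∀ i, AddCommGroup (P i)] [mP : ∀ i, Module R (P i)] :
    ∀ i, @Module R (consT A P i) _ (consA A P i).toAddCommMonoid
  | 0 => mA
  | i + 1 => mP i

/-- differentials of `consT` -/
def consD (A : Type) [AddCommGroup A] [Module R A] (P : ℕ → Type)
    [∀ i, AddCommGroup (P i)] [∀ i, Module R (P i)] (d : ∀ i, P (i + 1) →ₗ[R] P i)
    (e : P 0 →ₗ[R] A) : ∀ i, @LinearMap R R _ _ (RingHom.id R) (consT A P (i + 1)) (consT A P i)
      (consA A P (i + 1)).toAddCommMonoid (consA A P i).toAddCommMonoid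
      (consM R A P (i + 1)) (consM R A P i)
  | 0 => e
  | i + 1 => d i

/-- data of a finite free resolution of length `n` -/
def Res' (R : Type) [Ring R] (n : ℕ) (M : Type) [AddCommGroup M] [Module R M] : Prop :=
  ∃ (P : ℕ → Type) (_ : ∀ i, AddCommGroup (P i)) (_ : ∀ i, Module R (P i))
    (d : ∀ i, P (i + 1) →ₗ[R] P i) (f : P 0 →ₗ[R] M),
    (∀ i, Module.Finite R (P i)) ∧ (∀ i, Module.Free R (P i)) ∧
    (∀ i, n < i → Subsingleton (P i)) ∧ Function.Surjective f ∧
    LinearMap.range (d 0) = LinearMap.ker f ∧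
    (∀ i, LinearMap.range (d (i + 1)) = LinearMap.ker (d i))

theorem res_of_ffl (n : ℕ) : ∀ (M : Type) [AddCommGroup M] [Module R M], FFl R n M →
    Res' R n M := by
  induction n with
  | zero =>
    intro M _ _ h
    obtain ⟨h1, h2⟩ := h
    refine ⟨consT M (fun _ => PUnit), consA M (fun _ => PUnit), consM R M (fun _ => PUnit),
      consD M (fun _ => PUnit) (fun _ => 0) 0, (LinearMap.id : M →ₗ[R] M), ?_, ?_, ?_, ?_, ?_, ?_⟩
    · rintro (_ | i)
      · exact h1
      · exact (inferInstance : Module.Finite R PUnit)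
    · rintro (_ | i)
      · exact h2
      · exact (inferInstance : Module.Free R PUnit)
    · rintro (_ | i) hi
      · exact absurd hi (lt_irrefl _)
      · exact (inferInstance : Subsingleton PUnit)
    · exact fun x => ⟨x, rfl⟩
    · change LinearMap.range (0 : PUnit →ₗ[R] M) = LinearMap.ker (LinearMap.id : M →ₗ[R] M)
      rw [LinearMap.range_zero, LinearMap.ker_id]
    · rintro (_ | i)
      · change LinearMap.range (0 : PUnit →ₗ[R] PUnit) = LinearMap.ker (0 : PUnit →ₗ[R] M)
        exact Subsingleton.elim _ _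
      · change LinearMap.range (0 : PUnit →ₗ[R] PUnit) = LinearMap.ker (0 : PUnit →ₗ[R] PUnit)
        exact Subsingleton.elim _ _
  | succ n ih =>
    intro M _ _ h
    obtain ⟨k, f, hf, hK⟩ := h
    obtain ⟨P, i1, i2, d, g, h1, h2, h3, h4, h5, h6⟩ := ih _ hK
    refine ⟨consT (Fin k → R) P, consA (Fin k → R) P, consM R (Fin k → R) P,
      consD (Fin k → R) P d ((LinearMap.ker f).subtype ∘ₗ g), f, ?_, ?_, ?_, ?_, ?_, ?_⟩
    · rintro (_ | i)
      · exact (inferInstance : Module.Finite R (Fin k → R))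
      · exact h1 i
    · rintro (_ | i)
      · exact (inferInstance : Module.Free R (Fin k → R))
      · exact h2 i
    · rintro (_ | i) hi
      · exact absurd hi (Nat.not_lt_zero _)
      · exact h3 i (by omega)
    · exact hf
    · change LinearMap.range ((LinearMap.ker f).subtype ∘ₗ g) = LinearMap.ker f
      rw [LinearMap.range_comp_of_range_eq_top _ (LinearMap.range_eq_top.2 h4),
        Submodule.range_subtype]
    · rintro (_ | i)
      · change LinearMap.range (d 0) = LinearMap.ker ((LinearMap.ker f).subtype ∘ₗ g)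
        rw [h5, LinearMap.ker_comp_of_ker_eq_bot _ (Submodule.ker_subtype _)]
      · exact h6 i

end CpxAux

theorem fp_of_typeFP (G : Type) [Group G] (h : TypeFP G) : FP (MonoidAlgebra ℤ G) (Triv G) := by
  obtain ⟨P, i1, i2, d, ε, n, h1, h2, h3, h4, h5, h6, h7⟩ := h
  let ε' : P 0 →+ Triv G := ε
  have he : ∀ (g : G) (a : P 0), ε' (act g a) = act g (ε' a) := by
    intro g a
    rw [act_triv]
    exact h4 g a
  refine fp_of_res n (Triv G) P d (mkLin ε' he) h1 h2 h3 h5 ?_ h7
  ext x
  rw [LinearMap.mem_ker, mkLin_apply]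
  exact (h6 x).symm

theorem typeFF_of_ff (G : Type) [Group G] (h : FF (MonoidAlgebra ℤ G) (Triv G)) : TypeFF G := by
  obtain ⟨n, hn⟩ := h
  obtain ⟨P, i1, i2, d, f, h1, h2, h3, h4, h5, h6⟩ := res_of_ffl n _ hn
  let ε : P 0 →+ ℤ := (f.toAddMonoidHom : P 0 →+ Triv G)
  refine ⟨P, i1, i2, d, ε, n, h1, h2, h3, ?_, h4, ?_, h6⟩
  · intro g x
    have h7 := lin_act f g x
    rw [act_triv] at h7
    exact h7
  · intro x
    rw [h5]
    have h8 : x ∈ LinearMap.ker f ↔ f x = 0 := LinearMap.mem_ker
    exact h8.symm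

theorem act_pi_triv {m : ℕ} {G : Type} [Group G] (g : G) (v : Fin m → Triv G) : act g v = v := by
  funext i
  exact act_triv G g (v i)

theorem freeRes_iff (m : ℕ) (G : Type) [Group G] :
    FreeRes m G ↔ FF (MonoidAlgebra ℤ G) (Fin m → Triv G) := by
  constructor
  · rintro ⟨P, i1, i2, d, ε, n, h1, h2, h3, h4, h5, h6, h7⟩
    let ε' : P 0 →+ (Fin m → Triv G) := ε
    have he : ∀ (g : G) (a : P 0), ε' (act g a) = act g (ε' a) := by
      intro g a
      rw [act_pi_triv]
      exact h4 g a
    refine ff_of_res n (Fin m → Triv G) P d (mkLin ε' he) h1 h2 h3 h5 ?_ h7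
    ext x
    rw [LinearMap.mem_ker, mkLin_apply]
    exact (h6 x).symm
  · rintro ⟨n, hn⟩
    obtain ⟨P, i1, i2, d, f, h1, h2, h3, h4, h5, h6⟩ := res_of_ffl n _ hn
    let ε : P 0 →+ (Fin m → ℤ) := (f.toAddMonoidHom : P 0 →+ (Fin m → Triv G))
    refine ⟨P, i1, i2, d, ε, n, h1, h2, h3, ?_, h4, ?_, h6⟩
    · intro g x
      have h7 := lin_act f g x
      rw [act_pi_triv] at h7
      exact h7
    · intro x
      rw [h5]
      have h8 : x ∈ LinearMap.ker f ↔ f x = 0 := LinearMap.mem_ker
      exact h8.symm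

theorem freeRes_of_typeFF (G : Type) [Group G] (h : TypeFF G) : FreeRes 1 G := by
  obtain ⟨P, i1, i2, d, ε, n, h1, h2, h3, h4, h5, h6, h7⟩ := h
  let ε' : P 0 →+ (Fin 1 → ℤ) := AddMonoidHom.mk' (fun x _ => ε x) (by
    intro a b
    funext i
    exact map_add ε a b)
  have he : ∀ x, ε' x = fun _ => ε x := fun x => rfl
  refine ⟨P, i1, i2, d, ε', n, h1, h2, h3, ?_, ?_, ?_, h7⟩
  · intro g x
    rw [he, he, h4 g x]
  · intro y
    obtain ⟨x, hx⟩ := h5 (y 0)
    refine ⟨x, ?_⟩
    rw [he]
    funext i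
    rw [hx, Subsingleton.elim i 0]
  · intro x
    rw [← h6 x, he]
    constructor
    · intro h
      exact congrFun h 0
    · intro h
      funext i
      exact h

end Pool.Agent.Hhelper49.Srr
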