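import Mathlib

/-!
# Serre's question FP => FF: classes of modules

Everything lives in `Type`.  `R` is an arbitrary ring (in the application `R = ℤ[G]`).
-/

namespace Pool.Agent.Hhelper49.Srr

/-- `M` has a resolution of length `n` by finitely generated free modules:
`n = 0`: `M` is finitely generated free; `n + 1`: `M` is a quotient of some `R^k` and the kernel has
such a resolution of length `n` -/
def FFl (R : Type) [Ring R] : ℕ → ∀ (M : Type) [AddCommGroup M] [Module R M], Prop
  | 0, M, _, _ => Module.Finite R M ∧ Module.Free R M
  | n + 1, M, _, _ => ∃ (k : ℕ) (f : (Fin k → R) →ₗ[R] M), Function.Surjective f ∧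
      FFl R n (LinearMap.ker f)

/-- the same with a finitely generated projective module at the end -/
def FPl (R : Type) [Ring R] : ℕ → ∀ (M : Type) [AddCommGroup M] [Module R M], Prop
  | 0, M, _, _ => Module.Finite R M ∧ Module.Projective R M
  | n + 1, M, _, _ => ∃ (k : ℕ) (f : (Fin k → R) →ₗ[R] M), Function.Surjective f ∧
      FPl R n (LinearMap.ker f)

/-- modules with a finite resolution by finitely generated free modules -/
def FF (R : Type) [Ring R] (M : Type) [AddCommGroup M] [Module R M] : Prop := ∃ n, FFl R n M

/-- modules with a finite resolution by finitely generated projective modules -/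
def FP (R : Type) [Ring R] (M : Type) [AddCommGroup M] [Module R M] : Prop := ∃ n, FPl R n M

/-- `M` and `N` have the same Euler characteristic in the reduced projective class group -/
def Sim (R : Type) [Ring R] (M N : Type) [AddCommGroup M] [Module R M] [AddCommGroup N]
    [Module R N] : Prop :=
  ∃ (C : Type) (_ : AddCommGroup C) (_ : Module R C), FP R C ∧ FF R (M × C) ∧ FF R (N × C)

end Pool.Agent.Hhelper49.Srr
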