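import Mathlib

/-!
# Types (FP) and (FF), hyperelementary subgroups
-/

namespace Pool.Agent.Hhelper49.Srr

/-- `G` is of type (FP): the trivial module `ℤ` has a resolution of finite length by finitely
generated projective `ℤ[G]`-modules -/
def TypeFP (G : Type) [Group G] : Prop :=
  ∃ (P : ℕ → Type) (_ : ∀ i, AddCommGroup (P i))
    (_ : ∀ i, Module (MonoidAlgebra ℤ G) (P i))
    (d : ∀ i, P (i + 1) →ₗ[MonoidAlgebra ℤ G] P i)
    (ε : P 0 →+ ℤ) (n : ℕ),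
    (∀ i, Module.Finite (MonoidAlgebra ℤ G) (P i)) ∧
    (∀ i, Module.Projective (MonoidAlgebra ℤ G) (P i)) ∧
    (∀ i, n < i → Subsingleton (P i)) ∧
    (∀ (g : G) (x : P 0), ε (MonoidAlgebra.of ℤ G g • x) = ε x) ∧
    Function.Surjective ε ∧
    (∀ x : P 0, ε x = 0 ↔ x ∈ LinearMap.range (d 0)) ∧
    (∀ i, LinearMap.range (d (i + 1)) = LinearMap.ker (d i))

/-- `G` is of type (FF): the trivial module `ℤ` has a resolution of finite length by finitely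
generated free `ℤ[G]`-modules -/
def TypeFF (G : Type) [Group G] : Prop :=
  ∃ (P : ℕ → Type) (_ : ∀ i, AddCommGroup (P i))
    (_ : ∀ i, Module (MonoidAlgebra ℤ G) (P i))
    (d : ∀ i, P (i + 1) →ₗ[MonoidAlgebra ℤ G] P i)
    (ε : P 0 →+ ℤ) (n : ℕ),
    (∀ i, Module.Finite (MonoidAlgebra ℤ G) (P i)) ∧
    (∀ i, Module.Free (MonoidAlgebra ℤ G) (P i)) ∧
    (∀ i, n < i → Subsingleton (P i)) ∧
    (∀ (g : G) (x : P 0), ε (MonoidAlgebra.of ℤ G g • x) = ε x) ∧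
    Function.Surjective ε ∧
    (∀ x : P 0, ε x = 0 ↔ x ∈ LinearMap.range (d 0)) ∧
    (∀ i, LinearMap.range (d (i + 1)) = LinearMap.ker (d i))

/-- the trivial module `ℤ^m` has a resolution of finite length by finitely generated free
`ℤ[G]`-modules (for `m = 1`: type (FF)) -/
def FreeRes (m : ℕ) (G : Type) [Group G] : Prop :=
  ∃ (P : ℕ → Type) (_ : ∀ i, AddCommGroup (P i))
    (_ : ∀ i, Module (MonoidAlgebra ℤ G) (P i))
    (d : ∀ i, P (i + 1) →ₗ[MonoidAlgebra ℤ G] P i)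
    (ε : P 0 →+ (Fin m → ℤ)) (n : ℕ),
    (∀ i, Module.Finite (MonoidAlgebra ℤ G) (P i)) ∧
    (∀ i, Module.Free (MonoidAlgebra ℤ G) (P i)) ∧
    (∀ i, n < i → Subsingleton (P i)) ∧
    (∀ (g : G) (x : P 0), ε (MonoidAlgebra.of ℤ G g • x) = ε x) ∧
    Function.Surjective ε ∧
    (∀ x : P 0, ε x = 0 ↔ x ∈ LinearMap.range (d 0)) ∧
    (∀ i, LinearMap.range (d (i + 1)) = LinearMap.ker (d i))

/-- `H` is `p`-hyperelementary: it has a cyclic normal subgroup `C` of order prime to `p` whose index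
in `H` is a power of `p` -/
def IsHyp (p : ℕ) {Q : Type} [Group Q] (H : Subgroup Q) : Prop :=
  ∃ C : Subgroup Q, C ≤ H ∧ (∀ h ∈ H, ∀ c ∈ C, h * c * h⁻¹ ∈ C) ∧ IsCyclic C ∧
    (Nat.card C).Coprime p ∧ ∃ k : ℕ, Nat.card H = Nat.card C * p ^ k

end Pool.Agent.Hhelper49.Srr
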